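import Pool.Agent.Lib_helper8.PENT.ZDefs

set_option autoImplicit false

namespace Pool.Agent.PENT

/-- Chinese remainder theorem for sums -/
theorem za_crt {m n : ℕ} (hm : 0 < m) (hn : 0 < n) (hmn : Nat.Coprime m n) (F : ℕ → ℕ → ℝ) :
    ∑ a ∈ Finset.range (m * n), F (a % m) (a % n) =
      ∑ a ∈ Finset.range m, ∑ b ∈ Finset.range n, F a b := by
  rw [← Finset.sum_product' (Finset.range m) (Finset.range n) F]
  refine Finset.sum_bij (fun a _ => (a % m, a % n)) ?_ ?_ ?_ ?_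
  · intro a _
    simp only [Finset.mem_product, Finset.mem_range]
    exact ⟨Nat.mod_lt _ hm, Nat.mod_lt _ hn⟩
  · intro a ha b hb hab
    have ha' := Finset.mem_range.1 ha
    have hb' := Finset.mem_range.1 hb
    have h1 : a ≡ b [MOD m] := congrArg Prod.fst hab
    have h2 : a ≡ b [MOD n] := congrArg Prod.snd hab
    have h3 : a ≡ b [MOD m * n] := (Nat.modEq_and_modEq_iff_modEq_mul hmn).1 ⟨h1, h2⟩
    have h4 : a % (m * n) = b % (m * n) := h3
    rwa [Nat.mod_eq_of_lt ha', Nat.mod_eq_of_lt hb'] at h4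
  · rintro ⟨b, c⟩ hbc
    simp only [Finset.mem_product, Finset.mem_range] at hbc
    refine ⟨(Nat.chineseRemainder hmn b c : ℕ), ?_, ?_⟩
    · exact Finset.mem_range.2
        (Nat.chineseRemainder_lt_mul hmn b c hm.ne' hn.ne')
    · have h1 : (Nat.chineseRemainder hmn b c : ℕ) % m = b % m :=
        (Nat.chineseRemainder hmn b c).2.1
      have h2 : (Nat.chineseRemainder hmn b c : ℕ) % n = c % n :=
        (Nat.chineseRemainder hmn b c).2.2
      rw [Nat.mod_eq_of_lt hbc.1] at h1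
      rw [Nat.mod_eq_of_lt hbc.2] at h2
      simp only [h1, h2]
  · intro a _
    rfl

/-- reduction modulo `m` -/
theorem za_mod {m : ℕ} {f : ℤ → ℤ → ℝ} (hf : Per m f) (a b : ℕ) :
    f (a : ℤ) (b : ℤ) = f ((a % m : ℕ) : ℤ) ((b % m : ℕ) : ℤ) := by
  apply hf
  · have h := Nat.div_add_mod a m
    refine ⟨((a / m : ℕ) : ℤ), ?_⟩
    have h' : ((m : ℤ)) * ((a / m : ℕ) : ℤ) + ((a % m : ℕ) : ℤ) = (a : ℤ) := by exact_mod_cast h
    linarith
  · have h := Nat.div_add_mod b m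
    refine ⟨((b / m : ℕ) : ℤ), ?_⟩
    have h' : ((m : ℤ)) * ((b / m : ℕ) : ℤ) + ((b % m : ℕ) : ℤ) = (b : ℤ) := by exact_mod_cast h
    linarith

/-- block `za`: Chinese remainder theorem for averages -/
theorem av_mul_pr {m n : ℕ} (hm : 0 < m) (hn : 0 < n) (hmn : Nat.Coprime m n) {f g : ℤ → ℤ → ℝ}
    (hf : Per m f) (hg : Per n g) :
    av (m * n) (fun s t => f s t * g s t) = av m f * av n g := by
  have h1 : ∑ a ∈ Finset.range (m * n), ∑ b ∈ Finset.range (m * n),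
      f (a : ℤ) (b : ℤ) * g (a : ℤ) (b : ℤ) =
      (∑ a ∈ Finset.range m, ∑ b ∈ Finset.range m, f (a : ℤ) (b : ℤ)) *
      (∑ a ∈ Finset.range n, ∑ b ∈ Finset.range n, g (a : ℤ) (b : ℤ)) := by
    have e1 : ∀ a : ℕ, ∑ b ∈ Finset.range (m * n), f (a : ℤ) (b : ℤ) * g (a : ℤ) (b : ℤ) =
        (∑ b ∈ Finset.range m, f ((a % m : ℕ) : ℤ) (b : ℤ)) *
          ∑ b ∈ Finset.range n, g ((a % n : ℕ) : ℤ) (b : ℤ) := by
      intro a
      rw [Finset.sum_mul_sum]
      rw [← za_crt hm hn hmn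
        (fun b c => f ((a % m : ℕ) : ℤ) (b : ℤ) * g ((a % n : ℕ) : ℤ) (c : ℤ))]
      refine Finset.sum_congr rfl fun b _ => ?_
      rw [za_mod hf a b, za_mod hg a b]
    rw [Finset.sum_congr rfl fun a _ => e1 a, Finset.sum_mul_sum]
    exact za_crt hm hn hmn
      (fun a a' => (∑ b ∈ Finset.range m, f (a : ℤ) (b : ℤ)) *
        ∑ b ∈ Finset.range n, g (a' : ℤ) (b : ℤ))
  unfold av
  rw [h1]
  push_cast
  rw [mul_pow, div_mul_div_comm]

theorem av_mul : type_of% @av_mul_pr := @av_mul_pr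

end Pool.Agent.PENT
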