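import Pool.Agent.Lib_helper8.PENT.ZDefs
import Pool.Agent.Lib_helper8.PENT.B.za

set_option autoImplicit false

namespace Pool.Agent.PENT

theorem zb_per_mul {m n : ℕ} {f g : ℤ → ℤ → ℝ} (hf : Per m f) (hg : Per n g) :
    Per (m * n) (fun s t => f s t * g s t) := by
  intro s t s' t' h1 h2
  have hm : (m : ℤ) ∣ ((m * n : ℕ) : ℤ) := by
    rw [Nat.cast_mul]; exact dvd_mul_right _ _
  have hn : (n : ℤ) ∣ ((m * n : ℕ) : ℤ) := by
    rw [Nat.cast_mul]; exact dvd_mul_left _ _
  show f s t * g s t = f s' t' * g s' t'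
  rw [hf s t s' t' (hm.trans h1) (hm.trans h2), hg s t s' t' (hn.trans h1) (hn.trans h2)]

theorem av_prod_pr {q : ℕ} (hq : 0 < q) {f : ℤ → ℤ → ℝ} (hf : Per q f) (T : Finset ℕ) (a : ℕ → ℕ)
    (x : ℕ → ℤ → ℤ → ℝ) (h0 : ∀ p ∈ T, 0 < a p) (hqa : ∀ p ∈ T, Nat.Coprime q (a p))
    (hT : ∀ p ∈ T, ∀ p' ∈ T, p ≠ p' → Nat.Coprime (a p) (a p'))
    (hx : ∀ p ∈ T, Per (a p) (x p)) :
    Per (q * ∏ p ∈ T, a p) (fun s t => f s t * ∏ p ∈ T, x p s t) ∧
    av (q * ∏ p ∈ T, a p) (fun s t => f s t * ∏ p ∈ T, x p s t) =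
      av q f * ∏ p ∈ T, av (a p) (x p) := by
  induction T using Finset.induction_on with
  | empty =>
    simp only [Finset.prod_empty, mul_one]
    exact ⟨hf, trivial⟩
  | insert p T hp ih =>
    have ih' := ih (fun r hr => h0 r (Finset.mem_insert_of_mem hr))
      (fun r hr => hqa r (Finset.mem_insert_of_mem hr))
      (fun r hr r' hr' hne => hT r (Finset.mem_insert_of_mem hr) r' (Finset.mem_insert_of_mem hr')
        hne)
      (fun r hr => hx r (Finset.mem_insert_of_mem hr))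
    obtain ⟨i1, i2⟩ := ih'
    have hpp : p ∈ insert p T := Finset.mem_insert_self p T
    have hpos : 0 < q * ∏ r ∈ T, a r :=
      Nat.mul_pos hq (Finset.prod_pos fun r hr => h0 r (Finset.mem_insert_of_mem hr))
    have hco : Nat.Coprime (q * ∏ r ∈ T, a r) (a p) := by
      refine Nat.Coprime.mul_left (hqa p hpp) ?_
      refine Nat.Coprime.prod_left fun r hr => ?_
      refine hT r (Finset.mem_insert_of_mem hr) p hpp ?_
      rintro rfl
      exact hp hr
    have hmod : q * ∏ r ∈ insert p T, a r = (q * ∏ r ∈ T, a r) * a p := by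
      rw [Finset.prod_insert hp]; ring
    have hfun : (fun s t => f s t * ∏ r ∈ insert p T, x r s t) =
        (fun s t => (f s t * ∏ r ∈ T, x r s t) * x p s t) := by
      funext s t
      rw [Finset.prod_insert hp]; ring
    rw [hmod, hfun]
    refine ⟨zb_per_mul i1 (hx p hpp), ?_⟩
    rw [av_mul hpos (h0 p hpp) hco i1 (hx p hpp), i2, Finset.prod_insert hp]
    ring

theorem av_prod : type_of% @av_prod_pr := @av_prod_pr

end Pool.Agent.PENT
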