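import Pool.Agent.Lib_helper8.PENT.ZDefs

/-! Block `zc` (project PENT, part ZS). -/

set_option autoImplicit false

namespace Pool.Agent.PENT

/-- the residue -/
def zc_r (m : ℕ) (s : ℤ) : ℕ := (s % (m : ℤ)).toNat

theorem zc_r_lt {m : ℕ} (hm : 0 < m) (s : ℤ) : zc_r m s < m := by
  unfold zc_r
  have h1 : 0 ≤ s % (m : ℤ) := Int.emod_nonneg _ (by omega)
  have h2 : s % (m : ℤ) < m := Int.emod_lt_of_pos _ (by omega)
  omega

theorem zc_r_cast {m : ℕ} (hm : 0 < m) (s : ℤ) : ((zc_r m s : ℕ) : ℤ) = s % (m : ℤ) := by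
  unfold zc_r
  have h1 : 0 ≤ s % (m : ℤ) := Int.emod_nonneg _ (by omega)
  omega

theorem zc_r_dvd {m : ℕ} (hm : 0 < m) (s : ℤ) : (m : ℤ) ∣ s - (zc_r m s : ℕ) := by
  rw [zc_r_cast hm]
  exact Int.dvd_self_sub_emod

/-- the number of elements of a residue class -/
noncomputable def zc_N (m : ℕ) (A B : ℤ) (a : ℕ) : ℕ := ((Finset.Ioc A B).filter (fun s => zc_r m s = a)).card

theorem zc_sum {m : ℕ} (hm : 0 < m) (A B : ℤ) (F : ℕ → ℝ) :
    ∑ s ∈ Finset.Ioc A B, F (zc_r m s) = ∑ a ∈ Finset.range m, (zc_N m A B a : ℝ) * F a := by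
  rw [← Finset.sum_fiberwise_of_maps_to (s := Finset.Ioc A B) (t := Finset.range m)
    (g := fun s => zc_r m s) (fun s _ => Finset.mem_range.2 (zc_r_lt hm s))]
  refine Finset.sum_congr rfl fun a _ => ?_
  rw [Finset.sum_congr rfl (fun s hs => by rw [(Finset.mem_filter.1 hs).2] :
    ∀ s ∈ (Finset.Ioc A B).filter (fun s => zc_r m s = a), F (zc_r m s) = F a)]
  rw [Finset.sum_const, nsmul_eq_mul]
  rfl

theorem zc_N_abs {m : ℕ} (hm : 0 < m) (A B : ℤ) (hAB : A ≤ B) (a : ℕ) (ha : a < m) :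
    |(zc_N m A B a : ℝ) - ((B - A : ℤ) : ℝ) / m| ≤ 1 := by
  have hm' : (0 : ℤ) < m := by exact_mod_cast hm
  have h1 := Int.Ioc_filter_modEq_card A B hm' (a : ℤ)
  have h2 : (Finset.Ioc A B).filter (fun s => zc_r m s = a) =
      (Finset.Ioc A B).filter (fun x => x ≡ (a : ℤ) [ZMOD (m : ℤ)]) := by
    refine Finset.filter_congr fun s _ => ?_
    unfold Int.ModEq
    rw [Int.emod_eq_of_lt (by omega : (0 : ℤ) ≤ (a : ℤ)) (by exact_mod_cast ha), ← zc_r_cast hm]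
    constructor
    · intro h; exact_mod_cast h
    · intro h; exact_mod_cast h
  have h3 : (zc_N m A B a : ℤ) = max (⌊((B : ℚ) - (a : ℤ)) / ((m : ℤ) : ℚ)⌋ -
      ⌊((A : ℚ) - (a : ℤ)) / ((m : ℤ) : ℚ)⌋) 0 := by
    unfold zc_N
    rw [h2]
    exact h1
  have hmQ : (0 : ℚ) < ((m : ℤ) : ℚ) := by exact_mod_cast hm
  have hle : ((A : ℚ) - (a : ℤ)) / ((m : ℤ) : ℚ) ≤ ((B : ℚ) - (a : ℤ)) / ((m : ℤ) : ℚ) := by
    apply div_le_div_of_nonneg_right _ hmQ.le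
    have : (A : ℚ) ≤ B := by exact_mod_cast hAB
    linarith
  have h4 := Int.floor_le_floor hle
  rw [max_eq_left (by omega)] at h3
  have f1 := Int.floor_le (((B : ℚ) - (a : ℤ)) / ((m : ℤ) : ℚ))
  have f2 := Int.lt_floor_add_one (((B : ℚ) - (a : ℤ)) / ((m : ℤ) : ℚ))
  have f3 := Int.floor_le (((A : ℚ) - (a : ℤ)) / ((m : ℤ) : ℚ))
  have f4 := Int.lt_floor_add_one (((A : ℚ) - (a : ℤ)) / ((m : ℤ) : ℚ))
  have h5 : ((B : ℚ) - (a : ℤ)) / ((m : ℤ) : ℚ) - ((A : ℚ) - (a : ℤ)) / ((m : ℤ) : ℚ) =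
      ((B - A : ℤ) : ℚ) / (m : ℚ) := by
    push_cast
    rw [← sub_div]
    ring
  have h6 : ((zc_N m A B a : ℤ) : ℚ) = (⌊((B : ℚ) - (a : ℤ)) / ((m : ℤ) : ℚ)⌋ : ℚ) -
      (⌊((A : ℚ) - (a : ℤ)) / ((m : ℤ) : ℚ)⌋ : ℚ) := by
    rw [h3]; push_cast; ring
  have h7 : |((zc_N m A B a : ℤ) : ℚ) - ((B - A : ℤ) : ℚ) / (m : ℚ)| ≤ 1 := by
    rw [abs_le]
    constructor
    · linarith
    · linarith
  have h8 : |(((zc_N m A B a : ℤ) : ℚ) : ℝ) - (((B - A : ℤ) : ℚ) : ℝ) / ((m : ℚ) : ℝ)| ≤ 1 := by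
    exact_mod_cast h7
  simpa using h8

theorem box_av_pr {m : ℕ} (hm : 0 < m) {h : ℤ → ℤ → ℝ} (hh : Per m h)
    (h01 : ∀ s t, 0 ≤ h s t ∧ h s t ≤ 1) (A B A' B' : ℤ) (hAB : A ≤ B) (hAB' : A' ≤ B') :
    |∑ s ∈ Finset.Ioc A B, ∑ t ∈ Finset.Ioc A' B', h s t -
        ((B - A : ℤ) : ℝ) * ((B' - A' : ℤ) : ℝ) * av m h| ≤
      m * (((B - A : ℤ) : ℝ) + ((B' - A' : ℤ) : ℝ)) + (m : ℝ) ^ 2 := by
  have hmR : (0 : ℝ) < m := by exact_mod_cast hm
  obtain ⟨L, hL⟩ : ∃ L : ℝ, L = ((B - A : ℤ) : ℝ) := ⟨_, rfl⟩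
  obtain ⟨L', hL'⟩ : ∃ L' : ℝ, L' = ((B' - A' : ℤ) : ℝ) := ⟨_, rfl⟩
  have hL0 : 0 ≤ L := by rw [hL]; exact_mod_cast sub_nonneg.2 hAB
  have hL0' : 0 ≤ L' := by rw [hL']; exact_mod_cast sub_nonneg.2 hAB'
  have h1 : ∑ s ∈ Finset.Ioc A B, ∑ t ∈ Finset.Ioc A' B', h s t =
      ∑ a ∈ Finset.range m, ∑ b ∈ Finset.range m,
        (zc_N m A B a : ℝ) * (zc_N m A' B' b : ℝ) * h (a : ℤ) (b : ℤ) := by
    have h2 : ∀ s ∈ Finset.Ioc A B, ∑ t ∈ Finset.Ioc A' B', h s t =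
        (fun a : ℕ => ∑ t ∈ Finset.Ioc A' B', h (a : ℤ) ((zc_r m t : ℕ) : ℤ)) (zc_r m s) := by
      intro s _
      refine Finset.sum_congr rfl fun t _ => ?_
      exact hh s t _ _ (zc_r_dvd hm s) (zc_r_dvd hm t)
    rw [Finset.sum_congr rfl h2, zc_sum hm A B
      (fun a : ℕ => ∑ t ∈ Finset.Ioc A' B', h (a : ℤ) ((zc_r m t : ℕ) : ℤ))]
    refine Finset.sum_congr rfl fun a _ => ?_
    have h3 := zc_sum hm A' B' (fun b : ℕ => h (a : ℤ) (b : ℤ))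
    show (zc_N m A B a : ℝ) * (∑ t ∈ Finset.Ioc A' B', h (a : ℤ) ((zc_r m t : ℕ) : ℤ)) = _
    rw [h3, Finset.mul_sum]
    refine Finset.sum_congr rfl fun b _ => ?_
    ring
  have h4 : L * L' * av m h = ∑ a ∈ Finset.range m, ∑ b ∈ Finset.range m,
      (L / m) * (L' / m) * h (a : ℤ) (b : ℤ) := by
    unfold av
    simp_rw [← Finset.mul_sum]
    field_simp
  rw [h1, ← hL, ← hL', h4, ← Finset.sum_sub_distrib]
  have h5 : ∀ a ∈ Finset.range m, |∑ b ∈ Finset.range m,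
      (zc_N m A B a : ℝ) * (zc_N m A' B' b : ℝ) * h (a : ℤ) (b : ℤ) -
      ∑ b ∈ Finset.range m, (L / m) * (L' / m) * h (a : ℤ) (b : ℤ)| ≤
      m * (L / m + L' / m + 1) := by
    intro a ha
    rw [← Finset.sum_sub_distrib]
    have h6 : ∀ b ∈ Finset.range m, |(zc_N m A B a : ℝ) * (zc_N m A' B' b : ℝ) *
        h (a : ℤ) (b : ℤ) - (L / m) * (L' / m) * h (a : ℤ) (b : ℤ)| ≤ L / m + L' / m + 1 := by
      intro b hb
      have e1 := zc_N_abs hm A B hAB a (Finset.mem_range.1 ha)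
      have e2 := zc_N_abs hm A' B' hAB' b (Finset.mem_range.1 hb)
      rw [← hL] at e1
      rw [← hL'] at e2
      obtain ⟨x, hx⟩ : ∃ x : ℝ, x = (zc_N m A B a : ℝ) - L / m := ⟨_, rfl⟩
      obtain ⟨y, hy⟩ : ∃ y : ℝ, y = (zc_N m A' B' b : ℝ) - L' / m := ⟨_, rfl⟩
      rw [← hx] at e1
      rw [← hy] at e2
      have hx' : (zc_N m A B a : ℝ) = L / m + x := by rw [hx]; ring
      have hy' : (zc_N m A' B' b : ℝ) = L' / m + y := by rw [hy]; ring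
      rw [hx', hy']
      have h7 : (L / m + x) * (L' / m + y) * h (a : ℤ) (b : ℤ) -
          (L / m) * (L' / m) * h (a : ℤ) (b : ℤ) =
          ((L / m) * y + (L' / m) * x + x * y) * h (a : ℤ) (b : ℤ) := by ring
      rw [h7, abs_mul]
      have h8 : |h (a : ℤ) (b : ℤ)| ≤ 1 := by
        rw [abs_of_nonneg (h01 _ _).1]
        exact (h01 _ _).2
      have h9 : |(L / m) * y + (L' / m) * x + x * y| ≤ L / m + L' / m + 1 := by
        have g1 : |(L / m) * y| ≤ L / m := by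
          rw [abs_mul, abs_of_nonneg (div_nonneg hL0 hmR.le)]
          exact mul_le_of_le_one_right (div_nonneg hL0 hmR.le) e2
        have g2 : |(L' / m) * x| ≤ L' / m := by
          rw [abs_mul, abs_of_nonneg (div_nonneg hL0' hmR.le)]
          exact mul_le_of_le_one_right (div_nonneg hL0' hmR.le) e1
        have g3 : |x * y| ≤ 1 := by
          rw [abs_mul]
          exact mul_le_one₀ e1 (abs_nonneg _) e2
        calc |(L / m) * y + (L' / m) * x + x * y|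
            ≤ |(L / m) * y + (L' / m) * x| + |x * y| := abs_add_le _ _
          _ ≤ |(L / m) * y| + |(L' / m) * x| + |x * y| := by
              linarith [abs_add_le ((L / m) * y) ((L' / m) * x)]
          _ ≤ L / m + L' / m + 1 := by linarith
      calc |(L / m) * y + (L' / m) * x + x * y| * |h (a : ℤ) (b : ℤ)|
          ≤ |(L / m) * y + (L' / m) * x + x * y| * 1 :=
            mul_le_mul_of_nonneg_left h8 (abs_nonneg _)
        _ ≤ L / m + L' / m + 1 := by rw [mul_one]; exact h9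
    calc |∑ b ∈ Finset.range m, ((zc_N m A B a : ℝ) * (zc_N m A' B' b : ℝ) *
          h (a : ℤ) (b : ℤ) - (L / m) * (L' / m) * h (a : ℤ) (b : ℤ))|
        ≤ ∑ b ∈ Finset.range m, |(zc_N m A B a : ℝ) * (zc_N m A' B' b : ℝ) *
          h (a : ℤ) (b : ℤ) - (L / m) * (L' / m) * h (a : ℤ) (b : ℤ)| :=
            Finset.abs_sum_le_sum_abs _ _
      _ ≤ ∑ b ∈ Finset.range m, (L / m + L' / m + 1) := Finset.sum_le_sum h6
      _ = m * (L / m + L' / m + 1) := by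
          rw [Finset.sum_const, Finset.card_range, nsmul_eq_mul]
  calc |∑ a ∈ Finset.range m, (∑ b ∈ Finset.range m,
      (zc_N m A B a : ℝ) * (zc_N m A' B' b : ℝ) * h (a : ℤ) (b : ℤ) -
      ∑ b ∈ Finset.range m, (L / m) * (L' / m) * h (a : ℤ) (b : ℤ))|
      ≤ ∑ a ∈ Finset.range m, |∑ b ∈ Finset.range m,
        (zc_N m A B a : ℝ) * (zc_N m A' B' b : ℝ) * h (a : ℤ) (b : ℤ) -
        ∑ b ∈ Finset.range m, (L / m) * (L' / m) * h (a : ℤ) (b : ℤ)| :=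
          Finset.abs_sum_le_sum_abs _ _
    _ ≤ ∑ a ∈ Finset.range m, m * (L / m + L' / m + 1) := Finset.sum_le_sum h5
    _ = m * (m * (L / m + L' / m + 1)) := by
        rw [Finset.sum_const, Finset.card_range, nsmul_eq_mul]
    _ = m * (L + L') + (m : ℝ) ^ 2 := by field_simp

theorem box_av : type_of% @box_av_pr := @box_av_pr

end Pool.Agent.PENT
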