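import Pool.Agent.Lib_helper8.PENT.ZDefs

/-! Block `zd` (project PENT, part ZS). -/

set_option autoImplicit false

namespace Pool.Agent.PENT

theorem zd_dvd_lt {p : ℕ} (x : ℤ) (h : (p : ℤ) ∣ x) (h1 : -(p : ℤ) < x) (h2 : x < (p : ℤ)) :
    x = 0 := by
  apply Int.eq_zero_of_abs_lt_dvd h
  exact abs_lt.2 ⟨h1, h2⟩

/-- at most two solutions of a quadratic congruence -/
theorem zd_card {p : ℕ} (hp : p.Prime) (r : ℤ) :
    ((Finset.range p).filter (fun b : ℕ => (p : ℤ) ∣ (b : ℤ) ^ 2 - r)).card ≤ 2 := by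
  classical
  rcases Finset.eq_empty_or_nonempty
    ((Finset.range p).filter (fun b : ℕ => (p : ℤ) ∣ (b : ℤ) ^ 2 - r)) with h0 | ⟨b0, hb0⟩
  · rw [h0]; simp
  · have h1 : (Finset.range p).filter (fun b : ℕ => (p : ℤ) ∣ (b : ℤ) ^ 2 - r) ⊆
        {b0, (p - b0) % p} := by
      intro b hb
      have hb1 := Finset.mem_filter.1 hb
      have hb2 := Finset.mem_filter.1 hb0
      have hlt : b < p := Finset.mem_range.1 hb1.1
      have hlt0 : b0 < p := Finset.mem_range.1 hb2.1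
      have hd : (p : ℤ) ∣ ((b : ℤ) - b0) * ((b : ℤ) + b0) := by
        have h2 : ((b : ℤ) - b0) * ((b : ℤ) + b0) = ((b : ℤ) ^ 2 - r) - ((b0 : ℤ) ^ 2 - r) := by ring
        rw [h2]
        exact dvd_sub hb1.2 hb2.2
      rcases (Nat.prime_iff_prime_int.1 hp).dvd_or_dvd hd with h3 | h3
      · have h4 := zd_dvd_lt _ h3 (by omega) (by omega)
        have h5 : b = b0 := by omega
        simp [h5]
      · have h4 : (p : ℤ) ∣ (b : ℤ) + b0 - p := by
          exact dvd_sub h3 dvd_rfl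
        rcases Nat.eq_zero_or_pos (b + b0) with h6 | h6
        · have h7 : b = b0 := by omega
          simp [h7]
        · have h5 := zd_dvd_lt _ h4 (by omega) (by omega)
          have h7 : b = p - b0 := by omega
          have h8 : (p - b0) % p = p - b0 := Nat.mod_eq_of_lt (by omega)
          rw [h8, h7]
          simp
    exact le_trans (Finset.card_le_card h1) Finset.card_le_two

theorem av_sqi_le_pr {p : ℕ} (hp : p.Prime) (ρ : ℤ) : av p (sqi p ρ) ≤ 2 / (p : ℝ) := by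
  have hp0 : (0 : ℝ) < p := by exact_mod_cast hp.pos
  have h1 : ∀ a ∈ Finset.range p, ∑ b ∈ Finset.range p, sqi p ρ (a : ℤ) (b : ℤ) ≤ 2 := by
    intro a _
    have h2 : ∑ b ∈ Finset.range p, sqi p ρ (a : ℤ) (b : ℤ) =
        (((Finset.range p).filter (fun b : ℕ => (p : ℤ) ∣ (b : ℤ) ^ 2 - (ρ - (a : ℤ) ^ 2))).card
          : ℝ) := by
      rw [Finset.card_filter]
      push_cast
      refine Finset.sum_congr rfl fun b _ => ?_
      unfold sqi
      have h3 : (a : ℤ) ^ 2 + (b : ℤ) ^ 2 - ρ = (b : ℤ) ^ 2 - (ρ - (a : ℤ) ^ 2) := by ring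
      rw [h3]
    rw [h2]
    exact_mod_cast zd_card hp _
  unfold av
  have h4 : ∑ a ∈ Finset.range p, ∑ b ∈ Finset.range p, sqi p ρ (a : ℤ) (b : ℤ) ≤ p * 2 := by
    calc ∑ a ∈ Finset.range p, ∑ b ∈ Finset.range p, sqi p ρ (a : ℤ) (b : ℤ)
        ≤ ∑ a ∈ Finset.range p, (2 : ℝ) := Finset.sum_le_sum h1
      _ = p * 2 := by simp
  rw [div_le_div_iff₀ (by positivity) hp0]
  nlinarith

theorem av_sqi_le : type_of% @av_sqi_le_pr := @av_sqi_le_pr

end Pool.Agent.PENT
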