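import Mathlib
import Pool.Agent.Lib_helper8.PENT.ZDefs

set_option autoImplicit false

namespace Pool.Agent.PENT

theorem ze_dvd {p : ℕ} (hp : p.Prime) (h4 : p % 4 = 3) (a b : ℤ)
    (h : (p : ℤ) ∣ a ^ 2 + b ^ 2) : (p : ℤ) ∣ a := by
  have hF : Fact p.Prime := ⟨hp⟩
  by_contra hcon
  have h1 : (a : ZMod p) ≠ 0 := fun h0 => hcon ((ZMod.intCast_zmod_eq_zero_iff_dvd a p).mp h0)
  have h2 : ((a ^ 2 + b ^ 2 : ℤ) : ZMod p) = 0 := (ZMod.intCast_zmod_eq_zero_iff_dvd _ p).mpr h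
  push_cast at h2
  have h3 : (b : ZMod p) ^ 2 = -(a : ZMod p) ^ 2 := by
    rw [eq_neg_iff_add_eq_zero, add_comm]
    exact h2
  exact ZMod.mod_four_ne_three_of_sq_eq_neg_sq' h1 h3 h4

/-- block `ze`: `s² + t² = 0` modulo `p = 3 mod 4` only for `s = t = 0` -/
theorem av_sqi_three_pr {p : ℕ} (hp : p.Prime) (h4 : p % 4 = 3) :
    av p (sqi p 0) ≤ 1 / (p : ℝ) ^ 2 := by
  unfold av
  apply div_le_div_of_nonneg_right _ (by positivity)
  have h1 : ∀ a ∈ Finset.range p, ∀ b ∈ Finset.range p, sqi p 0 (a : ℤ) (b : ℤ) ≤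
      (if a = 0 then (1 : ℝ) else 0) * (if b = 0 then (1 : ℝ) else 0) := by
    intro a ha b hb
    rw [Finset.mem_range] at ha hb
    unfold sqi
    split_ifs with h h0 h0' h0' h0
    · norm_num
    · exfalso
      rw [sub_zero, add_comm] at h
      have h2 := ze_dvd hp h4 _ _ h
      have h3 : p ∣ b := by exact_mod_cast h2
      exact h0' (Nat.eq_zero_of_dvd_of_lt h3 hb)
    · exfalso
      rw [sub_zero] at h
      have h2 := ze_dvd hp h4 _ _ h
      have h3 : p ∣ a := by exact_mod_cast h2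
      exact h0 (Nat.eq_zero_of_dvd_of_lt h3 ha)
    · exfalso
      rw [sub_zero] at h
      have h2 := ze_dvd hp h4 _ _ h
      have h3 : p ∣ a := by exact_mod_cast h2
      exact h0 (Nat.eq_zero_of_dvd_of_lt h3 ha)
    all_goals norm_num
  calc ∑ a ∈ Finset.range p, ∑ b ∈ Finset.range p, sqi p 0 (a : ℤ) (b : ℤ)
      ≤ ∑ a ∈ Finset.range p, ∑ b ∈ Finset.range p,
        (if a = 0 then (1 : ℝ) else 0) * (if b = 0 then (1 : ℝ) else 0) :=
        Finset.sum_le_sum fun a ha => Finset.sum_le_sum fun b hb => h1 a ha b hb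
    _ = (∑ a ∈ Finset.range p, if a = 0 then (1 : ℝ) else 0) *
        ∑ b ∈ Finset.range p, if b = 0 then (1 : ℝ) else 0 := by rw [Finset.sum_mul_sum]
    _ ≤ 1 := by
      rw [Finset.sum_ite_eq' (Finset.range p) 0 (fun _ => (1 : ℝ))]
      split_ifs <;> norm_num

theorem av_sqi_three : type_of% @av_sqi_three_pr := @av_sqi_three_pr

end Pool.Agent.PENT
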