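import Pool.Agent.Lib_helper8.PENT.ZDefs

/-! Block `zf` (project PENT, part ZS; helper54). -/

set_option autoImplicit false

namespace Pool.Agent.PENT

theorem zf_mult (p : ℕ) (_hp : p.Prime) :
    ((Finset.range (p ^ 2)).filter (fun b : ℕ => p ∣ b)).card ≤ p := by
  have h : (Finset.range (p ^ 2)).filter (fun b : ℕ => p ∣ b) ⊆
      (Finset.range p).image (fun k => p * k) := by
    intro b hb
    rw [Finset.mem_filter, Finset.mem_range] at hb
    obtain ⟨hb1, k, rfl⟩ := hb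
    rw [Finset.mem_image]
    refine ⟨k, ?_, rfl⟩
    rw [Finset.mem_range]
    rw [pow_two] at hb1
    exact lt_of_mul_lt_mul_left hb1 (Nat.zero_le _)
  calc _ ≤ ((Finset.range p).image (fun k => p * k)).card := Finset.card_le_card h
    _ ≤ (Finset.range p).card := Finset.card_image_le
    _ = p := Finset.card_range p

theorem zf_two (a b : ℤ) (ha : ¬ (2 : ℤ) ∣ a) : ¬ (4 : ℤ) ∣ a ^ 2 + b ^ 2 := by
  intro h
  have h1 : a % 2 = 1 := by omega
  have ha4 : a ^ 2 % 4 = 1 := by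
    obtain ⟨k, hk⟩ : ∃ k, a = 2 * k + 1 := ⟨a / 2, by omega⟩
    have : a ^ 2 = 4 * (k ^ 2 + k) + 1 := by rw [hk]; ring
    omega
  rcases Int.emod_two_eq_zero_or_one b with hb | hb
  · obtain ⟨k, hk⟩ : ∃ k, b = 2 * k := ⟨b / 2, by omega⟩
    have : b ^ 2 = 4 * (k ^ 2) := by rw [hk]; ring
    omega
  · obtain ⟨k, hk⟩ : ∃ k, b = 2 * k + 1 := ⟨b / 2, by omega⟩
    have : b ^ 2 = 4 * (k ^ 2 + k) + 1 := by rw [hk]; ring
    omega

theorem zf_row (p : ℕ) (hp : p.Prime) (a : ℤ) (ha : ¬ (p : ℤ) ∣ a) :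
    ((Finset.range (p ^ 2)).filter
      (fun b : ℕ => ((p ^ 2 : ℕ) : ℤ) ∣ a ^ 2 + (b : ℤ) ^ 2 - 0)).card ≤ 2 := by
  rcases Finset.eq_empty_or_nonempty ((Finset.range (p ^ 2)).filter
      (fun b : ℕ => ((p ^ 2 : ℕ) : ℤ) ∣ a ^ 2 + (b : ℤ) ^ 2 - 0)) with h0 | ⟨b0, hb0⟩
  · rw [h0]; simp
  · have hpZ : Prime (p : ℤ) := Nat.prime_iff_prime_int.mp hp
    rw [Finset.mem_filter, Finset.mem_range] at hb0
    obtain ⟨hb0l, hb0d⟩ := hb0
    have hpow : ((p ^ 2 : ℕ) : ℤ) = (p : ℤ) ^ 2 := by push_cast; ring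
    rw [hpow, sub_zero] at hb0d
    have hp2 : p ≠ 2 := by
      rintro rfl
      exact zf_two a b0 (by exact_mod_cast ha) (by norm_num at hb0d; exact hb0d)
    have hnb0 : ¬ (p : ℤ) ∣ (b0 : ℤ) := by
      intro h
      have h1 : (p : ℤ) ∣ a ^ 2 + (b0 : ℤ) ^ 2 := dvd_trans (Dvd.intro_left ((p : ℤ) ^ 1) (by ring)) hb0d
      have h2 : (p : ℤ) ∣ (b0 : ℤ) ^ 2 := dvd_pow h two_ne_zero
      have h3 : (p : ℤ) ∣ a ^ 2 := (dvd_add_left h2).mp h1
      exact ha (hpZ.dvd_of_dvd_pow h3)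
    have hsub : (Finset.range (p ^ 2)).filter
      (fun b : ℕ => ((p ^ 2 : ℕ) : ℤ) ∣ a ^ 2 + (b : ℤ) ^ 2 - 0) ⊆ {b0, p ^ 2 - b0} := by
      intro b hb
      rw [Finset.mem_filter, Finset.mem_range, hpow, sub_zero] at hb
      obtain ⟨hbl, hbd⟩ := hb
      have hd : (p : ℤ) ^ 2 ∣ ((b : ℤ) - b0) * ((b : ℤ) + b0) := by
        have := dvd_sub hbd hb0d
        have he : a ^ 2 + (b : ℤ) ^ 2 - (a ^ 2 + (b0 : ℤ) ^ 2) = ((b : ℤ) - b0) * ((b : ℤ) + b0) := by ring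
        rwa [he] at this
      rw [Finset.mem_insert, Finset.mem_singleton]
      by_cases hm : (p : ℤ) ∣ (b : ℤ) - b0
      · have hpl : ¬ (p : ℤ) ∣ (b : ℤ) + b0 := by
          intro h
          have h1 : (p : ℤ) ∣ 2 * (b0 : ℤ) := by
            have := dvd_sub h hm
            have he : (b : ℤ) + b0 - ((b : ℤ) - b0) = 2 * b0 := by ring
            rwa [he] at this
          rcases hpZ.dvd_or_dvd h1 with h2 | h2
          · have : p ∣ 2 := by exact_mod_cast h2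
            exact hp2 ((Nat.prime_dvd_prime_iff_eq hp Nat.prime_two).mp this)
          · exact hnb0 h2
        have hco : IsCoprime ((p : ℤ) ^ 2) ((b : ℤ) + b0) :=
          IsCoprime.pow_left ((Prime.coprime_iff_not_dvd hpZ).mpr hpl)
        have h1 : (p : ℤ) ^ 2 ∣ (b : ℤ) - b0 := hco.dvd_of_dvd_mul_right hd
        left
        have h2 : |(b : ℤ) - b0| < (p : ℤ) ^ 2 := by
          have e1 : (b : ℤ) < (p : ℤ) ^ 2 := by exact_mod_cast hbl
          have e2 : (b0 : ℤ) < (p : ℤ) ^ 2 := by exact_mod_cast hb0l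
          rw [abs_lt]; constructor <;> omega
        have h3 := Int.eq_zero_of_abs_lt_dvd h1 h2
        omega
      · have hco : IsCoprime ((p : ℤ) ^ 2) ((b : ℤ) - b0) :=
          IsCoprime.pow_left ((Prime.coprime_iff_not_dvd hpZ).mpr hm)
        have h1 : (p : ℤ) ^ 2 ∣ (b : ℤ) + b0 := hco.dvd_of_dvd_mul_left hd
        have h1' : p ^ 2 ∣ b + b0 := by exact_mod_cast h1
        obtain ⟨k, hk⟩ := h1'
        have hk2 : k < 2 := by
          by_contra hk2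
          push Not at hk2
          have : p ^ 2 * 2 ≤ p ^ 2 * k := Nat.mul_le_mul_left _ hk2
          omega
        interval_cases k
        · left; omega
        · right; omega
    calc _ ≤ ({b0, p ^ 2 - b0} : Finset ℕ).card := Finset.card_le_card hsub
      _ ≤ 2 := Finset.card_le_two

theorem zf_row' (p : ℕ) (hp : p.Prime) (a : ℤ) (ha : (p : ℤ) ∣ a) :
    ((Finset.range (p ^ 2)).filter
      (fun b : ℕ => ((p ^ 2 : ℕ) : ℤ) ∣ a ^ 2 + (b : ℤ) ^ 2 - 0)).card ≤ p := by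
  have hpZ : Prime (p : ℤ) := Nat.prime_iff_prime_int.mp hp
  refine le_trans (Finset.card_le_card ?_) (zf_mult p hp)
  intro b hb
  rw [Finset.mem_filter] at hb ⊢
  refine ⟨hb.1, ?_⟩
  have hpow : ((p ^ 2 : ℕ) : ℤ) = (p : ℤ) ^ 2 := by push_cast; ring
  have h0 := hb.2
  rw [hpow, sub_zero] at h0
  have h1 : (p : ℤ) ∣ a ^ 2 + (b : ℤ) ^ 2 := dvd_trans (Dvd.intro_left ((p : ℤ) ^ 1) (by ring)) h0
  have h2 : (p : ℤ) ∣ a ^ 2 := dvd_pow ha two_ne_zero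
  have h3 : (p : ℤ) ∣ (b : ℤ) ^ 2 := (dvd_add_right h2).mp h1
  have h4 := hpZ.dvd_of_dvd_pow h3
  exact_mod_cast h4

theorem zf_sum (p : ℕ) (a : ℤ) :
    ∑ b ∈ Finset.range (p ^ 2), sqi (p ^ 2) 0 a (b : ℤ) =
      (((Finset.range (p ^ 2)).filter
      (fun b : ℕ => ((p ^ 2 : ℕ) : ℤ) ∣ a ^ 2 + (b : ℤ) ^ 2 - 0)).card : ℝ) := by
  unfold sqi
  rw [Finset.card_filter]
  push_cast
  rfl

/-- block `zf`: `p² ∣ s² + t²`: at most `3 p²` pairs modulo `p²` (if `p ∤ s` at most two `t`;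
otherwise `p ∣ s` and `p ∣ t`) -/
theorem av_sqi_sq_pr {p : ℕ} (hp : p.Prime) : av (p ^ 2) (sqi (p ^ 2) 0) ≤ 3 / (p : ℝ) ^ 2 := by
  have hp0 : (0 : ℝ) < p := by exact_mod_cast hp.pos
  have hrow : ∀ a ∈ Finset.range (p ^ 2), ∑ b ∈ Finset.range (p ^ 2), sqi (p ^ 2) 0 (a : ℤ) (b : ℤ) ≤
      2 + (if p ∣ a then (p : ℝ) else 0) := by
    intro a _
    rw [zf_sum]
    by_cases ha : p ∣ a
    · rw [if_pos ha]
      have := zf_row' p hp (a : ℤ) (by exact_mod_cast ha)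
      have h2 : (((Finset.range (p ^ 2)).filter
      (fun b : ℕ => ((p ^ 2 : ℕ) : ℤ) ∣ (a : ℤ) ^ 2 + (b : ℤ) ^ 2 - 0)).card : ℝ) ≤ p := by exact_mod_cast this
      linarith
    · rw [if_neg ha, add_zero]
      have := zf_row p hp (a : ℤ) (by exact_mod_cast ha)
      exact_mod_cast this
  have hsum : ∑ a ∈ Finset.range (p ^ 2), ∑ b ∈ Finset.range (p ^ 2), sqi (p ^ 2) 0 (a : ℤ) (b : ℤ) ≤
      3 * (p : ℝ) ^ 2 := by
    refine le_trans (Finset.sum_le_sum hrow) ?_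
    rw [Finset.sum_add_distrib, Finset.sum_const, Finset.card_range, ← Finset.sum_filter,
      Finset.sum_const, nsmul_eq_mul, nsmul_eq_mul]
    have := zf_mult p hp
    have h2 : (((Finset.range (p ^ 2)).filter (fun b : ℕ => p ∣ b)).card : ℝ) ≤ p := by exact_mod_cast this
    have h3 := mul_le_mul_of_nonneg_right h2 hp0.le
    push_cast
    nlinarith
  unfold av
  have hpp : (0 : ℝ) < ((p ^ 2 : ℕ) : ℝ) ^ 2 := by push_cast; positivity
  rw [div_le_div_iff₀ hpp (by positivity)]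
  push_cast
  calc _ ≤ (3 * (p : ℝ) ^ 2) * (p : ℝ) ^ 2 := mul_le_mul_of_nonneg_right (by exact_mod_cast hsum) (by positivity)
    _ = 3 * ((p : ℝ) ^ 2) ^ 2 := by ring

theorem av_sqi_sq : type_of% @av_sqi_sq_pr := @av_sqi_sq_pr

end Pool.Agent.PENT
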