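import Mathlib
import Pool.Agent.Lib_helper8.PENT.ZDefs

/-! Block zg (project PENT). -/

set_option autoImplicit false

namespace Pool.Agent.PENT

theorem zg_sqrt_card {p : ℕ} [Fact p.Prime] (c : ZMod p) :
    (Finset.univ.filter (fun t : ZMod p => t ^ 2 = c)).card ≤ 2 := by
  by_cases h : ∃ t0 : ZMod p, t0 ^ 2 = c
  · obtain ⟨t0, ht0⟩ := h
    have : Finset.univ.filter (fun t : ZMod p => t ^ 2 = c) ⊆ {t0, -t0} := by
      intro t ht
      rw [Finset.mem_filter] at ht
      have h1 : t ^ 2 = t0 ^ 2 := by rw [ht.2, ht0]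
      rcases sq_eq_sq_iff_eq_or_eq_neg.1 h1 with h2 | h2
      · rw [h2]; simp
      · rw [h2]; simp
    exact (Finset.card_le_card this).trans Finset.card_le_two
  · have : Finset.univ.filter (fun t : ZMod p => t ^ 2 = c) = ∅ := by
      rw [Finset.filter_eq_empty_iff]
      intro t _ ht
      exact h ⟨t, ht⟩
    rw [this]; simp

theorem zg_zero {p : ℕ} [Fact p.Prime] :
    (Finset.univ.filter (fun z : ZMod p × ZMod p => z.1 ^ 2 + z.2 ^ 2 = 0)).card ≤
      1 + (p - 1) * 2 := by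
  classical
  have h1 : Finset.univ.filter (fun z : ZMod p × ZMod p => z.1 ^ 2 + z.2 ^ 2 = 0) ⊆
      insert (0, 0) ((Finset.univ.filter (fun z : ZMod p × ZMod p => z.1 ^ 2 + z.2 ^ 2 = 0)).filter
        (fun z => z.1 ≠ 0)) := by
    intro z hz
    rw [Finset.mem_insert]
    by_cases h : z.1 = 0
    · left
      rw [Finset.mem_filter] at hz
      have h2 := hz.2
      rw [h] at h2
      have h3 : z.2 = 0 := by
        have : z.2 ^ 2 = 0 := by simpa using h2
        exact pow_eq_zero_iff (by norm_num) |>.1 this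
      exact Prod.ext h h3
    · right
      exact Finset.mem_filter.2 ⟨hz, h⟩
  refine (Finset.card_le_card h1).trans ((Finset.card_insert_le _ _).trans ?_)
  rw [add_comm]
  apply Nat.add_le_add_left
  have h2 : ((Finset.univ.filter (fun z : ZMod p × ZMod p => z.1 ^ 2 + z.2 ^ 2 = 0)).filter
        (fun z => z.1 ≠ 0)).card ≤
      ((Finset.univ.erase (0 : ZMod p)) ×ˢ
        (Finset.univ.filter (fun t : ZMod p => t ^ 2 = -1))).card := by
    apply Finset.card_le_card_of_injOn (fun z => (z.1, z.2 / z.1))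
    · intro z hz
      rw [Finset.mem_coe, Finset.mem_filter, Finset.mem_filter] at hz
      obtain ⟨⟨_, h3⟩, h4⟩ := hz
      rw [Finset.mem_coe, Finset.mem_product, Finset.mem_erase, Finset.mem_filter]
      refine ⟨⟨h4, Finset.mem_univ _⟩, Finset.mem_univ _, ?_⟩
      simp only
      field_simp
      linear_combination h3
    · intro z hz z' hz' h
      rw [Finset.mem_coe, Finset.mem_filter] at hz hz'
      have h' : ((z.1, z.2 / z.1) : ZMod p × ZMod p) = (z'.1, z'.2 / z'.1) := h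
      have h3 : z.1 = z'.1 := (Prod.ext_iff.1 h').1
      have h4 : z.2 / z.1 = z'.2 / z'.1 := (Prod.ext_iff.1 h').2
      rw [← h3] at h4
      have h5 : z.2 = z'.2 := (div_left_inj' hz.2).1 h4
      exact Prod.ext h3 h5
  refine h2.trans ?_
  rw [Finset.card_product]
  have h3 : (Finset.univ.erase (0 : ZMod p)).card = p - 1 := by
    rw [Finset.card_erase_of_mem (Finset.mem_univ _), Finset.card_univ, ZMod.card]
  rw [h3]
  exact Nat.mul_le_mul_left _ (zg_sqrt_card _)

theorem zg_le {p : ℕ} [Fact p.Prime] (r r' : ZMod p) (hr : r ≠ 0) (hr' : r' ≠ 0) :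
    (Finset.univ.filter (fun z : ZMod p × ZMod p => z.1 ^ 2 + z.2 ^ 2 = r)).card ≤
    (Finset.univ.filter (fun z : ZMod p × ZMod p => z.1 ^ 2 + z.2 ^ 2 = r')).card := by
  obtain ⟨a, b, hab⟩ := ZMod.sq_add_sq p (r' / r)
  have hab0 : a ^ 2 + b ^ 2 ≠ 0 := by
    rw [hab]; exact div_ne_zero hr' hr
  apply Finset.card_le_card_of_injOn (fun z => (a * z.1 - b * z.2, a * z.2 + b * z.1))
  · intro z hz
    rw [Finset.mem_coe, Finset.mem_filter] at hz ⊢
    refine ⟨Finset.mem_univ _, ?_⟩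
    simp only
    have : (a * z.1 - b * z.2) ^ 2 + (a * z.2 + b * z.1) ^ 2 =
        (a ^ 2 + b ^ 2) * (z.1 ^ 2 + z.2 ^ 2) := by ring
    rw [this, hab, hz.2]
    field_simp
  · intro z _ z' _ h
    have h' : ((a * z.1 - b * z.2, a * z.2 + b * z.1) : ZMod p × ZMod p) =
      (a * z'.1 - b * z'.2, a * z'.2 + b * z'.1) := h
    have h1 : a * z.1 - b * z.2 = a * z'.1 - b * z'.2 := (Prod.ext_iff.1 h').1
    have h2 : a * z.2 + b * z.1 = a * z'.2 + b * z'.1 := (Prod.ext_iff.1 h').2
    have h3 : (a ^ 2 + b ^ 2) * (z.1 - z'.1) = 0 := by linear_combination a * h1 + b * h2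
    have h4 : (a ^ 2 + b ^ 2) * (z.2 - z'.2) = 0 := by linear_combination a * h2 - b * h1
    have h5 := (mul_eq_zero.1 h3).resolve_left hab0
    have h6 := (mul_eq_zero.1 h4).resolve_left hab0
    exact Prod.ext (sub_eq_zero.1 h5) (sub_eq_zero.1 h6)

/-- block `zg`: for a prime `p ≠ 2` and `r ≠ 0` there are at least `p - 1` solutions of
`s² + t² = r` in `ZMod p` -/
theorem card_sq_prime_pr {p : ℕ} [Fact p.Prime] (r : ZMod p) (hr : r ≠ 0) :
    p - 1 ≤ (Finset.univ.filter (fun z : ZMod p × ZMod p => z.1 ^ 2 + z.2 ^ 2 = r)).card := by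
  classical
  set N : ZMod p → ℕ := fun r =>
    (Finset.univ.filter (fun z : ZMod p × ZMod p => z.1 ^ 2 + z.2 ^ 2 = r)).card with hN
  have hsum : (Finset.univ : Finset (ZMod p × ZMod p)).card = ∑ r' : ZMod p, N r' :=
    Finset.card_eq_sum_card_fiberwise (f := fun z : ZMod p × ZMod p => z.1 ^ 2 + z.2 ^ 2)
      (t := Finset.univ) (by intro x _; simp)
  rw [Finset.card_univ, Fintype.card_prod, ZMod.card] at hsum
  have h1 : ∑ r' : ZMod p, N r' = N 0 + ∑ r' ∈ Finset.univ.erase (0 : ZMod p), N r' :=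
    (Finset.add_sum_erase _ _ (Finset.mem_univ _)).symm
  have h2 : ∑ r' ∈ Finset.univ.erase (0 : ZMod p), N r' ≤ (p - 1) * N r := by
    calc ∑ r' ∈ Finset.univ.erase (0 : ZMod p), N r' ≤
          ∑ _r' ∈ Finset.univ.erase (0 : ZMod p), N r := by
          apply Finset.sum_le_sum
          intro r' hr'
          exact zg_le r' r (Finset.ne_of_mem_erase hr') hr
      _ = (p - 1) * N r := by
          rw [Finset.sum_const, Finset.card_erase_of_mem (Finset.mem_univ _), Finset.card_univ,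
            ZMod.card, smul_eq_mul]
  have h3 : N 0 ≤ 1 + (p - 1) * 2 := zg_zero
  have hp : 2 ≤ p := (Fact.out : p.Prime).two_le
  obtain ⟨k, rfl⟩ : ∃ k, p = k + 1 := ⟨p - 1, by omega⟩
  have hk : 1 ≤ k := by omega
  simp only [Nat.add_sub_cancel] at h2 h3 ⊢
  change k ≤ N r
  have h4 : k * k ≤ k * N r := by nlinarith
  exact Nat.le_of_mul_le_mul_left h4 (by omega)

theorem card_sq_prime : type_of% @card_sq_prime_pr := @card_sq_prime_pr

end Pool.Agent.PENT
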