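import Mathlib
import Pool.Agent.Lib_helper8.PENT.ZDefs
import Pool.Agent.Lib_helper8.PENT.B.zg

set_option autoImplicit false

namespace Pool.Agent.PENT

/-- square roots modulo prime powers -/
theorem zh_root {p : ℕ} (hp : p.Prime) (h2 : p ≠ 2) (k : ℕ) (s A : ℤ) (hs : ¬ (p : ℤ) ∣ s)
    (hA : (p : ℤ) ∣ s ^ 2 - A) :
    ∃ x : ℤ, ((p ^ (k + 1) : ℕ) : ℤ) ∣ x ^ 2 - A ∧ (p : ℤ) ∣ x - s := by
  have hpi : Prime (p : ℤ) := Nat.prime_iff_prime_int.mp hp
  have hodd : Odd (p ^ k) := (hp.odd_of_ne_two h2).pow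
  obtain ⟨e, he⟩ := hodd
  have hcop : IsCoprime (s ^ 2) ((p : ℤ) ^ (k + 1)) := by
    have h1 : IsCoprime (p : ℤ) s := (Prime.coprime_iff_not_dvd hpi).mpr hs
    exact (h1.symm.pow_left).pow_right
  obtain ⟨v, w, hvw⟩ := hcop
  have hN : ((p : ℤ) ^ (k + 1)) ∣ s ^ 2 * v - 1 := ⟨-w, by linear_combination hvw⟩
  have hpN : (p : ℤ) ∣ (p : ℤ) ^ (k + 1) := dvd_pow_self _ (Nat.succ_ne_zero k)
  set u : ℤ := A * v with hu
  have hu1 : (p : ℤ) ∣ u - 1 := by
    have h1 : (p : ℤ) ∣ s ^ 2 * v - 1 := hpN.trans hN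
    have h2' : (p : ℤ) ∣ (s ^ 2 - A) * v := hA.mul_right v
    have h3 := dvd_sub h1 h2'
    have h4 : s ^ 2 * v - 1 - (s ^ 2 - A) * v = u - 1 := by rw [hu]; ring
    rwa [h4] at h3
  have hpow : ((p : ℤ) ^ (k + 1)) ∣ u ^ (p ^ k) - 1 := by
    have := dvd_sub_pow_of_dvd_sub hu1 k
    rwa [one_pow] at this
  refine ⟨s * u ^ (e + 1), ?_, ?_⟩
  · push_cast
    have h1 : ((p : ℤ) ^ (k + 1)) ∣ s ^ 2 * u * (u ^ (p ^ k) - 1) := hpow.mul_left _
    have h3 : ((p : ℤ) ^ (k + 1)) ∣ A * (s ^ 2 * v - 1) := hN.mul_left _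
    have h4 := dvd_add h1 h3
    have h5 : s ^ 2 * u * (u ^ (p ^ k) - 1) + A * (s ^ 2 * v - 1) = (s * u ^ (e + 1)) ^ 2 - A := by
      have h6 : A * (s ^ 2 * v - 1) = s ^ 2 * u - A := by rw [hu]; ring
      rw [h6, he]
      ring
    rwa [h5] at h4
  · have h1 : u - 1 ∣ u ^ (e + 1) - 1 := by
      have := sub_dvd_pow_sub_pow u 1 (e + 1)
      rwa [one_pow] at this
    have h2' := (hu1.trans h1).mul_left s
    have h3 : s * (u ^ (e + 1) - 1) = s * u ^ (e + 1) - s := by ring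
    rwa [h3] at h2'

/-- the solutions -/
noncomputable def zh_S (m : ℕ) (r : ℤ) : Finset (ℕ × ℕ) :=
  (Finset.range m ×ˢ Finset.range m).filter
    (fun z => (m : ℤ) ∣ (z.1 : ℤ) ^ 2 + (z.2 : ℤ) ^ 2 - r)

theorem zh_sum (m : ℕ) (r : ℤ) :
    ∑ a ∈ Finset.range m, ∑ b ∈ Finset.range m, sqi m r (a : ℤ) (b : ℤ) =
      ((zh_S m r).card : ℝ) := by
  unfold sqi zh_S
  rw [← Finset.sum_product', Finset.card_filter]
  push_cast
  rfl

theorem zh_prime {p : ℕ} (hp : p.Prime) (r : ℤ) (hr : ¬ (p : ℤ) ∣ r) :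
    p - 1 ≤ (zh_S p r).card := by
  classical
  have : Fact p.Prime := ⟨hp⟩
  have hr' : (r : ZMod p) ≠ 0 := by
    intro h
    exact hr ((ZMod.intCast_zmod_eq_zero_iff_dvd r p).mp h)
  refine le_trans (card_sq_prime (r : ZMod p) hr') ?_
  apply Finset.card_le_card_of_injOn (fun z : ZMod p × ZMod p => (z.1.val, z.2.val))
  · intro z hz
    rw [Finset.mem_coe, Finset.mem_filter] at hz
    rw [Finset.mem_coe]
    unfold zh_S
    rw [Finset.mem_filter, Finset.mem_product, Finset.mem_range, Finset.mem_range]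
    refine ⟨⟨ZMod.val_lt _, ZMod.val_lt _⟩, ?_⟩
    rw [← ZMod.intCast_zmod_eq_zero_iff_dvd]
    push_cast
    rw [ZMod.natCast_zmod_val, ZMod.natCast_zmod_val, hz.2, sub_self]
  · intro z _ z' _ h
    have h1 := (Prod.ext_iff.mp h).1
    have h3 := (Prod.ext_iff.mp h).2
    exact Prod.ext (ZMod.val_injective p h1) (ZMod.val_injective p h3)

/-- root as a residue -/
theorem zh_root' {p : ℕ} (hp : p.Prime) (h2 : p ≠ 2) (k : ℕ) (s : ℕ) (A : ℤ) (hsp : s < p)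
    (hs : s ≠ 0) (hA : (p : ℤ) ∣ (s : ℤ) ^ 2 - A) :
    ∃ x : ℕ, x < p ^ (k + 1) ∧ ((p ^ (k + 1) : ℕ) : ℤ) ∣ (x : ℤ) ^ 2 - A ∧ x % p = s := by
  have hs' : ¬ (p : ℤ) ∣ (s : ℤ) := by
    intro h
    have h1 : p ∣ s := by exact_mod_cast h
    exact absurd (Nat.le_of_dvd (Nat.pos_of_ne_zero hs) h1) (not_le.mpr hsp)
  obtain ⟨x, hx1, hx2⟩ := zh_root hp h2 k (s : ℤ) A hs' hA
  set N : ℕ := p ^ (k + 1) with hN
  have hNpos : 0 < N := by rw [hN]; exact pow_pos hp.pos _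
  have hNz : (N : ℤ) ≠ 0 := by exact_mod_cast hNpos.ne'
  have hpN : (p : ℤ) ∣ (N : ℤ) := by
    rw [hN]
    push_cast
    exact dvd_pow_self _ (Nat.succ_ne_zero k)
  have h0 : 0 ≤ x % (N : ℤ) := Int.emod_nonneg _ hNz
  have hlt : x % (N : ℤ) < N := Int.emod_lt_of_pos _ (by exact_mod_cast hNpos)
  have hcast : (((x % (N : ℤ)).toNat : ℕ) : ℤ) = x % (N : ℤ) := Int.toNat_of_nonneg h0
  have hd : (N : ℤ) ∣ x % (N : ℤ) - x := by
    rw [← Int.modEq_iff_dvd]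
    exact (Int.mod_modEq x N).symm
  refine ⟨(x % (N : ℤ)).toNat, ?_, ?_, ?_⟩
  · have : (((x % (N : ℤ)).toNat : ℕ) : ℤ) < N := by rw [hcast]; exact hlt
    exact_mod_cast this
  · rw [hcast]
    have h1 : (N : ℤ) ∣ (x % (N : ℤ) - x) * (x % (N : ℤ) + x) := hd.mul_right _
    have h3 := dvd_add h1 hx1
    have h4 : (x % (N : ℤ) - x) * (x % (N : ℤ) + x) + (x ^ 2 - A) = (x % (N : ℤ)) ^ 2 - A := by
      ring
    rwa [h4] at h3
  · have h1 : (p : ℤ) ∣ ((x % (N : ℤ)).toNat : ℤ) - (s : ℤ) := by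
      rw [hcast]
      have h3 := dvd_add (hpN.trans hd) hx2
      have h4 : x % (N : ℤ) - x + (x - (s : ℤ)) = x % (N : ℤ) - (s : ℤ) := by ring
      rwa [h4] at h3
    have h5 : s ≡ (x % (N : ℤ)).toNat [MOD p] := (Nat.modEq_iff_dvd).mpr h1
    have h6 : (x % (N : ℤ)).toNat % p = s % p := h5.symm
    rw [h6, Nat.mod_eq_of_lt hsp]

theorem zh_fib {p : ℕ} (hp : p.Prime) (h2 : p ≠ 2) (k : ℕ) (r : ℤ) (hr : ¬ (p : ℤ) ∣ r)
    (z : ℕ × ℕ) (hz : z ∈ zh_S p r) :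
    p ^ k ≤ ((zh_S (p ^ (k + 1)) r).filter (fun w => (w.1 % p, w.2 % p) = z)).card := by
  classical
  unfold zh_S at hz
  rw [Finset.mem_filter, Finset.mem_product, Finset.mem_range, Finset.mem_range] at hz
  obtain ⟨⟨hz1, hz2⟩, hz3⟩ := hz
  have hlt : ∀ c : ℕ, c < p → ∀ j : ℕ, j < p ^ k → c + p * j < p ^ (k + 1) := by
    intro c hc j hj
    have h1 : p * j + p ≤ p * p ^ k := by
      have : p * (j + 1) ≤ p * p ^ k := Nat.mul_le_mul_left p hj
      linarith [this, Nat.mul_succ p j]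
    rw [pow_succ, Nat.mul_comm (p ^ k) p]
    omega
  by_cases h0 : z.1 = 0
  · -- then `z.2` is not zero
    have h20 : z.2 ≠ 0 := by
      intro h
      apply hr
      rw [h0, h] at hz3
      simpa using hz3
    have hex : ∀ j : ℕ, ∃ x : ℕ, x < p ^ (k + 1) ∧
        ((p ^ (k + 1) : ℕ) : ℤ) ∣ (x : ℤ) ^ 2 - (r - ((z.1 + p * j : ℕ) : ℤ) ^ 2) ∧
          x % p = z.2 := by
      intro j
      apply zh_root' hp h2 k z.2 _ hz2 h20
      have h3 : (p : ℤ) ∣ (p : ℤ) * ((j : ℤ) * (2 * (z.1 : ℤ) + p * j)) := dvd_mul_right _ _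
      have h4 := dvd_add hz3 h3
      have h5 : (z.1 : ℤ) ^ 2 + (z.2 : ℤ) ^ 2 - r + (p : ℤ) * ((j : ℤ) * (2 * (z.1 : ℤ) + p * j)) =
          (z.2 : ℤ) ^ 2 - (r - ((z.1 + p * j : ℕ) : ℤ) ^ 2) := by
        push_cast
        ring
      rwa [h5] at h4
    choose g hg1 hg2 hg3 using hex
    have hc : (Finset.range (p ^ k)).card ≤
        ((zh_S (p ^ (k + 1)) r).filter (fun w => (w.1 % p, w.2 % p) = z)).card := by
      apply Finset.card_le_card_of_injOn (fun j => (z.1 + p * j, g j))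
      · intro j hj
        rw [Finset.mem_coe, Finset.mem_range] at hj
        rw [Finset.mem_coe, Finset.mem_filter]
        unfold zh_S
        rw [Finset.mem_filter, Finset.mem_product, Finset.mem_range, Finset.mem_range]
        refine ⟨⟨⟨hlt z.1 hz1 j hj, hg1 j⟩, ?_⟩, ?_⟩
        · have := hg2 j
          have h5 : ((g j : ℕ) : ℤ) ^ 2 - (r - ((z.1 + p * j : ℕ) : ℤ) ^ 2) =
              ((z.1 + p * j : ℕ) : ℤ) ^ 2 + ((g j : ℕ) : ℤ) ^ 2 - r := by ring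
          rwa [h5] at this
        · apply Prod.ext
          · show (z.1 + p * j) % p = z.1
            rw [Nat.add_mul_mod_self_left, Nat.mod_eq_of_lt hz1]
          · exact hg3 j
      · intro j _ j' _ h
        have h1 : z.1 + p * j = z.1 + p * j' := (Prod.ext_iff.mp h).1
        exact Nat.eq_of_mul_eq_mul_left hp.pos (Nat.add_left_cancel h1)
    rwa [Finset.card_range] at hc
  · have hex : ∀ j : ℕ, ∃ x : ℕ, x < p ^ (k + 1) ∧
        ((p ^ (k + 1) : ℕ) : ℤ) ∣ (x : ℤ) ^ 2 - (r - ((z.2 + p * j : ℕ) : ℤ) ^ 2) ∧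
          x % p = z.1 := by
      intro j
      apply zh_root' hp h2 k z.1 _ hz1 h0
      have h3 : (p : ℤ) ∣ (p : ℤ) * ((j : ℤ) * (2 * (z.2 : ℤ) + p * j)) := dvd_mul_right _ _
      have h4 := dvd_add hz3 h3
      have h5 : (z.1 : ℤ) ^ 2 + (z.2 : ℤ) ^ 2 - r + (p : ℤ) * ((j : ℤ) * (2 * (z.2 : ℤ) + p * j)) =
          (z.1 : ℤ) ^ 2 - (r - ((z.2 + p * j : ℕ) : ℤ) ^ 2) := by
        push_cast
        ring
      rwa [h5] at h4
    choose g hg1 hg2 hg3 using hex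
    have hc : (Finset.range (p ^ k)).card ≤
        ((zh_S (p ^ (k + 1)) r).filter (fun w => (w.1 % p, w.2 % p) = z)).card := by
      apply Finset.card_le_card_of_injOn (fun j => (g j, z.2 + p * j))
      · intro j hj
        rw [Finset.mem_coe, Finset.mem_range] at hj
        rw [Finset.mem_coe, Finset.mem_filter]
        unfold zh_S
        rw [Finset.mem_filter, Finset.mem_product, Finset.mem_range, Finset.mem_range]
        refine ⟨⟨⟨hg1 j, hlt z.2 hz2 j hj⟩, ?_⟩, ?_⟩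
        · have := hg2 j
          have h5 : ((g j : ℕ) : ℤ) ^ 2 - (r - ((z.2 + p * j : ℕ) : ℤ) ^ 2) =
              ((g j : ℕ) : ℤ) ^ 2 + ((z.2 + p * j : ℕ) : ℤ) ^ 2 - r := by ring
          rwa [h5] at this
        · apply Prod.ext
          · exact hg3 j
          · show (z.2 + p * j) % p = z.2
            rw [Nat.add_mul_mod_self_left, Nat.mod_eq_of_lt hz2]
      · intro j _ j' _ h
        have h1 : z.2 + p * j = z.2 + p * j' := (Prod.ext_iff.mp h).2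
        exact Nat.eq_of_mul_eq_mul_left hp.pos (Nat.add_left_cancel h1)
    rwa [Finset.card_range] at hc

theorem card_sq_pow_pr {p : ℕ} (hp : p.Prime) (h2 : p ≠ 2) (k : ℕ) (r : ℤ)
    (hr : ¬ (p : ℤ) ∣ r) :
    ((p ^ (k + 1)).totient : ℝ) ≤
      ∑ a ∈ Finset.range (p ^ (k + 1)), ∑ b ∈ Finset.range (p ^ (k + 1)),
        sqi (p ^ (k + 1)) r (a : ℤ) (b : ℤ) := by
  classical
  rw [zh_sum]
  have h1 := zh_prime hp r hr
  have hfib : (zh_S p r).card * p ^ k ≤ (zh_S (p ^ (k + 1)) r).card := by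
    have hs : ∑ z ∈ zh_S p r,
        ((zh_S (p ^ (k + 1)) r).filter (fun w => (w.1 % p, w.2 % p) = z)).card ≤
        (zh_S (p ^ (k + 1)) r).card := by
      rw [← Finset.card_biUnion]
      · apply Finset.card_le_card
        intro w hw
        rw [Finset.mem_biUnion] at hw
        obtain ⟨z, _, hz⟩ := hw
        exact (Finset.mem_filter.mp hz).1
      · intro z _ z' _ hzz
        rw [Function.onFun, Finset.disjoint_left]
        intro w hw hw'
        rw [Finset.mem_filter] at hw hw'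
        exact hzz (hw.2.symm.trans hw'.2)
    refine le_trans ?_ hs
    rw [← smul_eq_mul]
    exact Finset.card_nsmul_le_sum _ _ _ (fun z hz => zh_fib hp h2 k r hr z hz)
  have h3 : (p ^ (k + 1)).totient = p ^ k * (p - 1) := Nat.totient_prime_pow_succ hp k
  have h4 : p ^ k * (p - 1) ≤ (zh_S (p ^ (k + 1)) r).card := by
    refine le_trans ?_ hfib
    rw [Nat.mul_comm]
    exact Nat.mul_le_mul_right _ h1
  rw [h3]
  exact_mod_cast h4

theorem card_sq_pow : type_of% @card_sq_pow_pr := @card_sq_pow_pr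

end Pool.Agent.PENT
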