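import Mathlib
import Pool.Agent.Lib_helper8.PENT.ZDefs
import Pool.Agent.Lib_helper8.PENT.B.zh
import Pool.Agent.Lib_helper8.PENT.B.za

/-! Block zi (project PENT). -/

set_option autoImplicit false

namespace Pool.Agent.PENT

theorem zi_per (m : ℕ) (r : ℤ) : Per m (sqi m r) := by
  intro s t s' t' hs ht
  have h1 : (m : ℤ) ∣ (s ^ 2 + t ^ 2 - r) - (s' ^ 2 + t' ^ 2 - r) := by
    have : (s ^ 2 + t ^ 2 - r) - (s' ^ 2 + t' ^ 2 - r) = (s - s') * (s + s') + (t - t') * (t + t') := by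
      ring
    rw [this]
    exact dvd_add (Dvd.dvd.mul_right hs _) (Dvd.dvd.mul_right ht _)
  unfold sqi
  have h2 : (m : ℤ) ∣ s ^ 2 + t ^ 2 - r ↔ (m : ℤ) ∣ s' ^ 2 + t' ^ 2 - r := (dvd_iff_dvd_of_dvd_sub h1)
  simp only [h2]

theorem zi_mul {a b : ℕ} (hab : Nat.Coprime a b) (r s t : ℤ) :
    sqi (a * b) r s t = sqi a r s t * sqi b r s t := by
  unfold sqi
  have hc : IsCoprime (a : ℤ) (b : ℤ) := Nat.isCoprime_iff_coprime.2 hab
  by_cases h1 : (a : ℤ) ∣ s ^ 2 + t ^ 2 - r
  · by_cases h2 : (b : ℤ) ∣ s ^ 2 + t ^ 2 - r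
    · have h3 : ((a * b : ℕ) : ℤ) ∣ s ^ 2 + t ^ 2 - r := by
        push_cast
        exact hc.mul_dvd h1 h2
      rw [if_pos h1, if_pos h2, if_pos h3]; norm_num
    · have h3 : ¬ ((a * b : ℕ) : ℤ) ∣ s ^ 2 + t ^ 2 - r := by
        intro h
        apply h2
        push_cast at h
        exact (Dvd.intro_left _ rfl).trans h
      rw [if_neg h2, if_neg h3]; norm_num
  · have h3 : ¬ ((a * b : ℕ) : ℤ) ∣ s ^ 2 + t ^ 2 - r := by
      intro h
      apply h1
      push_cast at h
      exact (Dvd.intro _ rfl).trans h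
    rw [if_neg h1, if_neg h3]; norm_num

/-- block `zi`: all odd `q` -/
theorem av_sqi_ge_pr {q : ℕ} (hq : Odd q) (r : ℤ) (hr : IsCoprime r (q : ℤ)) :
    (q.totient : ℝ) / (q : ℝ) ^ 2 ≤ av q (sqi q r) := by
  revert hq hr
  induction q using Nat.recOnPosPrimePosCoprime with
  | prime_pow p n hp hn =>
    intro hq hr
    have h2 : p ≠ 2 := by
      rintro rfl
      have := (Nat.odd_pow_iff (by omega)).1 hq
      revert this; decide
    obtain ⟨k, rfl⟩ : ∃ k, n = k + 1 := ⟨n - 1, by omega⟩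
    have hrp : ¬ (p : ℤ) ∣ r := by
      intro hd
      have h3 : IsCoprime r ((p : ℤ) ^ (k + 1)) := by exact_mod_cast hr
      have h4 : IsCoprime r (p : ℤ) := (IsCoprime.pow_right_iff (by omega)).1 h3
      have h5 : IsUnit (p : ℤ) := h4.isUnit_of_dvd' hd (dvd_refl _)
      rw [Int.isUnit_iff] at h5
      have := hp.two_le
      omega
    have h := card_sq_pow hp h2 k r hrp
    unfold av
    have h0 : (0:ℝ) < ((p ^ (k + 1) : ℕ) : ℝ) := by exact_mod_cast pow_pos hp.pos _
    exact div_le_div_of_nonneg_right h (by positivity)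
  | zero => intro hq; exact absurd hq (by decide)
  | one =>
    intro _ _
    unfold av sqi
    simp
  | coprime a b ha hb hab iha ihb =>
    intro hq hr
    rw [Nat.odd_mul] at hq
    have hr' : IsCoprime r ((a : ℤ) * (b : ℤ)) := by exact_mod_cast hr
    have h1 := iha hq.1 (IsCoprime.of_mul_right_left hr')
    have h2 := ihb hq.2 (IsCoprime.of_mul_right_right hr')
    have h3 : av (a * b) (sqi (a * b) r) = av a (sqi a r) * av b (sqi b r) := by
      rw [← av_mul (by omega) (by omega) hab (zi_per a r) (zi_per b r)]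
      congr 1
      funext s t
      exact zi_mul hab r s t
    rw [h3, Nat.totient_mul hab]
    have ha0 : (0:ℝ) < (a : ℝ) := by exact_mod_cast (by omega : 0 < a)
    have hb0 : (0:ℝ) < (b : ℝ) := by exact_mod_cast (by omega : 0 < b)
    have h4 : ((a.totient * b.totient : ℕ) : ℝ) / ((a * b : ℕ) : ℝ) ^ 2 =
        ((a.totient : ℝ) / (a : ℝ) ^ 2) * ((b.totient : ℝ) / (b : ℝ) ^ 2) := by
      push_cast
      field_simp
    rw [h4]
    exact mul_le_mul h1 h2 (by positivity) (le_trans (by positivity) h1)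

theorem av_sqi_ge : type_of% @av_sqi_ge_pr := @av_sqi_ge_pr

end Pool.Agent.PENT
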