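import Pool.Agent.Lib_helper8.PENT.ZDefs

set_option autoImplicit false

namespace Pool.Agent.PENT

theorem zj_dvd_of_primes {d : ℕ} (hd : Squarefree d) {n : ℤ}
    (h : ∀ p ∈ d.primeFactors, (p : ℤ) ∣ n) : (d : ℤ) ∣ n := by
  have h1 : (∏ p ∈ d.primeFactors, p) ∣ n.natAbs := by
    apply Finset.prod_primes_dvd
    · intro p hp
      exact (Nat.prime_of_mem_primeFactors hp).prime
    · intro p hp
      exact Int.natCast_dvd.1 (h p hp)
  rw [Nat.prod_primeFactors_of_squarefree hd] at h1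
  exact Int.natCast_dvd.2 h1

theorem card_rep_le_pr (d : ℕ) (hd : Squarefree d)
    (h4 : ∀ p : ℕ, p.Prime → p ∣ d → p % 4 = 1)
    (B : Finset (ℤ × ℤ)) (hB : ∀ z ∈ B, 1 ≤ z.1 ∧ 1 ≤ z.2 ∧ z.1 ^ 2 + z.2 ^ 2 = (d : ℤ)) :
    B.card ≤ 2 ^ d.primeFactors.card := by
  rcases B.eq_empty_or_nonempty with rfl | ⟨z0, hz0⟩
  · simp
  obtain ⟨s0, t0⟩ := z0
  obtain ⟨hs0, ht0, h0⟩ := hB _ hz0
  simp only at hs0 ht0 h0
  rw [← Finset.card_powerset]
  refine Finset.card_le_card_of_injOn
    (fun z => d.primeFactors.filter (fun p : ℕ => (p : ℤ) ∣ z.1 * t0 - s0 * z.2)) ?_ ?_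
  · intro z _
    simp only [Finset.coe_powerset, Set.mem_preimage, Set.mem_powerset_iff, Finset.coe_subset]
    exact Finset.filter_subset _ _
  · rintro ⟨s, t⟩ hz ⟨s', t'⟩ hz' heq
    obtain ⟨hs, ht, h1⟩ := hB _ hz
    obtain ⟨hs', ht', h2⟩ := hB _ hz'
    simp only at hs ht h1 hs' ht' h2 heq
    have hdiv : ∀ p ∈ d.primeFactors, (p : ℤ) ∣ s * t' - s' * t := by
      intro p hp
      have hpp := Nat.prime_of_mem_primeFactors hp
      have hpi : Prime (p : ℤ) := Nat.prime_iff_prime_int.1 hpp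
      have hpd : (p : ℤ) ∣ (d : ℤ) := Int.natCast_dvd_natCast.2 (Nat.dvd_of_mem_primeFactors hp)
      have hpt : ¬ (p : ℤ) ∣ t0 := by
        intro hpt
        have hps : (p : ℤ) ∣ s0 := by
          have : (p : ℤ) ∣ s0 ^ 2 := by
            have h3 : s0 ^ 2 = (d : ℤ) - t0 * t0 := by rw [← h0]; ring
            rw [h3]
            exact dvd_sub hpd (hpt.mul_right _)
          exact hpi.dvd_of_dvd_pow this
        have h3 : ((p * p : ℕ) : ℤ) ∣ (d : ℤ) := by
          push_cast
          rw [← h0, sq, sq]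
          exact dvd_add (mul_dvd_mul hps hps) (mul_dvd_mul hpt hpt)
        have h5 := hd p (Int.natCast_dvd_natCast.1 h3)
        exact hpp.one_lt.ne' (Nat.isUnit_iff.1 h5)
      have key : (p : ℤ) ∣ t0 * (s * t' - s' * t) := by
        have hmem : ((p : ℤ) ∣ s * t0 - s0 * t) ↔ ((p : ℤ) ∣ s' * t0 - s0 * t') := by
          have h3 := Finset.ext_iff.1 heq p
          simp only [Finset.mem_filter, hp, true_and] at h3
          exact h3
        by_cases hc : (p : ℤ) ∣ s * t0 - s0 * t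
        · have hc' := hmem.1 hc
          have h3 : t0 * (s * t' - s' * t) = t' * (s * t0 - s0 * t) - t * (s' * t0 - s0 * t') := by
            ring
          rw [h3]
          exact dvd_sub (hc.mul_left _) (hc'.mul_left _)
        · have hc' : ¬ (p : ℤ) ∣ s' * t0 - s0 * t' := fun h => hc (hmem.2 h)
          have hplus : ∀ a b : ℤ, a ^ 2 + b ^ 2 = (d : ℤ) → ¬ (p : ℤ) ∣ a * t0 - s0 * b →
              (p : ℤ) ∣ a * t0 + s0 * b := by
            intro a b hab hn
            have h3 : (p : ℤ) ∣ (a * t0 - s0 * b) * (a * t0 + s0 * b) := by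
              have h4 : (a * t0 - s0 * b) * (a * t0 + s0 * b) = (d : ℤ) * (t0 ^ 2 - b ^ 2) := by
                have h5 : a ^ 2 = (d : ℤ) - b ^ 2 := by linarith
                have h6 : s0 ^ 2 = (d : ℤ) - t0 ^ 2 := by linarith
                calc (a * t0 - s0 * b) * (a * t0 + s0 * b)
                    = a ^ 2 * t0 ^ 2 - s0 ^ 2 * b ^ 2 := by ring
                  _ = (d : ℤ) * (t0 ^ 2 - b ^ 2) := by rw [h5, h6]; ring
              rw [h4]
              exact hpd.mul_right _
            exact (hpi.dvd_or_dvd h3).resolve_left hn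
          have h3 : t0 * (s * t' - s' * t) = t' * (s * t0 + s0 * t) - t * (s' * t0 + s0 * t') := by
            ring
          rw [h3]
          exact dvd_sub ((hplus s t h1 hc).mul_left _) ((hplus s' t' h2 hc').mul_left _)
      exact (hpi.dvd_or_dvd key).resolve_left hpt
    have hdd := zj_dvd_of_primes hd hdiv
    have hid : (s * s' + t * t') ^ 2 + (s * t' - s' * t) ^ 2 = (d : ℤ) ^ 2 := by
      have : (s * s' + t * t') ^ 2 + (s * t' - s' * t) ^ 2 =
          (s ^ 2 + t ^ 2) * (s' ^ 2 + t' ^ 2) := by ring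
      rw [this, h1, h2]
      ring
    have hdpos : (0 : ℤ) < d := by
      rw [← h1]
      positivity
    have hpos : 0 < s * s' + t * t' := by positivity
    have hzero : s * t' - s' * t = 0 := by
      have h3 : (s * t' - s' * t) ^ 2 < (d : ℤ) ^ 2 := by nlinarith
      have h4 : |s * t' - s' * t| < d := by
        rw [← abs_of_pos hdpos]
        exact sq_lt_sq.1 h3
      exact Int.eq_zero_of_abs_lt_dvd hdd h4
    have hs2 : s ^ 2 = s' ^ 2 := by
      have h3 : s * t' = s' * t := by linarith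
      have h4 : s ^ 2 * (d : ℤ) = s' ^ 2 * (d : ℤ) := by
        calc s ^ 2 * (d : ℤ) = s ^ 2 * s' ^ 2 + (s * t') ^ 2 := by rw [← h2]; ring
          _ = s' ^ 2 * (s ^ 2 + t ^ 2) := by rw [h3]; ring
          _ = s' ^ 2 * (d : ℤ) := by rw [h1]
      exact mul_right_cancel₀ hdpos.ne' h4
    have hss : s = s' := by
      have := abs_eq_abs.1 (sq_eq_sq_iff_abs_eq_abs _ _ |>.1 hs2)
      omega
    have htt : t = t' := by
      subst hss
      have ht2 : t ^ 2 = t' ^ 2 := by linarith
      have := abs_eq_abs.1 (sq_eq_sq_iff_abs_eq_abs _ _ |>.1 ht2)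
      omega
    rw [hss, htt]

theorem card_rep_le : type_of% @card_rep_le_pr := @card_rep_le_pr

end Pool.Agent.PENT
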