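import Mathlib
import Pool.Agent.Lib_helper8.PENT.ZDefs
import Pool.Agent.Lib_helper97.TRL.M42

set_option autoImplicit false

namespace Pool.Agent.PENT

/-- one step of the partial summation -/
theorem zk_step {C : ℝ} (hC : 0 ≤ C) {L L' A : ℝ} (hL : 0 < L) (hL' : L < L') (hu : L' - L ≤ 1)
    (hA : |A - L| ≤ C) :
    |A * (1 / L - 1 / L') - (Real.log L' - Real.log L)| ≤ (1 + C) * (1 / L - 1 / L') := by
  have hL'0 : 0 < L' := hL.trans hL'
  have hd : 0 ≤ 1 / L - 1 / L' := by
    rw [sub_nonneg]; exact one_div_le_one_div_of_le hL hL'.le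
  have e1 : A * (1 / L - 1 / L') = (A - L) * (1 / L - 1 / L') + (L' - L) / L' := by
    field_simp
    ring
  have h1 : Real.log L' - Real.log L ≤ (L' - L) / L := by
    rw [← Real.log_div hL'0.ne' hL.ne']
    have := Real.log_le_sub_one_of_pos (div_pos hL'0 hL)
    have e : (L' - L) / L = L' / L - 1 := by field_simp
    rw [e]; exact this
  have h2 : (L' - L) / L' ≤ Real.log L' - Real.log L := by
    have := Real.one_sub_inv_le_log_of_pos (div_pos hL'0 hL)
    rw [Real.log_div hL'0.ne' hL.ne'] at this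
    have e : (L' - L) / L' = 1 - (L' / L)⁻¹ := by field_simp
    rw [e]; exact this
  have h3 : (L' - L) / L - (L' - L) / L' ≤ 1 / L - 1 / L' := by
    have e : (L' - L) / L - (L' - L) / L' = (L' - L) * (1 / L - 1 / L') := by ring
    rw [e]
    exact mul_le_of_le_one_left hd hu
  have h4 : |(A - L) * (1 / L - 1 / L')| ≤ C * (1 / L - 1 / L') := by
    rw [abs_mul, abs_of_nonneg hd]
    exact mul_le_mul_of_nonneg_right hA hd
  have h5 := abs_le.mp h4
  rw [e1, abs_le]
  constructor
  · nlinarith [h5.1, h5.2]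
  · nlinarith [h5.1, h5.2]

theorem zk_nat {C : ℝ} (hC : 0 ≤ C) (S A : ℕ → ℝ) (hA : ∀ n : ℕ, 1 ≤ n → |A n - Real.log n| ≤ C)
    (h2 : S 2 - A 2 / Real.log 2 = 0)
    (hs : ∀ n : ℕ, S (n + 1) - A (n + 1) / Real.log ((n + 1 : ℕ) : ℝ) =
      S n - A n / Real.log ((n + 1 : ℕ) : ℝ))
    (n : ℕ) (hn : 2 ≤ n) :
    |S n - A n / Real.log n - Real.log (Real.log n) + Real.log (Real.log 2)| ≤
      (1 + C) * (1 / Real.log 2 - 1 / Real.log n) := by
  induction n, hn using Nat.le_induction with
  | base =>
    rw [Nat.cast_ofNat, h2]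
    simp
  | succ n hn ih =>
    have hn0 : (0 : ℝ) < n := by exact_mod_cast (by omega : 0 < n)
    have hn1 : (1 : ℝ) < n := by exact_mod_cast (by omega : 1 < n)
    have hL : 0 < Real.log n := Real.log_pos hn1
    have hL' : Real.log n < Real.log ((n + 1 : ℕ) : ℝ) := by
      apply Real.log_lt_log hn0
      push_cast; linarith
    have hu : Real.log ((n + 1 : ℕ) : ℝ) - Real.log n ≤ 1 := by
      rw [← Real.log_div (by positivity) hn0.ne']
      have := Real.log_le_sub_one_of_pos (div_pos (by positivity : (0 : ℝ) < ((n + 1 : ℕ) : ℝ)) hn0)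
      have e : ((n + 1 : ℕ) : ℝ) / n - 1 = 1 / n := by push_cast; field_simp; ring
      rw [e] at this
      have h1 : 1 / (n : ℝ) ≤ 1 := by
        rw [div_le_one hn0]; exact hn1.le
      linarith
    have hstep := zk_step hC hL hL' hu (hA n (by omega))
    have hL'0 : 0 < Real.log ((n + 1 : ℕ) : ℝ) := hL.trans hL'
    rw [hs n]
    set L := Real.log n with hLd
    set L' := Real.log ((n + 1 : ℕ) : ℝ) with hL'd
    have e2 : S n - A n / L' - Real.log L' + Real.log (Real.log 2) =
        (S n - A n / L - Real.log L + Real.log (Real.log 2)) +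
          (A n * (1 / L - 1 / L') - (Real.log L' - Real.log L)) := by
      field_simp
      ring
    rw [e2]
    calc |(S n - A n / L - Real.log L + Real.log (Real.log 2)) +
          (A n * (1 / L - 1 / L') - (Real.log L' - Real.log L))|
        ≤ |S n - A n / L - Real.log L + Real.log (Real.log 2)| +
          |A n * (1 / L - 1 / L') - (Real.log L' - Real.log L)| := abs_add_le _ _
      _ ≤ (1 + C) * (1 / Real.log 2 - 1 / L) + (1 + C) * (1 / L - 1 / L') := add_le_add ih hstep
      _ = (1 + C) * (1 / Real.log 2 - 1 / L') := by ring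

theorem mertens_s14_pr : ∃ C : ℝ, 0 ≤ C ∧ ∀ z : ℝ, 2 ≤ z →
    |s14 z - 1 / 2 * Real.log (Real.log z)| ≤ C := by
  obtain ⟨C0, hC0, hM⟩ := Pool.Agent.TR.mertens14
  set C := 2 * C0 with hCd
  have hC : 0 ≤ C := by positivity
  set S : ℕ → ℝ := fun n => 2 * ∑ p ∈ (Finset.Icc 1 n).filter (fun p => p.Prime ∧ p % 4 = 1),
    1 / (p : ℝ) with hSd
  set A : ℕ → ℝ := fun n => 2 * ∑ p ∈ (Finset.Icc 1 n).filter (fun p => p.Prime ∧ p % 4 = 1),
    Real.log p / p with hAd
  have hA : ∀ n : ℕ, 1 ≤ n → |A n - Real.log n| ≤ C := by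
    intro n hn
    have h := hM n hn
    have e : A n - Real.log n = 2 * (∑ p ∈ (Finset.Icc 1 n).filter (fun p => p.Prime ∧ p % 4 = 1),
        Real.log p / p - 1 / 2 * Real.log n) := by rw [hAd]; ring
    rw [e, abs_mul, abs_of_pos (by norm_num : (0:ℝ) < 2)]
    linarith
  have hemp : (Finset.Icc 1 2).filter (fun p => p.Prime ∧ p % 4 = 1) = ∅ := by decide
  have h2 : S 2 - A 2 / Real.log 2 = 0 := by
    simp only [hSd, hAd, hemp, Finset.sum_empty]
    simp
  have hs : ∀ n : ℕ, S (n + 1) - A (n + 1) / Real.log ((n + 1 : ℕ) : ℝ) =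
      S n - A n / Real.log ((n + 1 : ℕ) : ℝ) := by
    intro n
    have hI : Finset.Icc 1 (n + 1) = insert (n + 1) (Finset.Icc 1 n) := by
      ext k; simp only [Finset.mem_Icc, Finset.mem_insert]; omega
    have hnot : n + 1 ∉ (Finset.Icc 1 n).filter (fun p => p.Prime ∧ p % 4 = 1) := by simp
    simp only [hSd, hAd]
    rw [hI, Finset.filter_insert]
    split_ifs with hp
    · rw [Finset.sum_insert hnot, Finset.sum_insert hnot]
      have hn1 : 1 ≤ n := by
        have := hp.1.two_le
        omega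
      have h0 : ((n + 1 : ℕ) : ℝ) ≠ 0 := by positivity
      have hl0 : Real.log ((n + 1 : ℕ) : ℝ) ≠ 0 := by
        refine (Real.log_pos ?_).ne'
        push_cast
        have : (1:ℝ) ≤ n := by exact_mod_cast hn1
        linarith
      field_simp
      ring
    · rfl
  have hl2 : 0 < Real.log 2 := Real.log_pos (by norm_num)
  refine ⟨((1 + C) / Real.log 2 + (1 + C / Real.log 2) + |Real.log (Real.log 2)| +
    1 / Real.log 2) / 2, by positivity, ?_⟩
  intro x hx
  have hx0 : 0 < x := by linarith
  set n := ⌊x⌋₊ with hnd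
  have hn2 : 2 ≤ n := Nat.le_floor (by exact_mod_cast hx)
  have hnx : (n : ℝ) ≤ x := Nat.floor_le hx0.le
  have hxn : x < n + 1 := Nat.lt_floor_add_one x
  have hn2' : (2 : ℝ) ≤ n := by exact_mod_cast hn2
  have hn0 : (0 : ℝ) < n := by linarith
  have hL2 : Real.log 2 ≤ Real.log n := Real.log_le_log (by norm_num) hn2'
  have hL : 0 < Real.log n := hl2.trans_le hL2
  have h1 := zk_nat hC S A hA h2 hs n hn2
  have h2' := hA n (by omega)
  have h3 : |A n / Real.log n - 1| ≤ C / Real.log 2 := by
    have e : A n / Real.log n - 1 = (A n - Real.log n) / Real.log n := by field_simp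
    rw [e, abs_div, abs_of_pos hL]
    exact div_le_div₀ hC h2' hl2 hL2
  have h4 : (1 + C) * (1 / Real.log 2 - 1 / Real.log n) ≤ (1 + C) / Real.log 2 := by
    have : 0 ≤ 1 / Real.log n := by positivity
    have e : (1 + C) / Real.log 2 = (1 + C) * (1 / Real.log 2) := by ring
    rw [e]
    apply mul_le_mul_of_nonneg_left _ (by linarith)
    linarith
  have hlx : Real.log n ≤ Real.log x := Real.log_le_log hn0 hnx
  have h5 : 0 ≤ Real.log (Real.log x) - Real.log (Real.log n) :=
    sub_nonneg.mpr (Real.log_le_log hL hlx)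
  have h6 : Real.log (Real.log x) - Real.log (Real.log n) ≤ 1 / Real.log 2 := by
    have a1 : Real.log (Real.log x) - Real.log (Real.log n) ≤
        (Real.log x - Real.log n) / Real.log n := by
      rw [← Real.log_div (hL.trans_le hlx).ne' hL.ne']
      have := Real.log_le_sub_one_of_pos (div_pos (hL.trans_le hlx) hL)
      have e : (Real.log x - Real.log n) / Real.log n = Real.log x / Real.log n - 1 := by
        field_simp
      rw [e]; exact this
    have a2 : Real.log x - Real.log n ≤ 1 := by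
      rw [← Real.log_div hx0.ne' hn0.ne']
      have := Real.log_le_sub_one_of_pos (div_pos hx0 hn0)
      have e : x / n - 1 ≤ 1 := by
        rw [sub_le_iff_le_add, div_le_iff₀ hn0]; linarith
      linarith
    calc Real.log (Real.log x) - Real.log (Real.log n) ≤ (Real.log x - Real.log n) / Real.log n := a1
      _ ≤ 1 / Real.log 2 := div_le_div₀ zero_le_one a2 hl2 hL2
  have hsx : s14 x = S n / 2 := by
    rw [s14, ← hnd]
    simp only [hSd]
    ring
  have e : s14 x - 1 / 2 * Real.log (Real.log x) =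
      ((S n - A n / Real.log n - Real.log (Real.log n) + Real.log (Real.log 2)) +
      (A n / Real.log n - 1) + 1 - Real.log (Real.log 2) -
      (Real.log (Real.log x) - Real.log (Real.log n))) / 2 := by rw [hsx]; ring
  have b1 := abs_le.mp h1
  have b2 := abs_le.mp h3
  have b3 := abs_le.mp (le_refl |Real.log (Real.log 2)|)
  have b4 : 0 ≤ 1 / Real.log 2 := by positivity
  rw [e, abs_le]
  constructor
  · linarith [b1.1, b2.1, b3.2, b3.1]
  · linarith [b1.2, b2.2, b3.2, b3.1]

theorem mertens_s14 : type_of% @mertens_s14_pr := @mertens_s14_pr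

end Pool.Agent.PENT
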