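import Pool.Agent.Lib_helper8.PENT.ZDefs

set_option autoImplicit false

namespace Pool.Agent.PENT

theorem zm_diff {p : ℕ} (hp : 0 < p) {s s' : ℤ} (h : 2 * s / (p : ℤ) = 2 * s' / (p : ℤ)) :
    4 * (s - s') ^ 2 < (p : ℤ) ^ 2 := by
  have hp' : (0 : ℤ) < p := by exact_mod_cast hp
  have h1 := Int.mul_ediv_add_emod (2 * s) p
  have h2 := Int.mul_ediv_add_emod (2 * s') p
  have h3 := Int.emod_nonneg (2 * s) hp'.ne'
  have h4 := Int.emod_nonneg (2 * s') hp'.ne'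
  have h5 := Int.emod_lt_of_pos (2 * s) hp'
  have h6 := Int.emod_lt_of_pos (2 * s') hp'
  rw [h] at h1
  have h7 : 2 * (s - s') < p := by linarith
  have h8 : -(p : ℤ) < 2 * (s - s') := by linarith
  nlinarith

/-- a set of pairs whose differences have norm divisible by `p²` -/
theorem zm_class {p : ℕ} (hp : p.Prime) {l : ℤ} (hl : 1 ≤ l) (hpl : (p : ℤ) ≤ 2 * l)
    (G : Finset (ℤ × ℤ)) (hG : G ⊆ (Finset.Icc 1 l) ×ˢ (Finset.Icc 1 l))
    (h : ∀ z ∈ G, ∀ z' ∈ G, ((p : ℤ) ^ 2) ∣ (z.1 - z'.1) ^ 2 + (z.2 - z'.2) ^ 2) :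
    (G.card : ℝ) ≤ 16 * (l : ℝ) ^ 2 / (p : ℝ) ^ 2 := by
  have hp0 := hp.pos
  have hp' : (0 : ℤ) < p := by exact_mod_cast hp0
  have hinj : G.card ≤ ((Finset.Icc (0 : ℤ) (2 * l / p)) ×ˢ
      (Finset.Icc (0 : ℤ) (2 * l / p))).card := by
    refine Finset.card_le_card_of_injOn (fun z => (2 * z.1 / (p : ℤ), 2 * z.2 / (p : ℤ))) ?_ ?_
    · intro z hz
      have h1 := Finset.mem_product.1 (hG hz)
      have h2 := Finset.mem_Icc.1 h1.1
      have h3 := Finset.mem_Icc.1 h1.2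
      simp only [Finset.coe_product, Finset.coe_Icc, Set.mem_prod, Set.mem_Icc]
      exact ⟨⟨Int.ediv_nonneg (by omega) hp'.le, Int.ediv_le_ediv hp' (by omega)⟩,
        ⟨Int.ediv_nonneg (by omega) hp'.le, Int.ediv_le_ediv hp' (by omega)⟩⟩
    · intro z hz z' hz' heq
      simp only [Prod.mk.injEq] at heq
      have h1 := zm_diff hp0 heq.1
      have h2 := zm_diff hp0 heq.2
      have h3 := h z hz z' hz'
      have h4 : (z.1 - z'.1) ^ 2 + (z.2 - z'.2) ^ 2 = 0 := by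
        by_contra hne
        have h5 : 0 < (z.1 - z'.1) ^ 2 + (z.2 - z'.2) ^ 2 :=
          lt_of_le_of_ne (by positivity) (Ne.symm hne)
        have h6 := Int.le_of_dvd h5 h3
        nlinarith
      have h5 : z.1 - z'.1 = 0 := by nlinarith [sq_nonneg (z.1 - z'.1), sq_nonneg (z.2 - z'.2)]
      have h6 : z.2 - z'.2 = 0 := by nlinarith [sq_nonneg (z.1 - z'.1), sq_nonneg (z.2 - z'.2)]
      exact Prod.ext (by omega) (by omega)
  rw [Finset.card_product, Int.card_Icc] at hinj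
  have hm : 0 ≤ 2 * l / (p : ℤ) := Int.ediv_nonneg (by omega) hp'.le
  have hpr : (0 : ℝ) < p := by exact_mod_cast hp0
  have h1 : (((2 * l / (p : ℤ) + 1 - 0).toNat : ℕ) : ℝ) ≤ 4 * l / p := by
    have h2 : (((2 * l / (p : ℤ) + 1 - 0).toNat : ℕ) : ℝ) = ((2 * l / (p : ℤ) : ℤ) : ℝ) + 1 := by
      have h3 : (((2 * l / (p : ℤ) + 1 - 0).toNat : ℕ) : ℤ) = 2 * l / (p : ℤ) + 1 := by omega
      have h4 := congrArg (fun x : ℤ => (x : ℝ)) h3
      simpa only [Int.cast_natCast, Int.cast_add, Int.cast_one] using h4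
    rw [h2]
    have h3 : ((2 * l / (p : ℤ) : ℤ) : ℝ) ≤ 2 * l / p := by
      rw [le_div_iff₀ hpr]
      have := Int.ediv_mul_le (2 * l) hp'.ne'
      exact_mod_cast this
    have h4 : (1 : ℝ) ≤ 2 * l / p := by
      rw [le_div_iff₀ hpr]
      rw [one_mul]
      exact_mod_cast hpl
    have h5 : (4 : ℝ) * l / p = 2 * l / p + 2 * l / p := by ring
    linarith
  have h2 : (G.card : ℝ) ≤ (((2 * l / (p : ℤ) + 1 - 0).toNat : ℕ) : ℝ) *
      (((2 * l / (p : ℤ) + 1 - 0).toNat : ℕ) : ℝ) := by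
    exact_mod_cast hinj
  have h3 : (0 : ℝ) ≤ (((2 * l / (p : ℤ) + 1 - 0).toNat : ℕ) : ℝ) := Nat.cast_nonneg _
  calc (G.card : ℝ) ≤ _ := h2
    _ ≤ (4 * l / p) * (4 * l / p) := mul_le_mul h1 h1 h3 (h3.trans h1)
    _ = 16 * (l : ℝ) ^ 2 / (p : ℝ) ^ 2 := by ring

theorem zm_odd {p : ℕ} (hp : p.Prime) {s t : ℤ} (h : ((p : ℤ) ^ 2) ∣ s ^ 2 + t ^ 2)
    (hs : ¬ (p : ℤ) ∣ s) : p ≠ 2 ∧ ¬ (p : ℤ) ∣ t := by
  have hpi : Prime (p : ℤ) := Nat.prime_iff_prime_int.1 hp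
  have hpd : (p : ℤ) ∣ s ^ 2 + t ^ 2 := (Dvd.intro_left ((p : ℤ)) (by ring)).trans h
  constructor
  · rintro rfl
    push_cast at hs h
    have h1 : s % 2 = 1 := by omega
    obtain ⟨a, ha⟩ : ∃ a, s = 2 * a + 1 := ⟨s / 2, by omega⟩
    obtain ⟨b, hb | hb⟩ : ∃ b, t = 2 * b ∨ t = 2 * b + 1 := ⟨t / 2, by omega⟩
    · obtain ⟨k, hk⟩ := h
      rw [ha, hb] at hk
      ring_nf at hk
      omega
    · obtain ⟨k, hk⟩ := h
      rw [ha, hb] at hk
      ring_nf at hk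
      omega
  · intro ht
    apply hs
    have : (p : ℤ) ∣ s ^ 2 := by
      have h1 : s ^ 2 = (s ^ 2 + t ^ 2) - t * t := by ring
      rw [h1]
      exact dvd_sub hpd (ht.mul_right _)
    exact hpi.dvd_of_dvd_pow this

theorem card_sq_large_pr : ∃ C : ℝ, 0 ≤ C ∧ ∀ (p : ℕ) (ℓ : ℤ), p.Prime → 1 ≤ ℓ →
    (p : ℤ) ≤ 2 * ℓ →
    ((((Finset.Icc 1 ℓ) ×ˢ (Finset.Icc 1 ℓ)).filter
      (fun z : ℤ × ℤ => ((p : ℤ) ^ 2) ∣ z.1 ^ 2 + z.2 ^ 2)).card : ℝ) ≤
      C * (ℓ : ℝ) ^ 2 / (p : ℝ) ^ 2 := by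
  refine ⟨48, by norm_num, fun p l hp hl hpl => ?_⟩
  have hpi : Prime (p : ℤ) := Nat.prime_iff_prime_int.1 hp
  set F := ((Finset.Icc 1 l) ×ˢ (Finset.Icc 1 l)).filter
      (fun z : ℤ × ℤ => ((p : ℤ) ^ 2) ∣ z.1 ^ 2 + z.2 ^ 2) with hF
  have hFs : F ⊆ (Finset.Icc 1 l) ×ˢ (Finset.Icc 1 l) := Finset.filter_subset _ _
  have hFd : ∀ z ∈ F, ((p : ℤ) ^ 2) ∣ z.1 ^ 2 + z.2 ^ 2 := fun z hz => (Finset.mem_filter.1 hz).2
  set F0 := F.filter (fun z => (p : ℤ) ∣ z.1) with hF0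
  set F' := F.filter (fun z => ¬ (p : ℤ) ∣ z.1) with hF'
  have hsum : F.card = F0.card + F'.card := (Finset.card_filter_add_card_filter_not _).symm
  have h0 : (F0.card : ℝ) ≤ 16 * (l : ℝ) ^ 2 / (p : ℝ) ^ 2 := by
    refine zm_class hp hl hpl F0 ((Finset.filter_subset _ _).trans hFs) ?_
    have hboth : ∀ z ∈ F0, (p : ℤ) ∣ z.1 ∧ (p : ℤ) ∣ z.2 := by
      intro z hz
      have h1 := Finset.mem_filter.1 hz
      refine ⟨h1.2, ?_⟩
      have h2 : (p : ℤ) ∣ z.1 ^ 2 + z.2 ^ 2 :=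
        (Dvd.intro_left ((p : ℤ)) (by ring)).trans (hFd z h1.1)
      have h3 : (p : ℤ) ∣ z.2 ^ 2 := by
        have h4 : z.2 ^ 2 = (z.1 ^ 2 + z.2 ^ 2) - z.1 * z.1 := by ring
        rw [h4]
        exact dvd_sub h2 (h1.2.mul_right _)
      exact hpi.dvd_of_dvd_pow h3
    intro z hz z' hz'
    have h1 := hboth z hz
    have h2 := hboth z' hz'
    exact dvd_add (pow_dvd_pow_of_dvd (dvd_sub h1.1 h2.1) 2)
      (pow_dvd_pow_of_dvd (dvd_sub h1.2 h2.2) 2)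
  have h1 : (F'.card : ℝ) ≤ 32 * (l : ℝ) ^ 2 / (p : ℝ) ^ 2 := by
    rcases F'.eq_empty_or_nonempty with he | ⟨z0, hz0⟩
    · rw [he]
      simp only [Finset.card_empty, Nat.cast_zero]
      positivity
    · have hz0' := Finset.mem_filter.1 hz0
      obtain ⟨hp2, ht0⟩ := zm_odd hp (hFd z0 hz0'.1) hz0'.2
      have hs0 : ¬ (p : ℤ) ∣ z0.1 := hz0'.2
      have hcop : IsCoprime ((p : ℤ) ^ 2) (z0.1 ^ 2) :=
        (IsCoprime.pow ((Int.prime_iff_natAbs_prime.2 (by simpa using hp)).coprime_iff_not_dvd.2 hs0))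
      set F1 := F'.filter (fun z => ((p : ℤ) ^ 2) ∣ z.1 * z0.2 - z0.1 * z.2) with hF1
      set F2 := F'.filter (fun z => ¬ ((p : ℤ) ^ 2) ∣ z.1 * z0.2 - z0.1 * z.2) with hF2
      have hs2 : F'.card = F1.card + F2.card := (Finset.card_filter_add_card_filter_not _).symm
      have hsub : F' ⊆ (Finset.Icc 1 l) ×ˢ (Finset.Icc 1 l) := (Finset.filter_subset _ _).trans hFs
      have hc1 : (F1.card : ℝ) ≤ 16 * (l : ℝ) ^ 2 / (p : ℝ) ^ 2 := by
        refine zm_class hp hl hpl F1 ((Finset.filter_subset _ _).trans hsub) ?_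
        intro z hz z' hz'
        have e1 := (Finset.mem_filter.1 hz).2
        have e2 := (Finset.mem_filter.1 hz').2
        obtain ⟨k1, hk1⟩ := e1
        obtain ⟨k2, hk2⟩ := e2
        obtain ⟨k0, hk0⟩ := hFd z0 hz0'.1
        have key : ((p : ℤ) ^ 2) ∣ z0.1 ^ 2 * ((z.1 - z'.1) ^ 2 + (z.2 - z'.2) ^ 2) := by
          have e3 : z0.1 * (z.2 - z'.2) = z0.2 * (z.1 - z'.1) - (p : ℤ) ^ 2 * (k1 - k2) := by
            linear_combination (-1) * hk1 + hk2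
          have e4 : z0.1 ^ 2 * ((z.1 - z'.1) ^ 2 + (z.2 - z'.2) ^ 2) =
              (z0.1 ^ 2 + z0.2 ^ 2) * (z.1 - z'.1) ^ 2 + (p : ℤ) ^ 2 *
              ((p : ℤ) ^ 2 * (k1 - k2) ^ 2 - 2 * (k1 - k2) * (z0.2 * (z.1 - z'.1))) := by
            have e5 : z0.1 ^ 2 * (z.2 - z'.2) ^ 2 =
                (z0.2 * (z.1 - z'.1) - (p : ℤ) ^ 2 * (k1 - k2)) ^ 2 := by
              rw [← e3]
              ring
            linear_combination e5
          rw [e4, hk0]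
          exact dvd_add ((dvd_mul_right _ _).mul_right _) (dvd_mul_right _ _)
        exact hcop.dvd_of_dvd_mul_left key
      have hc2 : (F2.card : ℝ) ≤ 16 * (l : ℝ) ^ 2 / (p : ℝ) ^ 2 := by
        have hplus : ∀ z ∈ F2, ((p : ℤ) ^ 2) ∣ z.1 * z0.2 + z0.1 * z.2 := by
          intro z hz
          have e1 := Finset.mem_filter.1 hz
          have e2 := Finset.mem_filter.1 e1.1
          obtain ⟨-, htz⟩ := zm_odd hp (hFd z e2.1) e2.2
          obtain ⟨k0, hk0⟩ := hFd z0 hz0'.1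
          obtain ⟨k1, hk1⟩ := hFd z e2.1
          have e3 : ((p : ℤ) ^ 2) ∣ (z.1 * z0.2 - z0.1 * z.2) * (z.1 * z0.2 + z0.1 * z.2) := by
            have e4 : (z.1 * z0.2 - z0.1 * z.2) * (z.1 * z0.2 + z0.1 * z.2) =
                (p : ℤ) ^ 2 * (z.1 ^ 2 * k0 - z0.1 ^ 2 * k1) := by
              linear_combination z.1 ^ 2 * hk0 - z0.1 ^ 2 * hk1
            rw [e4]
            exact dvd_mul_right _ _
          by_cases e5 : (p : ℤ) ∣ z.1 * z0.2 - z0.1 * z.2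
          · -- then `p` does not divide the other factor, so `p²` divides this one
            exfalso
            apply e1.2
            have e6 : ¬ (p : ℤ) ∣ z.1 * z0.2 + z0.1 * z.2 := by
              intro e6
              have e7 : (p : ℤ) ∣ 2 * (z.1 * z0.2) := by
                have := dvd_add e5 e6
                rwa [show z.1 * z0.2 - z0.1 * z.2 + (z.1 * z0.2 + z0.1 * z.2) =
                  2 * (z.1 * z0.2) by ring] at this
              rcases hpi.dvd_or_dvd e7 with e8 | e8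
              · have e9 : p ∣ 2 := by exact_mod_cast e8
                exact hp2 ((Nat.prime_dvd_prime_iff_eq hp Nat.prime_two).1 e9)
              · rcases hpi.dvd_or_dvd e8 with e9 | e9
                · exact e2.2 e9
                · exact ht0 e9
            have e7 : IsCoprime ((p : ℤ) ^ 2) (z.1 * z0.2 + z0.1 * z.2) :=
              IsCoprime.pow_left ((Int.prime_iff_natAbs_prime.2
                (by simpa using hp)).coprime_iff_not_dvd.2 e6)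
            exact e7.dvd_of_dvd_mul_right e3
          · have e7 : IsCoprime ((p : ℤ) ^ 2) (z.1 * z0.2 - z0.1 * z.2) :=
              IsCoprime.pow_left ((Int.prime_iff_natAbs_prime.2
                (by simpa using hp)).coprime_iff_not_dvd.2 e5)
            exact e7.dvd_of_dvd_mul_left e3
        refine zm_class hp hl hpl F2 ((Finset.filter_subset _ _).trans hsub) ?_
        intro z hz z' hz'
        obtain ⟨k1, hk1⟩ := hplus z hz
        obtain ⟨k2, hk2⟩ := hplus z' hz'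
        obtain ⟨k0, hk0⟩ := hFd z0 hz0'.1
        have key : ((p : ℤ) ^ 2) ∣ z0.1 ^ 2 * ((z.1 - z'.1) ^ 2 + (z.2 - z'.2) ^ 2) := by
          have e3 : z0.1 * (z.2 - z'.2) = -(z0.2 * (z.1 - z'.1)) + (p : ℤ) ^ 2 * (k1 - k2) := by
            linear_combination hk1 - hk2
          have e4 : z0.1 ^ 2 * ((z.1 - z'.1) ^ 2 + (z.2 - z'.2) ^ 2) =
              (z0.1 ^ 2 + z0.2 ^ 2) * (z.1 - z'.1) ^ 2 + (p : ℤ) ^ 2 *
              ((p : ℤ) ^ 2 * (k1 - k2) ^ 2 - 2 * (k1 - k2) * (z0.2 * (z.1 - z'.1))) := by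
            have e5 : z0.1 ^ 2 * (z.2 - z'.2) ^ 2 =
                (-(z0.2 * (z.1 - z'.1)) + (p : ℤ) ^ 2 * (k1 - k2)) ^ 2 := by
              rw [← e3]
              ring
            linear_combination e5
          rw [e4, hk0]
          exact dvd_add ((dvd_mul_right _ _).mul_right _) (dvd_mul_right _ _)
        exact hcop.dvd_of_dvd_mul_left key
      rw [hs2]
      push_cast
      have : (32 : ℝ) * (l : ℝ) ^ 2 / (p : ℝ) ^ 2 =
        16 * (l : ℝ) ^ 2 / (p : ℝ) ^ 2 + 16 * (l : ℝ) ^ 2 / (p : ℝ) ^ 2 := by ring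
      linarith
  rw [hsum]
  push_cast
  have : (48 : ℝ) * (l : ℝ) ^ 2 / (p : ℝ) ^ 2 =
    16 * (l : ℝ) ^ 2 / (p : ℝ) ^ 2 + 32 * (l : ℝ) ^ 2 / (p : ℝ) ^ 2 := by ring
  linarith

theorem card_sq_large : type_of% @card_sq_large_pr := @card_sq_large_pr

end Pool.Agent.PENT
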