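import Mathlib
import Pool.Agent.Lib_helper8.PENT.ZDefs

set_option autoImplicit false

namespace Pool.Agent.PENT

theorem zn_class {p : ℕ} (hp : 0 < p) (v A B : ℤ) (hAB : A ≤ B) :
    (((Finset.Ioc A B).filter (fun t => t ≡ v [ZMOD (p : ℤ)])).card : ℝ) ≤
      ((B - A : ℤ) : ℝ) / p + 1 := by
  have hp' : (0 : ℤ) < (p : ℤ) := by exact_mod_cast hp
  have hpR : (0 : ℝ) < (p : ℝ) := by exact_mod_cast hp
  have h := Int.Ioc_filter_modEq_card A B hp' v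
  have hBA : (0 : ℝ) ≤ ((B - A : ℤ) : ℝ) := by exact_mod_cast (by omega : (0 : ℤ) ≤ B - A)
  have h1 : (((Finset.Ioc A B).filter (fun t => t ≡ v [ZMOD (p : ℤ)])).card : ℝ) =
      ((max (⌊((B - v : ℤ) : ℚ) / ((p : ℤ) : ℚ)⌋ - ⌊((A - v : ℤ) : ℚ) / ((p : ℤ) : ℚ)⌋) 0 : ℤ) : ℝ) := by
    rw [← Int.cast_natCast, Int.cast_inj]
    rw [h]
    push_cast
    rfl
  rw [h1]
  have h2 : ((⌊((B - v : ℤ) : ℚ) / ((p : ℤ) : ℚ)⌋ - ⌊((A - v : ℤ) : ℚ) / ((p : ℤ) : ℚ)⌋ : ℤ) : ℝ) ≤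
      ((B - A : ℤ) : ℝ) / p + 1 := by
    have e1 : ((⌊((B - v : ℤ) : ℚ) / ((p : ℤ) : ℚ)⌋ : ℤ) : ℚ) ≤ ((B - v : ℤ) : ℚ) / ((p : ℤ) : ℚ) :=
      Int.floor_le _
    have e2 : ((A - v : ℤ) : ℚ) / ((p : ℤ) : ℚ) < ((⌊((A - v : ℤ) : ℚ) / ((p : ℤ) : ℚ)⌋ : ℤ) : ℚ) + 1 :=
      Int.lt_floor_add_one _
    have e3 : ((⌊((B - v : ℤ) : ℚ) / ((p : ℤ) : ℚ)⌋ - ⌊((A - v : ℤ) : ℚ) / ((p : ℤ) : ℚ)⌋ : ℤ) : ℚ) ≤
        ((B - A : ℤ) : ℚ) / ((p : ℤ) : ℚ) + 1 := by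
      push_cast at e1 e2 ⊢
      have e4 : ((B : ℚ) - A) / p = ((B : ℚ) - v) / p - ((A : ℚ) - v) / p := by ring
      rw [e4]
      linarith
    have e5 : (((⌊((B - v : ℤ) : ℚ) / ((p : ℤ) : ℚ)⌋ - ⌊((A - v : ℤ) : ℚ) / ((p : ℤ) : ℚ)⌋ : ℤ) : ℚ) : ℝ) ≤
        (((((B - A : ℤ) : ℚ) / ((p : ℤ) : ℚ) + 1 : ℚ)) : ℝ) := by exact_mod_cast e3
    push_cast at e5 ⊢
    exact e5
  rw [Int.cast_max]
  refine max_le h2 ?_
  push_cast
  have h3 : (0 : ℝ) ≤ ((B - A : ℤ) : ℝ) / p := div_nonneg hBA hpR.le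
  push_cast at h3
  linarith

theorem zn_inner {p : ℕ} (hp : p.Prime) (ρ s A B : ℤ) (hAB : A ≤ B) :
    ∑ t ∈ Finset.Ioc A B, sqi p ρ s t ≤ 2 * (((B - A : ℤ) : ℝ) / p + 1) := by
  have hpR : (0 : ℝ) < (p : ℝ) := by exact_mod_cast hp.pos
  have hBA : (0 : ℝ) ≤ ((B - A : ℤ) : ℝ) := by exact_mod_cast (by omega : (0 : ℤ) ≤ B - A)
  have hnn : (0 : ℝ) ≤ ((B - A : ℤ) : ℝ) / p := div_nonneg hBA hpR.le
  have hprime : Prime (p : ℤ) := Nat.prime_iff_prime_int.mp hp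
  unfold sqi
  rw [← Finset.sum_filter, Finset.sum_const, nsmul_eq_mul, mul_one]
  by_cases hne : ((Finset.Ioc A B).filter (fun t => (p : ℤ) ∣ s ^ 2 + t ^ 2 - ρ)).Nonempty
  · obtain ⟨t0, ht0⟩ := hne
    rw [Finset.mem_filter] at ht0
    have hsub : (Finset.Ioc A B).filter (fun t => (p : ℤ) ∣ s ^ 2 + t ^ 2 - ρ) ⊆
        (Finset.Ioc A B).filter (fun t => t ≡ t0 [ZMOD (p : ℤ)]) ∪
        (Finset.Ioc A B).filter (fun t => t ≡ -t0 [ZMOD (p : ℤ)]) := by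
      intro t ht
      rw [Finset.mem_filter] at ht
      have h1 : (p : ℤ) ∣ (t - t0) * (t + t0) := by
        have := dvd_sub ht.2 ht0.2
        have e : s ^ 2 + t ^ 2 - ρ - (s ^ 2 + t0 ^ 2 - ρ) = (t - t0) * (t + t0) := by ring
        rwa [e] at this
      rw [Finset.mem_union, Finset.mem_filter, Finset.mem_filter]
      rcases hprime.dvd_or_dvd h1 with h2 | h2
      · left
        exact ⟨ht.1, ((Int.modEq_iff_dvd.mpr h2).symm)⟩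
      · right
        refine ⟨ht.1, ((Int.modEq_iff_dvd.mpr ?_).symm)⟩
        have e : t - -t0 = t + t0 := by ring
        rw [e]
        exact h2
    have h2 := (Finset.card_le_card hsub).trans (Finset.card_union_le _ _)
    have h3 : (((Finset.Ioc A B).filter (fun t => (p : ℤ) ∣ s ^ 2 + t ^ 2 - ρ)).card : ℝ) ≤
        (((Finset.Ioc A B).filter (fun t => t ≡ t0 [ZMOD (p : ℤ)])).card : ℝ) +
        (((Finset.Ioc A B).filter (fun t => t ≡ -t0 [ZMOD (p : ℤ)])).card : ℝ) := by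
      exact_mod_cast h2
    have h4 := zn_class hp.pos t0 A B hAB
    have h5 := zn_class hp.pos (-t0) A B hAB
    linarith
  · rw [Finset.not_nonempty_iff_eq_empty] at hne
    rw [hne]
    simp only [Finset.card_empty, Nat.cast_zero]
    linarith

theorem card_res_le_pr {p : ℕ} (hp : p.Prime) (ρ : ℤ) (A B A' B' : ℤ) (hAB : A ≤ B) (hAB' : A' ≤ B') :
    ∑ s ∈ Finset.Ioc A B, ∑ t ∈ Finset.Ioc A' B', sqi p ρ s t ≤
      2 * ((B - A : ℤ) : ℝ) * (((B' - A' : ℤ) : ℝ) / p + 1) := by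
  calc ∑ s ∈ Finset.Ioc A B, ∑ t ∈ Finset.Ioc A' B', sqi p ρ s t
      ≤ ∑ _s ∈ Finset.Ioc A B, 2 * (((B' - A' : ℤ) : ℝ) / p + 1) :=
        Finset.sum_le_sum fun s _ => zn_inner hp ρ s A' B' hAB'
    _ = ((B - A : ℤ) : ℝ) * (2 * (((B' - A' : ℤ) : ℝ) / p + 1)) := by
        rw [Finset.sum_const, nsmul_eq_mul, Int.card_Ioc]
        congr 1
        have h : (((B - A).toNat : ℤ) : ℝ) = ((B - A : ℤ) : ℝ) := by
          rw [Int.toNat_of_nonneg (by omega)]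
        rw [← h, Int.cast_natCast]
    _ = 2 * ((B - A : ℤ) : ℝ) * (((B' - A' : ℤ) : ℝ) / p + 1) := by ring

theorem card_res_le : type_of% @card_res_le_pr := @card_res_le_pr

end Pool.Agent.PENT
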