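import Pool.Agent.Lib_helper8.PENT.ZDefs

/-! Block `zo` of part ZS (project PENT): the weights, pointwise. -/

set_option autoImplicit false

namespace Pool.Agent.PENT

/-- a prime `3 mod 4` dividing `s² + t²` divides it twice -/
theorem zo_three {p : ℕ} (hp : p.Prime) (h4 : p % 4 = 3) {s t : ℤ}
    (h : (p : ℤ) ∣ s ^ 2 + t ^ 2) : (p : ℤ) ^ 2 ∣ s ^ 2 + t ^ 2 := by
  have : Fact p.Prime := ⟨hp⟩
  have h0 : ((s : ZMod p)) ^ 2 + ((t : ZMod p)) ^ 2 = 0 := by
    have := (ZMod.intCast_zmod_eq_zero_iff_dvd (s ^ 2 + t ^ 2) p).2 h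
    push_cast at this
    exact this
  have ht : ((t : ZMod p)) = 0 := by
    by_contra hne
    exact ZMod.mod_four_ne_three_of_sq_eq_neg_sq' hne (eq_neg_of_add_eq_zero_left h0) h4
  have hs : ((s : ZMod p)) = 0 := by
    rw [ht] at h0
    have h1 : ((s : ZMod p)) ^ 2 = 0 := by simpa using h0
    exact pow_eq_zero_iff (two_ne_zero) |>.1 h1
  have hs' := (ZMod.intCast_zmod_eq_zero_iff_dvd s p).1 hs
  have ht' := (ZMod.intCast_zmod_eq_zero_iff_dvd t p).1 ht
  exact dvd_add (pow_dvd_pow_of_dvd hs' 2) (pow_dvd_pow_of_dvd ht' 2)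

/-- the number of prime factors greater than `Y` of `N ≤ Y ^ m` is at most `m` -/
theorem zo_big {Y : ℝ} {m N : ℕ} (hY : 2 ≤ Y) (hN0 : 0 < N) (hNY : (N : ℝ) ≤ Y ^ m)
    (T : Finset ℕ) (hT : ∀ p ∈ T, p ∈ N.primeFactors ∧ Y < (p : ℝ)) : T.card ≤ m := by
  by_contra hcon
  push Not at hcon
  have h1 : Y ^ T.card ≤ ∏ p ∈ T, (p : ℝ) := by
    rw [← Finset.prod_const]
    exact Finset.prod_le_prod (fun _ _ => by linarith) (fun p hp => (hT p hp).2.le)
  have h2 : (∏ p ∈ T, p) ∣ N := by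
    refine (Finset.prod_dvd_prod_of_subset T N.primeFactors (fun p => p)
      (fun p hp => (hT p hp).1)).trans ?_
    exact Nat.prod_primeFactors_dvd N
  have h3 : ((∏ p ∈ T, p : ℕ) : ℝ) ≤ N := by
    exact_mod_cast Nat.le_of_dvd hN0 h2
  have h4 : Y ^ m < Y ^ T.card := pow_lt_pow_right₀ (by linarith) hcon
  push_cast at h3
  linarith

theorem weight_ge_pr (P Y α : ℝ) (m : ℕ) (hP : 2 ≤ P) (hPY : P ≤ Y) (hα : 0 < α) (hα1 : α ≤ 1)
    (q : ℕ) (N : ℕ) (s t : ℤ) (hN : (N : ℤ) = s ^ 2 + t ^ 2) (hN0 : 0 < N)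
    (hNY : (N : ℝ) ≤ Y ^ m) (hNq : Nat.Coprime N q) (S : Finset ℕ)
    (hS : ∀ p : ℕ, p ∈ S ↔ p.Prime ∧ (p : ℝ) ≤ Y ∧ ¬ p ∣ q ∧ (P < (p : ℝ) → p % 4 = 1))
    (hsq : ∀ p : ℕ, p.Prime → P < (p : ℝ) → ¬ p ^ 2 ∣ N) :
    α ^ m * ∏ p ∈ S, (1 - (if (p : ℝ) ≤ P then 1 else 1 - α) * (if p ∣ N then 1 else 0)) ≤
      (open Classical in if DP P N then α ^ N.primeFactors.card else 0) := by
  classical
  have hnq : ∀ p : ℕ, p.Prime → p ∣ N → ¬ p ∣ q := by
    intro p hp h1 h2
    have := Nat.dvd_gcd h1 h2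
    rw [hNq.gcd_eq_one] at this
    exact hp.one_lt.ne' (Nat.dvd_one.1 this)
  by_cases hex : ∃ p : ℕ, p.Prime ∧ (p : ℝ) ≤ P ∧ p ∣ N
  · obtain ⟨p, hp, hpP, hpN⟩ := hex
    have hpS : p ∈ S := (hS p).2 ⟨hp, hpP.trans hPY, hnq p hp hpN, fun h => absurd hpP (not_le.2 h)⟩
    rw [Finset.prod_eq_zero hpS (by rw [if_pos hpP, if_pos hpN]; ring), mul_zero]
    split_ifs
    · exact pow_nonneg hα.le _
    · exact le_rfl
  · push Not at hex
    have hbig : ∀ p : ℕ, p.Prime → p ∣ N → P < (p : ℝ) := by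
      intro p hp hpN
      by_contra hle
      exact hex p hp (not_lt.1 hle) hpN
    have hmod : ∀ p : ℕ, p.Prime → p ∣ N → p % 4 = 1 := by
      intro p hp hpN
      have hPp := hbig p hp hpN
      have h2 : p ≠ 2 := by
        rintro rfl
        push_cast at hPp
        linarith
      rcases hp.eq_two_or_odd with h | h
      · exact absurd h h2
      · have : p % 4 = 1 ∨ p % 4 = 3 := by omega
        rcases this with h' | h'
        · exact h'
        · exfalso
          have hd : (p : ℤ) ∣ s ^ 2 + t ^ 2 := by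
            rw [← hN]; exact_mod_cast hpN
          have := zo_three hp h' hd
          rw [← hN] at this
          exact hsq p hp hPp (by exact_mod_cast this)
    have hDP : DP P N := by
      refine ⟨?_, fun p hp hpN => ⟨hmod p hp hpN, hbig p hp hpN⟩⟩
      rw [Nat.squarefree_iff_prime_squarefree]
      intro p hp hpp
      have hpN : p ∣ N := (Dvd.intro _ rfl).trans hpp
      refine hsq p hp (hbig p hp hpN) ?_
      rw [pow_two]; exact hpp
    rw [if_pos hDP]
    have hprod : ∏ p ∈ S, (1 - (if (p : ℝ) ≤ P then (1 : ℝ) else 1 - α) *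
        (if p ∣ N then 1 else 0)) = α ^ (S.filter (fun p => p ∣ N)).card := by
      rw [← Finset.prod_const, Finset.prod_filter]
      refine Finset.prod_congr rfl fun p hp => ?_
      by_cases hpN : p ∣ N
      · have := hbig p ((hS p).1 hp).1 hpN
        rw [if_pos hpN, if_neg (not_le.2 this), if_pos hpN]
        ring
      · rw [if_neg hpN, if_neg hpN]; ring
    rw [hprod]
    have hsub : S.filter (fun p => p ∣ N) = N.primeFactors.filter (fun p : ℕ => ¬ Y < (p : ℝ)) := by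
      ext p
      simp only [Finset.mem_filter, Nat.mem_primeFactors, not_lt]
      constructor
      · rintro ⟨h1, h2⟩
        have := (hS p).1 h1
        exact ⟨⟨this.1, h2, hN0.ne'⟩, this.2.1⟩
      · rintro ⟨⟨h1, h2, _⟩, h3⟩
        exact ⟨(hS p).2 ⟨h1, h3, hnq p h1 h2, fun _ => hmod p h1 h2⟩, h2⟩
    have hcard := Finset.card_filter_add_card_filter_not (s := N.primeFactors)
      (fun p : ℕ => Y < (p : ℝ))
    have hT : (N.primeFactors.filter (fun p : ℕ => Y < (p : ℝ))).card ≤ m :=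
      zo_big (hP.trans hPY) hN0 hNY _ (fun p hp => by
        rw [Finset.mem_filter] at hp
        exact hp)
    rw [hsub, ← pow_add]
    exact pow_le_pow_of_le_one hα.le hα1 (by omega)

theorem weight_ge : type_of% @weight_ge_pr := @weight_ge_pr

end Pool.Agent.PENT
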