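import Mathlib
import Pool.Agent.Lib_helper8.PENT.ZDefs

set_option autoImplicit false

namespace Pool.Agent.PENT

/-- the integers `n = v (m)` of `(A, B]` -/
theorem zq_le {m : ℕ} (hm : 0 < m) (v : ℤ) (A B : ℝ) (hAB : A ≤ B)
    (S : Finset ℕ) (hS : ∀ n ∈ S, A < (n : ℝ) ∧ (n : ℝ) ≤ B ∧ (m : ℤ) ∣ (n : ℤ) - v) :
    (S.card : ℝ) ≤ (B - A) / m + 1 := by
  classical
  have hmr : (0 : ℝ) < m := by exact_mod_cast hm
  have hmz : (m : ℤ) ≠ 0 := by exact_mod_cast hm.ne'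
  have hcard : S.card ≤ (Finset.Ioc ⌊(A - v) / m⌋ ⌊(B - v) / m⌋).card := by
    apply Finset.card_le_card_of_injOn (fun n : ℕ => ((n : ℤ) - v) / (m : ℤ))
    · intro n hn
      rw [Finset.mem_coe] at hn
      obtain ⟨h1, h2, t, ht⟩ := hS n hn
      have h3 : ((n : ℤ) - v) / (m : ℤ) = t := by rw [ht, Int.mul_ediv_cancel_left _ hmz]
      have h4 : (n : ℝ) - v = m * t := by
        have := congrArg (fun z : ℤ => (z : ℝ)) ht
        push_cast at this
        exact this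
      show ((n : ℤ) - v) / (m : ℤ) ∈ ((Finset.Ioc ⌊(A - v) / m⌋ ⌊(B - v) / m⌋ : Finset ℤ) : Set ℤ)
      rw [h3, Finset.mem_coe, Finset.mem_Ioc, Int.floor_lt, Int.le_floor]
      constructor
      · rw [div_lt_iff₀ hmr]
        linarith
      · rw [le_div_iff₀ hmr]
        linarith
    · intro n hn n' hn' h
      rw [Finset.mem_coe] at hn hn'
      obtain ⟨_, _, t, ht⟩ := hS n hn
      obtain ⟨_, _, t', ht'⟩ := hS n' hn'
      have h3 : ((n : ℤ) - v) / (m : ℤ) = t := by rw [ht, Int.mul_ediv_cancel_left _ hmz]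
      have h3' : ((n' : ℤ) - v) / (m : ℤ) = t' := by rw [ht', Int.mul_ediv_cancel_left _ hmz]
      have h4 : t = t' := by
        rw [← h3, ← h3']
        exact h
      have h5 : (n : ℤ) - v = (n' : ℤ) - v := by rw [ht, ht', h4]
      have h6 : (n : ℤ) = n' := by linarith
      exact_mod_cast h6
  rw [Int.card_Ioc] at hcard
  have h1 : (S.card : ℝ) ≤ (((⌊(B - v) / m⌋ - ⌊(A - v) / m⌋).toNat : ℕ) : ℝ) := by
    exact_mod_cast hcard
  refine le_trans h1 ?_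
  have hmono : ⌊(A - v) / m⌋ ≤ ⌊(B - v) / m⌋ := by
    apply Int.floor_le_floor
    apply div_le_div_of_nonneg_right _ hmr.le
    linarith
  have h2 : (((⌊(B - v) / m⌋ - ⌊(A - v) / m⌋).toNat : ℕ) : ℝ) =
      (⌊(B - v) / m⌋ : ℝ) - (⌊(A - v) / m⌋ : ℝ) := by
    have h3 : (((⌊(B - v) / m⌋ - ⌊(A - v) / m⌋).toNat : ℕ) : ℤ) =
        ⌊(B - v) / m⌋ - ⌊(A - v) / m⌋ := Int.toNat_of_nonneg (by linarith)
    have := congrArg (fun z : ℤ => (z : ℝ)) h3
    push_cast at this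
    exact this
  rw [h2]
  have h5 := Int.floor_le ((B - v) / (m : ℝ))
  have h6 := Int.lt_floor_add_one ((A - v) / (m : ℝ))
  have h7 : (B - v) / (m : ℝ) - (A - v) / (m : ℝ) = (B - A) / m := by ring
  linarith

theorem zq_ge {m : ℕ} (hm : 0 < m) (v : ℤ) (A B : ℝ) (hA : 0 ≤ A)
    (S : Finset ℕ) (hS : ∀ n : ℕ, A < (n : ℝ) → (n : ℝ) ≤ B → (m : ℤ) ∣ (n : ℤ) - v → n ∈ S) :
    (B - A) / m - 1 ≤ (S.card : ℝ) := by
  classical
  have hmr : (0 : ℝ) < m := by exact_mod_cast hm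
  have hmz : (m : ℤ) ≠ 0 := by exact_mod_cast hm.ne'
  have hkey : ∀ t ∈ Finset.Ioc ⌊(A - v) / m⌋ ⌊(B - v) / m⌋,
      A < ((v + m * t : ℤ) : ℝ) ∧ ((v + m * t : ℤ) : ℝ) ≤ B := by
    intro t ht
    rw [Finset.mem_Ioc, Int.floor_lt, Int.le_floor, div_lt_iff₀ hmr, le_div_iff₀ hmr] at ht
    push_cast
    constructor
    · linarith
    · linarith
  have hcard : (Finset.Ioc ⌊(A - v) / m⌋ ⌊(B - v) / m⌋).card ≤ S.card := by
    apply Finset.card_le_card_of_injOn (fun t : ℤ => (v + m * t).toNat)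
    · intro t ht
      rw [Finset.mem_coe] at ht
      obtain ⟨h1, h2⟩ := hkey t ht
      have h0 : (0 : ℤ) ≤ v + m * t := by
        have : (0 : ℝ) < ((v + m * t : ℤ) : ℝ) := lt_of_le_of_lt hA h1
        have h3 : (0 : ℤ) < v + m * t := by exact_mod_cast this
        exact h3.le
      have hc : (((v + m * t).toNat : ℕ) : ℤ) = v + m * t := Int.toNat_of_nonneg h0
      have hcr : (((v + m * t).toNat : ℕ) : ℝ) = ((v + m * t : ℤ) : ℝ) := by
        have := congrArg (fun z : ℤ => (z : ℝ)) hc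
        push_cast at this ⊢
        exact this
      show (v + m * t).toNat ∈ (S : Set ℕ)
      rw [Finset.mem_coe]
      apply hS
      · rw [hcr]
        exact h1
      · rw [hcr]
        exact h2
      · rw [hc]
        exact ⟨t, by ring⟩
    · intro t ht t' ht' h
      rw [Finset.mem_coe] at ht ht'
      obtain ⟨h1, _⟩ := hkey t ht
      obtain ⟨h1', _⟩ := hkey t' ht'
      have h0 : (0 : ℤ) ≤ v + m * t := by
        have : (0 : ℝ) < ((v + m * t : ℤ) : ℝ) := lt_of_le_of_lt hA h1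
        have h3 : (0 : ℤ) < v + m * t := by exact_mod_cast this
        exact h3.le
      have h0' : (0 : ℤ) ≤ v + m * t' := by
        have : (0 : ℝ) < ((v + m * t' : ℤ) : ℝ) := lt_of_le_of_lt hA h1'
        have h3 : (0 : ℤ) < v + m * t' := by exact_mod_cast this
        exact h3.le
      have hc : (((v + m * t).toNat : ℕ) : ℤ) = v + m * t := Int.toNat_of_nonneg h0
      have hc' : (((v + m * t').toNat : ℕ) : ℤ) = v + m * t' := Int.toNat_of_nonneg h0'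
      have h4 : v + m * t = v + m * t' := by
        rw [← hc, ← hc']
        exact congrArg (fun n : ℕ => (n : ℤ)) h
      exact mul_left_cancel₀ hmz (add_left_cancel h4)
  rw [Int.card_Ioc] at hcard
  have h1 : ((⌊(B - v) / m⌋ - ⌊(A - v) / m⌋ : ℤ) : ℝ) ≤ (S.card : ℝ) := by
    have h3 : (⌊(B - v) / m⌋ - ⌊(A - v) / m⌋) ≤
        (((⌊(B - v) / m⌋ - ⌊(A - v) / m⌋).toNat : ℕ) : ℤ) := Int.self_le_toNat _
    have h4 : (⌊(B - v) / m⌋ - ⌊(A - v) / m⌋) ≤ (S.card : ℤ) := le_trans h3 (by exact_mod_cast hcard)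
    exact_mod_cast h4
  refine le_trans ?_ h1
  push_cast
  have h5 := Int.floor_le ((A - v) / (m : ℝ))
  have h6 := Int.lt_floor_add_one ((B - v) / (m : ℝ))
  have h7 : (B - v) / (m : ℝ) - (A - v) / (m : ℝ) = (B - A) / m := by ring
  linarith

theorem zq_prod (S : Finset ℕ) (hS : ∀ p ∈ S, 1 ≤ p) :
    1 - ∑ p ∈ S, 1 / (p : ℝ) ≤ ∏ p ∈ S, (1 - 1 / (p : ℝ)) ∧
      0 ≤ ∏ p ∈ S, (1 - 1 / (p : ℝ)) ∧ ∏ p ∈ S, (1 - 1 / (p : ℝ)) ≤ 1 := by
  classical
  induction S using Finset.induction_on with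
  | empty => simp
  | insert a S ha ih =>
    obtain ⟨h1, h2, h3⟩ := ih (fun p hp => hS p (Finset.mem_insert_of_mem hp))
    have ha1 : (1 : ℝ) ≤ a := by exact_mod_cast hS a (Finset.mem_insert_self a S)
    have ha2 : 1 / (a : ℝ) ≤ 1 := by
      rw [div_le_one (by linarith)]
      exact ha1
    have ha3 : 0 ≤ 1 / (a : ℝ) := by positivity
    rw [Finset.prod_insert ha, Finset.sum_insert ha]
    refine ⟨?_, mul_nonneg (by linarith) h2, ?_⟩
    · nlinarith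
    · nlinarith

theorem zq_phi (n : ℕ) (hn : 0 < n) :
    1 - ∑ p ∈ n.primeFactors, 1 / (p : ℝ) ≤ (n.totient : ℝ) / n ∧ (n.totient : ℝ) / n ≤ 1 := by
  have h := Nat.totient_eq_mul_prod_factors n
  have h' : (n.totient : ℝ) = n * ∏ p ∈ n.primeFactors, (1 - 1 / (p : ℝ)) := by
    have := congrArg (fun z : ℚ => (z : ℝ)) h
    push_cast at this
    rw [this]
    congr 1
    apply Finset.prod_congr rfl
    intro p _
    rw [one_div]
  have hnr : (0 : ℝ) < n := by exact_mod_cast hn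
  have h3 : (n.totient : ℝ) / n = ∏ p ∈ n.primeFactors, (1 - 1 / (p : ℝ)) := by
    rw [h', mul_div_cancel_left₀ _ hnr.ne']
  rw [h3]
  have := zq_prod n.primeFactors (fun p hp => (Nat.prime_of_mem_primeFactors hp).one_lt.le)
  exact ⟨this.1, this.2.2⟩

/-- number of prime factors -/
theorem zq_omega (n : ℕ) (hn : 0 < n) :
    (n.primeFactors.card : ℝ) * Real.log 2 ≤ Real.log n := by
  have h1 : 2 ^ n.primeFactors.card ≤ ∏ p ∈ n.primeFactors, p :=
    Finset.pow_card_le_prod _ _ _ (fun p hp => (Nat.prime_of_mem_primeFactors hp).two_le)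
  have h2 : ∏ p ∈ n.primeFactors, p ≤ n := Nat.le_of_dvd hn (Nat.prod_primeFactors_dvd n)
  have h3 : ((2 : ℝ) ^ n.primeFactors.card) ≤ n := by exact_mod_cast h1.trans h2
  have h4 := Real.log_le_log (by positivity) h3
  rwa [Real.log_pow] at h4

theorem zq_sq (K : ℕ) : ∑ m ∈ Finset.Icc 3 K, 1 / (m : ℝ) ^ 2 ≤ 1 / 2 := by
  have h : ∀ K : ℕ, 2 ≤ K → ∑ m ∈ Finset.Icc 3 K, 1 / (m : ℝ) ^ 2 ≤ 1 / 2 - 1 / (K : ℝ) := by
    intro K hK
    induction K, hK using Nat.le_induction with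
    | base => simp
    | succ k hk ih =>
      rw [Finset.sum_Icc_succ_top (by omega)]
      have hk0 : (0 : ℝ) < k := by
        have : 0 < k := by omega
        exact_mod_cast this
      have h1 : 1 / (((k + 1 : ℕ) : ℝ)) ^ 2 ≤ 1 / (k : ℝ) - 1 / ((k + 1 : ℕ) : ℝ) := by
        push_cast
        rw [div_sub_div _ _ hk0.ne' (by positivity), div_le_div_iff₀ (by positivity) (by positivity)]
        nlinarith
      linarith
  rcases le_or_gt 2 K with h2 | h2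
  · have := h K h2
    have h3 : (0 : ℝ) ≤ 1 / (K : ℝ) := by positivity
    linarith
  · have : Finset.Icc 3 K = ∅ := Finset.Icc_eq_empty (by omega)
    rw [this]
    simp

/-- the integers in question without the condition on `F` -/
noncomputable def zq_N (θ D : ℝ) (q : ℕ) (r : ℤ) : Finset ℕ :=
  (Finset.Icc 1 ⌊(1 + θ) * D⌋₊).filter
    (fun n : ℕ => D < (n : ℝ) ∧ Odd n ∧ (q : ℤ) ∣ (n : ℤ) - r)

theorem zq_mem {θ D : ℝ} (hθ : 0 < θ) (hD : 0 ≤ D) (q : ℕ) (r : ℤ) (n : ℕ) :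
    n ∈ zq_N θ D q r ↔ D < (n : ℝ) ∧ (n : ℝ) ≤ (1 + θ) * D ∧ Odd n ∧ (q : ℤ) ∣ (n : ℤ) - r := by
  unfold zq_N
  rw [Finset.mem_filter, Finset.mem_Icc, Nat.le_floor_iff (by positivity)]
  constructor
  · intro h
    exact ⟨h.2.1, h.1.2, h.2.2⟩
  · intro h
    refine ⟨⟨?_, h.2.1⟩, h.1, h.2.2⟩
    have : (0 : ℝ) < n := lt_of_le_of_lt hD h.1
    have : 0 < n := by exact_mod_cast this
    exact this

theorem zq_crt {q : ℕ} (hq : Odd q) (r : ℤ) :
    ∃ v : ℤ, ∀ n : ℕ, (Odd n ∧ (q : ℤ) ∣ (n : ℤ) - r) ↔ ((2 * q : ℕ) : ℤ) ∣ (n : ℤ) - v := by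
  obtain ⟨b, hb⟩ := hq
  have hv : ∃ v : ℤ, (∃ a : ℤ, v = 2 * a + 1) ∧ (q : ℤ) ∣ v - r := by
    rcases Int.even_or_odd' r with ⟨a, ha | ha⟩
    · refine ⟨r + q, ⟨a + b, ?_⟩, ⟨1, by ring⟩⟩
      rw [ha, hb]
      push_cast
      ring
    · exact ⟨r, ⟨a, ha⟩, ⟨0, by ring⟩⟩
  obtain ⟨v, ⟨a, ha⟩, hvq⟩ := hv
  refine ⟨v, fun n => ⟨?_, ?_⟩⟩
  · rintro ⟨⟨c, hc⟩, h⟩
    have h1 : (2 : ℤ) ∣ (n : ℤ) - v := by
      rw [hc, ha]
      push_cast
      exact ⟨(c : ℤ) - a, by ring⟩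
    have h2 : (q : ℤ) ∣ (n : ℤ) - v := by
      have := dvd_sub h hvq
      have h3 : (n : ℤ) - r - (v - r) = (n : ℤ) - v := by ring
      rwa [h3] at this
    have hcop : IsCoprime (2 : ℤ) (q : ℤ) := by
      refine ⟨-(b : ℤ), 1, ?_⟩
      rw [hb]
      push_cast
      ring
    have := hcop.mul_dvd h1 h2
    push_cast
    exact this
  · rintro ⟨t, ht⟩
    push_cast at ht
    constructor
    · rw [Nat.odd_iff]
      have h1 : (n : ℤ) = 2 * ((q : ℤ) * t + a) + 1 := by linear_combination ht + ha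
      generalize (q : ℤ) * t + a = w at h1
      omega
    · have h1 : (q : ℤ) ∣ (n : ℤ) - v := ⟨2 * t, by rw [ht]; ring⟩
      have := dvd_add h1 hvq
      have h3 : (n : ℤ) - v + (v - r) = (n : ℤ) - r := by ring
      rwa [h3] at this

theorem zq_low {θ D : ℝ} (hθ : 0 < θ) (hD : 0 ≤ D) {q : ℕ} (hq : Odd q) (r : ℤ) :
    θ * D / (2 * q) - 1 ≤ ((zq_N θ D q r).card : ℝ) := by
  obtain ⟨v, hv⟩ := zq_crt hq r
  have hq0 : 0 < 2 * q := by
    have := hq.pos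
    omega
  have h := zq_ge hq0 v D ((1 + θ) * D) hD (zq_N θ D q r) (by
    intro n h1 h2 h3
    rw [zq_mem hθ hD]
    exact ⟨h1, h2, (hv n).mpr h3⟩)
  have h2 : ((1 + θ) * D - D) / ((2 * q : ℕ) : ℝ) = θ * D / (2 * q) := by
    push_cast
    ring
  rw [h2] at h
  exact h

theorem zq_up {θ D : ℝ} (hθ : 0 < θ) (hD : 0 ≤ D) {q : ℕ} (hq : Odd q) (r : ℤ) (p : ℕ)
    (hp : p.Prime) (h2 : p ≠ 2) (hpq : ¬ p ∣ q) (w : ℤ) (T : Finset ℕ)
    (hT : ∀ n ∈ T, n ∈ zq_N θ D q r ∧ (p : ℤ) ∣ (n : ℤ) - w) :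
    (T.card : ℝ) ≤ θ * D / (2 * q) / p + 1 := by
  obtain ⟨v, hv⟩ := zq_crt hq r
  have hq0 : 0 < q := hq.pos
  rcases T.eq_empty_or_nonempty with h | ⟨n0, hn0⟩
  · rw [h, Finset.card_empty, Nat.cast_zero]
    positivity
  · have hm : 0 < 2 * q * p := by
      have := hp.pos
      positivity
    have hcop : IsCoprime (((2 * q : ℕ) : ℤ)) (p : ℤ) := by
      rw [Nat.isCoprime_iff_coprime]
      rw [Nat.coprime_comm, Nat.Prime.coprime_iff_not_dvd hp, hp.dvd_mul]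
      rintro (h | h)
      · exact h2 ((Nat.prime_dvd_prime_iff_eq hp Nat.prime_two).mp h)
      · exact hpq h
    have h := zq_le hm (n0 : ℤ) D ((1 + θ) * D) (by nlinarith) T (by
      intro n hn
      obtain ⟨h1, h2⟩ := hT n hn
      obtain ⟨h1', h2'⟩ := hT n0 hn0
      rw [zq_mem hθ hD] at h1 h1'
      refine ⟨h1.1, h1.2.1, ?_⟩
      have e1 := (hv n).mp h1.2.2
      have e2 := (hv n0).mp h1'.2.2
      have e3 : ((2 * q : ℕ) : ℤ) ∣ (n : ℤ) - n0 := by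
        have := dvd_sub e1 e2
        have h3 : (n : ℤ) - v - ((n0 : ℤ) - v) = (n : ℤ) - n0 := by ring
        rwa [h3] at this
      have e4 : (p : ℤ) ∣ (n : ℤ) - n0 := by
        have := dvd_sub h2 h2'
        have h3 : (n : ℤ) - w - ((n0 : ℤ) - w) = (n : ℤ) - n0 := by ring
        rwa [h3] at this
      have := hcop.mul_dvd e3 e4
      rw [Nat.cast_mul]
      exact this)
    have h3 : ((1 + θ) * D - D) / ((2 * q * p : ℕ) : ℝ) = θ * D / (2 * q) / p := by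
      push_cast
      have hp0 : (p : ℝ) ≠ 0 := by exact_mod_cast hp.pos.ne'
      have hq1 : (q : ℝ) ≠ 0 := by exact_mod_cast hq0.ne'
      field_simp
      ring
    rw [h3] at h
    exact h

/-- the small primes -/
noncomputable def zq_T (L : ℝ) (q : ℕ) : Finset ℕ :=
  (Finset.Icc 3 ⌊L ^ 2⌋₊).filter (fun p => p.Prime ∧ ¬ p ∣ q)

theorem zq_recip {θ D : ℝ} (hθ : 0 < θ) (hθ1 : θ ≤ 1) (hD : 1 < D) {q : ℕ} (r : ℤ)
    (hr : IsCoprime r (q : ℤ)) (hL : 2 ≤ Real.log D) (n : ℕ) (hn : n ∈ zq_N θ D q r) :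
    ∑ p ∈ n.primeFactors, 1 / (p : ℝ) ≤
      ∑ p ∈ zq_T (Real.log D) q, (if p ∣ n then 1 / (p : ℝ) else 0) + 2 / Real.log D := by
  rw [zq_mem hθ (by linarith)] at hn
  obtain ⟨h1, h2, h3, h4⟩ := hn
  set L := Real.log D with hLdef
  have hn0 : 0 < n := by
    have : (0 : ℝ) < n := by linarith
    exact_mod_cast this
  have hnr : (0 : ℝ) < n := by exact_mod_cast hn0
  rw [← Finset.sum_filter_add_sum_filter_not n.primeFactors (fun p : ℕ => (p : ℝ) ≤ L ^ 2)]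
  apply add_le_add
  · rw [← Finset.sum_filter]
    apply Finset.sum_le_sum_of_subset_of_nonneg
    · intro p hp
      rw [Finset.mem_filter] at hp
      obtain ⟨hp1, hp2⟩ := hp
      have hpp := Nat.prime_of_mem_primeFactors hp1
      have hpd := Nat.dvd_of_mem_primeFactors hp1
      unfold zq_T
      rw [Finset.mem_filter, Finset.mem_filter, Finset.mem_Icc]
      refine ⟨⟨⟨?_, Nat.le_floor hp2⟩, hpp, ?_⟩, hpd⟩
      · have hne : p ≠ 2 := by
          intro h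
          rw [h] at hpd
          rw [Nat.odd_iff] at h3
          omega
        have := hpp.two_le
        omega
      · intro hpq
        have e1 : (p : ℤ) ∣ (q : ℤ) := by exact_mod_cast hpq
        have e2 : (p : ℤ) ∣ (n : ℤ) := by exact_mod_cast hpd
        have e3 : (p : ℤ) ∣ r := by
          have := dvd_sub e2 (e1.trans h4)
          rwa [sub_sub_cancel] at this
        have e4 : IsUnit (p : ℤ) := hr.isUnit_of_dvd' e3 e1
        have e5 : Prime (p : ℤ) := Nat.prime_iff_prime_int.mp hpp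
        exact e5.not_isUnit e4
    · intro p _ _
      positivity
  · have hb : ∀ p ∈ n.primeFactors.filter (fun p : ℕ => ¬ (p : ℝ) ≤ L ^ 2),
        1 / (p : ℝ) ≤ 1 / L ^ 2 := by
      intro p hp
      rw [Finset.mem_filter, not_le] at hp
      apply one_div_le_one_div_of_le (by positivity) hp.2.le
    refine le_trans (Finset.sum_le_card_nsmul _ _ _ hb) ?_
    rw [nsmul_eq_mul]
    have hc : ((n.primeFactors.filter (fun p : ℕ => ¬ (p : ℝ) ≤ L ^ 2)).card : ℝ) ≤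
        (n.primeFactors.card : ℝ) := by
      exact_mod_cast Finset.card_filter_le _ _
    have hom := zq_omega n hn0
    have hlog2 : (0.6931471803 : ℝ) < Real.log 2 := Real.log_two_gt_d9
    have hlogn : Real.log n ≤ Real.log 2 + L := by
      have : (n : ℝ) ≤ 2 * D := by nlinarith
      have h5 := Real.log_le_log hnr this
      rwa [Real.log_mul (by norm_num) (by linarith)] at h5
    have hL0 : 0 < L := by linarith
    have hlog2' : Real.log 2 < 0.6931471808 := Real.log_two_lt_d9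
    have h6 : (n.primeFactors.card : ℝ) ≤ 2 * L := by
      by_contra hcon
      push Not at hcon
      have h7 : 2 * L * Real.log 2 < (n.primeFactors.card : ℝ) * Real.log 2 :=
        mul_lt_mul_of_pos_right hcon (by linarith)
      nlinarith
    have h8 : (n.primeFactors.card : ℝ) * (1 / L ^ 2) ≤ 2 * L * (1 / L ^ 2) :=
      mul_le_mul_of_nonneg_right h6 (by positivity)
    have h9 : 2 * L * (1 / L ^ 2) = 2 / L := by
      field_simp
    have h10 : ((n.primeFactors.filter (fun p : ℕ => ¬ (p : ℝ) ≤ L ^ 2)).card : ℝ) * (1 / L ^ 2) ≤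
        (n.primeFactors.card : ℝ) * (1 / L ^ 2) := mul_le_mul_of_nonneg_right hc (by positivity)
    linarith

theorem zq_swap {θ D : ℝ} (hθ : 0 < θ) (hD : 1 < D) {q : ℕ} (hq : Odd q) (r : ℤ) (L : ℝ) :
    ∑ n ∈ zq_N θ D q r, ∑ p ∈ zq_T L q, (if p ∣ n then 1 / (p : ℝ) else 0) ≤
      θ * D / (2 * q) * (1 / 2) + L ^ 2 := by
  have hX : 0 ≤ θ * D / (2 * q) := by
    have : (0 : ℝ) < D := by linarith
    positivity
  rw [Finset.sum_comm]
  have hterm : ∀ p ∈ zq_T L q,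
      ∑ n ∈ zq_N θ D q r, (if p ∣ n then 1 / (p : ℝ) else 0) ≤
        θ * D / (2 * q) * (1 / (p : ℝ) ^ 2) + 1 := by
    intro p hp
    unfold zq_T at hp
    rw [Finset.mem_filter, Finset.mem_Icc] at hp
    obtain ⟨⟨hp3, _⟩, hpp, hpq⟩ := hp
    rw [← Finset.sum_filter, Finset.sum_const, nsmul_eq_mul]
    have hcard := zq_up hθ (by linarith : (0 : ℝ) ≤ D) hq r p hpp (by omega) hpq 0
      ((zq_N θ D q r).filter (fun n => p ∣ n)) (by
        intro n hn
        rw [Finset.mem_filter] at hn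
        refine ⟨hn.1, ?_⟩
        rw [sub_zero]
        exact_mod_cast hn.2)
    have hp0 : (0 : ℝ) < p := by exact_mod_cast hpp.pos
    have hp1 : 1 / (p : ℝ) ≤ 1 := by
      rw [div_le_one hp0]
      exact_mod_cast hpp.one_lt.le
    have h1 : (((zq_N θ D q r).filter (fun n => p ∣ n)).card : ℝ) * (1 / (p : ℝ)) ≤
        (θ * D / (2 * q) / p + 1) * (1 / (p : ℝ)) :=
      mul_le_mul_of_nonneg_right hcard (by positivity)
    have h2 : (θ * D / (2 * q) / p + 1) * (1 / (p : ℝ)) =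
        θ * D / (2 * q) * (1 / (p : ℝ) ^ 2) + 1 / p := by
      field_simp
    linarith
  refine le_trans (Finset.sum_le_sum hterm) ?_
  rw [Finset.sum_add_distrib, ← Finset.mul_sum, Finset.sum_const, nsmul_eq_mul, mul_one]
  have h1 : ∑ p ∈ zq_T L q, 1 / (p : ℝ) ^ 2 ≤ 1 / 2 := by
    refine le_trans ?_ (zq_sq ⌊L ^ 2⌋₊)
    unfold zq_T
    apply Finset.sum_le_sum_of_subset_of_nonneg (Finset.filter_subset _ _)
    intro p _ _
    positivity
  have h2 : ((zq_T L q).card : ℝ) ≤ L ^ 2 := by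
    have h3 : (zq_T L q).card ≤ ⌊L ^ 2⌋₊ := by
      unfold zq_T
      refine le_trans (Finset.card_filter_le _ _) ?_
      rw [Nat.card_Icc]
      omega
    have h4 : ((zq_T L q).card : ℝ) ≤ (⌊L ^ 2⌋₊ : ℝ) := by exact_mod_cast h3
    exact le_trans h4 (Nat.floor_le (by positivity))
  have h5 : θ * D / (2 * q) * ∑ p ∈ zq_T L q, 1 / (p : ℝ) ^ 2 ≤ θ * D / (2 * q) * (1 / 2) :=
    mul_le_mul_of_nonneg_left h1 hX
  linarith

theorem zq_ev (θ : ℝ) (hθ : 0 < θ) : ∃ D₀ : ℝ, ∀ D : ℝ, D₀ ≤ D →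
    1 < D ∧ 40 ≤ Real.log D ∧ Real.log D ^ 2 ≤ θ / 40 * D ^ (1 / 2 : ℝ) := by
  have h1 : ∀ᶠ D : ℝ in Filter.atTop, (1 : ℝ) < D := Filter.eventually_gt_atTop 1
  have h2 : ∀ᶠ D : ℝ in Filter.atTop, (40 : ℝ) ≤ Real.log D :=
    Real.tendsto_log_atTop.eventually_ge_atTop 40
  have h3 := (isLittleO_log_rpow_rpow_atTop (2 : ℝ) (show (0 : ℝ) < 1 / 2 by norm_num)).bound
    (show (0 : ℝ) < θ / 40 by positivity)
  obtain ⟨D₀, hD₀⟩ := Filter.eventually_atTop.mp (h1.and (h2.and h3))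
  refine ⟨D₀, fun D hD => ?_⟩
  obtain ⟨e1, e2, e3⟩ := hD₀ D hD
  refine ⟨e1, e2, ?_⟩
  have e4 : ‖Real.log D ^ (2 : ℝ)‖ = Real.log D ^ 2 := by
    rw [Real.rpow_two, Real.norm_eq_abs, abs_of_nonneg (by positivity)]
  have e5 : ‖D ^ (1 / 2 : ℝ)‖ = D ^ (1 / 2 : ℝ) := by
    rw [Real.norm_eq_abs, abs_of_nonneg (Real.rpow_nonneg (by linarith) _)]
  rw [e4, e5] at e3
  exact e3

/-- block `zq` -/
theorem xs_pr (θ : ℝ) (hθ : 0 < θ) (hθ1 : θ ≤ 1) : ∃ c D₀ : ℝ, 0 < c ∧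
    ∀ (D P : ℝ) (q : ℕ) (r : ℤ) (F : Finset (ℕ × ℤ)), D₀ ≤ D → Real.log D ^ 20 ≤ P → Odd q →
    (q : ℝ) ≤ D ^ (1 / 2 : ℝ) → IsCoprime r (q : ℤ) →
    (∀ a ∈ F, a.1.Prime ∧ P < (a.1 : ℝ) ∧ ¬ a.1 ∣ q) → (F.card : ℝ) ≤ Real.log D ^ 2 →
    c * (D / q) ≤ ∑ n ∈ (Finset.Icc 1 ⌊(1 + θ) * D⌋₊).filter (fun n : ℕ => D < (n : ℝ) ∧ Odd n ∧
      (q : ℤ) ∣ (n : ℤ) - r ∧ ∀ a ∈ F, ¬ (a.1 : ℤ) ∣ (n : ℤ) - a.2), (n.totient : ℝ) / n := by
  classical
  obtain ⟨D₀, hD₀⟩ := zq_ev θ hθ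
  refine ⟨θ / 8, D₀, by positivity, ?_⟩
  intro D P q r F hD hP hq hqD hr hF hFc
  obtain ⟨hD1, hL, hLD⟩ := hD₀ D hD
  have hD0 : 0 < D := by linarith
  have hq0 : (0 : ℝ) < q := by exact_mod_cast hq.pos
  set L := Real.log D with hLdef
  set X : ℝ := θ * D / (2 * q) with hX
  have hL0 : 0 < L := by linarith
  -- the size of `X`
  have hsq : D ^ (1 / 2 : ℝ) * D ^ (1 / 2 : ℝ) = D := by
    rw [← Real.rpow_add hD0]
    norm_num
  have hD2 : 0 < D ^ (1 / 2 : ℝ) := Real.rpow_pos_of_pos hD0 _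
  have hXge : θ / 2 * D ^ (1 / 2 : ℝ) ≤ X := by
    rw [hX, le_div_iff₀ (by positivity)]
    have h1 : θ / 2 * D ^ (1 / 2 : ℝ) * (2 * (q : ℝ)) = θ * (D ^ (1 / 2 : ℝ) * q) := by ring
    rw [h1]
    apply mul_le_mul_of_nonneg_left _ hθ.le
    calc D ^ (1 / 2 : ℝ) * q ≤ D ^ (1 / 2 : ℝ) * D ^ (1 / 2 : ℝ) :=
          mul_le_mul_of_nonneg_left hqD hD2.le
      _ = D := hsq
  have hX20 : 20 * L ^ 2 ≤ X := by
    have : 20 * L ^ 2 ≤ 20 * (θ / 40 * D ^ (1 / 2 : ℝ)) := by linarith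
    linarith
  have hX0 : 0 < X := by
    have : 0 < 20 * L ^ 2 := by positivity
    linarith
  have hPpos : 0 < P := by
    have : (0 : ℝ) < L ^ 20 := by positivity
    linarith
  -- the set
  set S := (Finset.Icc 1 ⌊(1 + θ) * D⌋₊).filter (fun n : ℕ => D < (n : ℝ) ∧ Odd n ∧
      (q : ℤ) ∣ (n : ℤ) - r ∧ ∀ a ∈ F, ¬ (a.1 : ℤ) ∣ (n : ℤ) - a.2) with hS
  set N := zq_N θ D q r with hN
  have hSN : S ⊆ N := by
    intro n hn
    rw [hS, Finset.mem_filter, Finset.mem_Icc] at hn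
    rw [hN]
    unfold zq_N
    rw [Finset.mem_filter, Finset.mem_Icc]
    exact ⟨hn.1, hn.2.1, hn.2.2.1, hn.2.2.2.1⟩
  have hdiff : N \ S ⊆ F.biUnion (fun a => N.filter (fun n : ℕ => (a.1 : ℤ) ∣ (n : ℤ) - a.2)) := by
    intro n hn
    rw [Finset.mem_sdiff] at hn
    obtain ⟨hn1, hn2⟩ := hn
    have hn1' := hn1
    rw [hN] at hn1'
    unfold zq_N at hn1'
    rw [Finset.mem_filter, Finset.mem_Icc] at hn1'
    rw [Finset.mem_biUnion]
    by_contra hcon
    apply hn2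
    rw [hS, Finset.mem_filter, Finset.mem_Icc]
    refine ⟨hn1'.1, hn1'.2.1, hn1'.2.2.1, hn1'.2.2.2, ?_⟩
    intro a ha hdvd
    apply hcon
    exact ⟨a, ha, Finset.mem_filter.mpr ⟨hn1, hdvd⟩⟩
  have hdiffc : ((N \ S).card : ℝ) ≤ (F.card : ℝ) * (X / P + 1) := by
    have h1 : ((N \ S).card : ℝ) ≤
        ∑ a ∈ F, ((N.filter (fun n : ℕ => (a.1 : ℤ) ∣ (n : ℤ) - a.2)).card : ℝ) := by
      have := (Finset.card_le_card hdiff).trans Finset.card_biUnion_le
      exact_mod_cast this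
    refine le_trans h1 ?_
    rw [← nsmul_eq_mul]
    apply Finset.sum_le_card_nsmul
    intro a ha
    obtain ⟨hap, haP, haq⟩ := hF a ha
    have ha2 : a.1 ≠ 2 := by
      intro h
      rw [h] at haP
      have h20 : (40 : ℝ) ≤ L ^ 20 := by
        calc (40 : ℝ) ≤ L := hL
          _ = L ^ 1 := (pow_one L).symm
          _ ≤ L ^ 20 := pow_le_pow_right₀ (by linarith) (by norm_num)
      push_cast at haP
      linarith
    have := zq_up hθ hD0.le hq r a.1 hap ha2 haq a.2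
      (N.filter (fun n : ℕ => (a.1 : ℤ) ∣ (n : ℤ) - a.2)) (by
        intro n hn
        rw [Finset.mem_filter] at hn
        exact ⟨hn.1, hn.2⟩)
    have h3 : X / (a.1 : ℝ) ≤ X / P := div_le_div_of_nonneg_left hX0.le hPpos haP.le
    linarith
  have hN1 : X - 1 ≤ (N.card : ℝ) := zq_low hθ hD0.le hq r
  -- the sum over `N`
  have hsumN : (N.card : ℝ) * (1 - 2 / L) - (X * (1 / 2) + L ^ 2) ≤
      ∑ n ∈ N, (n.totient : ℝ) / n := by
    have h1 : ∀ n ∈ N, (1 - 2 / L) -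
        ∑ p ∈ zq_T L q, (if p ∣ n then 1 / (p : ℝ) else 0) ≤ (n.totient : ℝ) / n := by
      intro n hn
      have h2 := zq_recip hθ hθ1 hD1 r hr (by linarith) n hn
      have hn0 : 0 < n := by
        have hn' := hn
        rw [hN, zq_mem hθ hD0.le] at hn'
        have : (0 : ℝ) < n := by linarith [hn'.1]
        exact_mod_cast this
      have h3 := (zq_phi n hn0).1
      linarith
    have h2 := Finset.sum_le_sum h1
    rw [Finset.sum_sub_distrib, Finset.sum_const, nsmul_eq_mul] at h2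
    have h3 := zq_swap hθ hD1 hq r L
    linarith
  have hsplit : ∑ n ∈ S, (n.totient : ℝ) / n =
      ∑ n ∈ N, (n.totient : ℝ) / n - ∑ n ∈ N \ S, (n.totient : ℝ) / n := by
    rw [← Finset.sum_sdiff hSN]
    ring
  have hbad : ∑ n ∈ N \ S, (n.totient : ℝ) / n ≤ ((N \ S).card : ℝ) := by
    have : ∀ n ∈ N \ S, (n.totient : ℝ) / n ≤ 1 := by
      intro n hn
      have hn' := (Finset.mem_sdiff.mp hn).1
      rw [hN, zq_mem hθ hD0.le] at hn'
      have hn0 : 0 < n := by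
        have : (0 : ℝ) < n := by linarith [hn'.1]
        exact_mod_cast this
      exact (zq_phi n hn0).2
    have h2 := Finset.sum_le_card_nsmul _ _ _ this
    rw [nsmul_eq_mul, mul_one] at h2
    exact h2
  have hFX : (F.card : ℝ) * (X / P + 1) ≤ X / 20 + L ^ 2 := by
    have h1 : (F.card : ℝ) * (X / P + 1) ≤ L ^ 2 * (X / P + 1) :=
      mul_le_mul_of_nonneg_right hFc (by positivity)
    have h2 : L ^ 2 * (X / P) ≤ X / 20 := by
      rw [mul_div_assoc', div_le_iff₀ hPpos]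
      have h3 : 20 * L ^ 2 ≤ P := by
        have h4 : (20 : ℝ) ≤ L ^ 18 := by
          calc (20 : ℝ) ≤ L := by linarith
            _ = L ^ 1 := (pow_one L).symm
            _ ≤ L ^ 18 := pow_le_pow_right₀ (by linarith) (by norm_num)
        calc 20 * L ^ 2 ≤ L ^ 18 * L ^ 2 := mul_le_mul_of_nonneg_right h4 (by positivity)
          _ = L ^ 20 := by ring
          _ ≤ P := hP
      nlinarith
    nlinarith
  have h2L : 2 / L ≤ 1 / 20 := by
    rw [div_le_div_iff₀ hL0 (by norm_num)]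
    linarith
  have hNc : (X - 1) * (19 / 20) ≤ (N.card : ℝ) * (1 - 2 / L) := by
    have hX1 : 0 ≤ X - 1 := by nlinarith
    calc (X - 1) * (19 / 20) ≤ (X - 1) * (1 - 2 / L) :=
          mul_le_mul_of_nonneg_left (by linarith) hX1
      _ ≤ (N.card : ℝ) * (1 - 2 / L) := mul_le_mul_of_nonneg_right hN1 (by linarith)
  have hfin : θ / 8 * (D / q) = X / 4 := by
    rw [hX]
    field_simp
    ring
  rw [hfin, hsplit]
  have hL2 : 1600 ≤ L ^ 2 := by nlinarith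
  linarith

theorem xs : type_of% @xs_pr := @xs_pr

end Pool.Agent.PENT
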