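import Pool.Agent.Lib_helper8.PENT.ZDefs
import Pool.Agent.Lib_helper8.PENT.B.zk

/-! Block `zl` of part ZS (project PENT): the singular product. -/

set_option autoImplicit false

namespace Pool.Agent.PENT

/-- `1 - g ≥ exp (- g - 3 g²)` for `g ≤ 2/3` -/
theorem zl_exp {g : ℝ} (h1 : g ≤ 2 / 3) : Real.exp (-(g + 3 * g ^ 2)) ≤ 1 - g := by
  have h2 : 0 < 1 - g := by linarith
  have h3 : g / (1 - g) ≤ g + 3 * g ^ 2 := by
    rw [div_le_iff₀ h2]
    nlinarith [mul_nonneg (sq_nonneg g) (by linarith : (0 : ℝ) ≤ 2 - 3 * g)]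
  have h4 : g / (1 - g) + 1 ≤ Real.exp (g / (1 - g)) := Real.add_one_le_exp _
  have h5 : g / (1 - g) + 1 = (1 - g)⁻¹ := by
    field_simp
    ring
  rw [h5] at h4
  calc Real.exp (-(g + 3 * g ^ 2)) ≤ Real.exp (-(g / (1 - g))) :=
        Real.exp_le_exp.2 (by linarith)
    _ = (Real.exp (g / (1 - g)))⁻¹ := Real.exp_neg _
    _ ≤ ((1 - g)⁻¹)⁻¹ := inv_anti₀ (inv_pos.2 h2) h4
    _ = 1 - g := inv_inv _

/-- sums of `1 / p²` are bounded -/
theorem zl_sq : ∃ C : ℝ, 0 ≤ C ∧ ∀ S : Finset ℕ, ∑ p ∈ S, 1 / (p : ℝ) ^ 2 ≤ C := by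
  have h : Summable fun n : ℕ => 1 / (n : ℝ) ^ 2 :=
    Real.summable_one_div_nat_pow.2 (by norm_num)
  refine ⟨∑' n : ℕ, 1 / (n : ℝ) ^ 2, tsum_nonneg fun n => by positivity, fun S => ?_⟩
  exact h.sum_le_tsum S fun n _ => by positivity

/-- the sum over a set of primes `1 mod 4` at most `z` -/
theorem zl_s14 {z : ℝ} (hz : 0 ≤ z) (T : Finset ℕ)
    (hT : ∀ p ∈ T, p.Prime ∧ (p : ℝ) ≤ z ∧ p % 4 = 1) : ∑ p ∈ T, 1 / (p : ℝ) ≤ s14 z := by
  unfold s14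
  refine Finset.sum_le_sum_of_subset_of_nonneg (fun p hp => ?_) (fun p _ _ => by positivity)
  obtain ⟨h1, h2, h3⟩ := hT p hp
  rw [Finset.mem_filter, Finset.mem_Icc]
  exact ⟨⟨h1.one_lt.le, (Nat.le_floor_iff hz).2 h2⟩, h1, h3⟩

theorem prod_ge_pr (α : ℝ) (hα : 0 < α) (hα1 : α ≤ 1) : ∃ c : ℝ, 0 < c ∧
    ∀ (P Y : ℝ) (S : Finset ℕ) (g : ℕ → ℝ), 2 ≤ P → P ≤ Y →
    (∀ p ∈ S, p.Prime ∧ (p : ℝ) ≤ Y ∧ (P < (p : ℝ) → p % 4 = 1)) →
    (∀ p ∈ S, 0 ≤ g p ∧ g p ≤ 2 / (p : ℝ) ∧ (p = 2 → g p ≤ 1 / 2) ∧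
      (p % 4 = 3 → g p ≤ 1 / (p : ℝ) ^ 2) ∧ (P < (p : ℝ) → g p ≤ (1 - α) * (2 / (p : ℝ)))) →
    c * Real.log P ^ (-α) * Real.log Y ^ (α - 1) ≤ ∏ p ∈ S, (1 - g p) := by
  obtain ⟨C, hC0, hC⟩ := mertens_s14
  obtain ⟨D, hD0, hD⟩ := zl_sq
  refine ⟨Real.exp (-(14 * D + 2 * C)), Real.exp_pos _, ?_⟩
  intro P Y S g hP hPY hS hg
  have hY : 2 ≤ Y := hP.trans hPY
  have hlP : 0 < Real.log P := Real.log_pos (by linarith)
  have hlY : 0 < Real.log Y := Real.log_pos (by linarith)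
  -- the range of `g`
  have hp2 : ∀ p ∈ S, (2 : ℝ) ≤ p := fun p hp => by exact_mod_cast (hS p hp).1.two_le
  have hg23 : ∀ p ∈ S, g p ≤ 2 / 3 := by
    intro p hp
    obtain ⟨_, h2, h3, _, _⟩ := hg p hp
    by_cases h : p = 2
    · exact (h3 h).trans (by norm_num)
    · have h4 : 3 ≤ p := by
        have := (hS p hp).1.two_le
        omega
      have h5 : (3 : ℝ) ≤ p := by exact_mod_cast h4
      refine h2.trans ?_
      exact div_le_div_of_nonneg_left (by norm_num) (by norm_num) h5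
  -- the product
  have hprod : Real.exp (-∑ p ∈ S, (g p + 3 * g p ^ 2)) ≤ ∏ p ∈ S, (1 - g p) := by
    rw [← Finset.sum_neg_distrib, Real.exp_sum]
    exact Finset.prod_le_prod (fun _ _ => (Real.exp_pos _).le)
      (fun p hp => zl_exp (hg23 p hp))
  -- termwise bound
  have hterm : ∀ p ∈ S, g p + 3 * g p ^ 2 ≤ 14 * (1 / (p : ℝ) ^ 2) +
      ((1 - α) * 2 * (if p % 4 = 1 then 1 / (p : ℝ) else 0) +
        2 * α * (if p % 4 = 1 ∧ (p : ℝ) ≤ P then 1 / (p : ℝ) else 0)) := by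
    intro p hp
    obtain ⟨h1, h2, h3, h4, h5⟩ := hg p hp
    have hpp : (0 : ℝ) < p := by linarith [hp2 p hp]
    have hsq : g p ^ 2 ≤ 4 * (1 / (p : ℝ) ^ 2) := by
      calc g p ^ 2 ≤ (2 / (p : ℝ)) ^ 2 := pow_le_pow_left₀ h1 h2 2
        _ = 4 * (1 / (p : ℝ) ^ 2) := by rw [div_pow]; ring
    have hpos : (0 : ℝ) ≤ 1 / (p : ℝ) ^ 2 := by positivity
    have hmod : p = 2 ∨ p % 4 = 1 ∨ p % 4 = 3 := by
      rcases (hS p hp).1.eq_two_or_odd with h | h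
      · exact Or.inl h
      · right; omega
    rcases hmod with h | h | h
    · subst h
      have h8 := h3 rfl
      have h9 : g 2 ^ 2 ≤ 1 := by nlinarith
      norm_num
      linarith
    · rw [if_pos h]
      by_cases hle : (p : ℝ) ≤ P
      · rw [if_pos ⟨h, hle⟩]
        have : g p ≤ (1 - α) * 2 * (1 / (p : ℝ)) + 2 * α * (1 / (p : ℝ)) := by
          refine h2.trans (le_of_eq ?_)
          ring
        linarith
      · rw [if_neg (fun hh => hle hh.2)]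
        have := h5 (not_le.1 hle)
        have h6 : (1 - α) * (2 / (p : ℝ)) = (1 - α) * 2 * (1 / (p : ℝ)) := by ring
        linarith
    · have h7 : ¬ (p % 4 = 1) := by omega
      rw [if_neg h7, if_neg (fun hh => h7 hh.1)]
      have := h4 h
      linarith
  have hsum : ∑ p ∈ S, (g p + 3 * g p ^ 2) ≤ 14 * D + ((1 - α) * 2 * s14 Y + 2 * α * s14 P) := by
    refine (Finset.sum_le_sum hterm).trans ?_
    rw [Finset.sum_add_distrib, Finset.sum_add_distrib, ← Finset.mul_sum, ← Finset.mul_sum,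
      ← Finset.mul_sum, ← Finset.sum_filter, ← Finset.sum_filter]
    have e1 := hD S
    have e2 : ∑ p ∈ S.filter (fun p => p % 4 = 1), 1 / (p : ℝ) ≤ s14 Y :=
      zl_s14 (by linarith) _ (fun p hp => by
        rw [Finset.mem_filter] at hp
        exact ⟨(hS p hp.1).1, (hS p hp.1).2.1, hp.2⟩)
    have e3 : ∑ p ∈ S.filter (fun p : ℕ => p % 4 = 1 ∧ (p : ℝ) ≤ P), 1 / (p : ℝ) ≤ s14 P :=
      zl_s14 (by linarith) _ (fun p hp => by
        rw [Finset.mem_filter] at hp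
        exact ⟨(hS p hp.1).1, hp.2.2, hp.2.1⟩)
    have e4 : (1 - α) * 2 * ∑ p ∈ S.filter (fun p => p % 4 = 1), 1 / (p : ℝ) ≤
        (1 - α) * 2 * s14 Y := mul_le_mul_of_nonneg_left e2 (by linarith)
    have e5 : 2 * α * ∑ p ∈ S.filter (fun p : ℕ => p % 4 = 1 ∧ (p : ℝ) ≤ P), 1 / (p : ℝ) ≤
        2 * α * s14 P := mul_le_mul_of_nonneg_left e3 (by linarith)
    linarith
  have hY1 := (abs_le.1 (hC Y hY)).2
  have hP1 := (abs_le.1 (hC P hP)).2
  have hfin : ∑ p ∈ S, (g p + 3 * g p ^ 2) ≤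
      14 * D + 2 * C + α * Real.log (Real.log P) + (1 - α) * Real.log (Real.log Y) := by
    have e4 : (1 - α) * 2 * s14 Y ≤ (1 - α) * 2 * (1 / 2 * Real.log (Real.log Y) + C) :=
      mul_le_mul_of_nonneg_left (by linarith) (by linarith)
    have e5 : 2 * α * s14 P ≤ 2 * α * (1 / 2 * Real.log (Real.log P) + C) :=
      mul_le_mul_of_nonneg_left (by linarith) (by linarith)
    refine hsum.trans ?_
    refine (add_le_add_right (add_le_add e4 e5) _).trans (le_of_eq ?_)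
    ring
  refine le_trans ?_ hprod
  rw [Real.rpow_def_of_pos hlP, Real.rpow_def_of_pos hlY, ← Real.exp_add, ← Real.exp_add]
  refine Real.exp_le_exp.2 ?_
  nlinarith [hfin]

theorem prod_ge : type_of% @prod_ge_pr := @prod_ge_pr

end Pool.Agent.PENT
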