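import Mathlib
import Pool.Agent.Lib_helper8.PENT.YDefs
import Pool.Agent.Lib_helper8.PENT.ZDefs
import Pool.Agent.Lib_helper39.PEQF.All

set_option autoImplicit false

namespace Pool.Agent.PENT

open Finset

theorem yb_per (m : ℕ) (h : ℤ × ℤ × ℤ → ℝ) (hh : EQ.Per3 m h) :
    EQ.Per m (fun g => h (EQ.QQ g)) := by
  intro g g' h1 h2 h3 h4
  refine hh _ _ ?_ ?_ ?_
  · have e : (EQ.QQ g).1 - (EQ.QQ g').1 =
        (g.1 - g'.1) * (g.1 + g'.1) + (g.2.2.1 - g'.2.2.1) * (g.2.2.1 + g'.2.2.1) := by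
      simp only [EQ.QQ]
      ring
    rw [e]
    exact dvd_add (h1.mul_right _) (h3.mul_right _)
  · have e : (EQ.QQ g).2.1 - (EQ.QQ g').2.1 =
        ((g.1 - g'.1) * g.2.1 + (g.2.1 - g'.2.1) * g'.1) +
          ((g.2.2.1 - g'.2.2.1) * g.2.2.2 + (g.2.2.2 - g'.2.2.2) * g'.2.2.1) := by
      simp only [EQ.QQ]
      ring
    rw [e]
    exact dvd_add (dvd_add (h1.mul_right _) (h2.mul_right _))
      (dvd_add (h3.mul_right _) (h4.mul_right _))
  · have e : (EQ.QQ g).2.2 - (EQ.QQ g').2.2 =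
        (g.2.1 - g'.2.1) * (g.2.1 + g'.2.1) + (g.2.2.2 - g'.2.2.2) * (g.2.2.2 + g'.2.2.2) := by
      simp only [EQ.QQ]
      ring
    rw [e]
    exact dvd_add (h2.mul_right _) (h4.mul_right _)

theorem MV_dvd_pr (m n : ℕ) (hn : Odd n) (hmn : m ∣ n) (h : ℤ × ℤ × ℤ → ℝ) (hh : EQ.Per3 m h) :
    EQ.MV n h = EQ.MV m h := by
  have hm : Odd m := Odd.of_dvd_nat hn hmn
  have n0 : n ≠ 0 := by
    rintro rfl
    exact absurd hn (by decide)
  have m0 : m ≠ 0 := by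
    rintro rfl
    exact absurd hm (by decide)
  have i1 : NeZero n := ⟨n0⟩
  have i2 : NeZero m := ⟨m0⟩
  have hdvd : (m : ℤ) ∣ (n : ℤ) := by exact_mod_cast hmn
  have hh' : EQ.Per3 n h := by
    intro v w h1 h2 h3
    exact hh v w (hdvd.trans h1) (hdvd.trans h2) (hdvd.trans h3)
  rw [← EQ.EM_form n hn h hh', ← EQ.EM_form m hm h hh]
  exact EQ.EM_dvd m n hmn _ (yb_per m h hh)

theorem MV_dvd : type_of% @MV_dvd_pr := @MV_dvd_pr

end Pool.Agent.PENT
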