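import Pool.Agent.Lib_helper8.PENT.YDefs
import Pool.Agent.Lib_helper8.PENT.ZDefs
import Pool.Agent.Lib_helper8.PENT.B.zk

/-! Block `yc` of part YS (project PENT): the singular product for primes `1 mod 4`. -/

set_option autoImplicit false

namespace Pool.Agent.PENT

open Finset

/-- `1 - g ≥ exp (- g - K g²)` for `g ≤ 1 - 1/K` -/
theorem yc_exp {g K : ℝ} (hK : 1 ≤ K) (h1 : g ≤ 1 - 1 / K) :
    Real.exp (-(g + K * g ^ 2)) ≤ 1 - g := by
  have hK0 : 0 < K := by linarith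
  have hKi : 0 < 1 / K := by positivity
  have h2 : 0 < 1 - g := by linarith
  have h3 : g / (1 - g) ≤ g + K * g ^ 2 := by
    rw [div_le_iff₀ h2]
    have h6 : 1 ≤ K * (1 - g) := by
      have := mul_le_mul_of_nonneg_left (show 1 / K ≤ 1 - g by linarith) hK0.le
      rwa [mul_one_div, div_self hK0.ne'] at this
    nlinarith [mul_nonneg (sq_nonneg g) (sub_nonneg.2 h6)]
  have h4 : g / (1 - g) + 1 ≤ Real.exp (g / (1 - g)) := Real.add_one_le_exp _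
  have h5 : g / (1 - g) + 1 = (1 - g)⁻¹ := by
    field_simp
    ring
  rw [h5] at h4
  calc Real.exp (-(g + K * g ^ 2)) ≤ Real.exp (-(g / (1 - g))) :=
        Real.exp_le_exp.2 (by linarith)
    _ = (Real.exp (g / (1 - g)))⁻¹ := Real.exp_neg _
    _ ≤ ((1 - g)⁻¹)⁻¹ := inv_anti₀ (inv_pos.2 h2) h4
    _ = 1 - g := inv_inv _

/-- sums of `1 / p²` are bounded -/
theorem yc_sq : ∃ C : ℝ, 0 ≤ C ∧ ∀ S : Finset ℕ, ∑ p ∈ S, 1 / (p : ℝ) ^ 2 ≤ C := by
  have h : Summable fun n : ℕ => 1 / (n : ℝ) ^ 2 :=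
    Real.summable_one_div_nat_pow.2 (by norm_num)
  refine ⟨∑' n : ℕ, 1 / (n : ℝ) ^ 2, tsum_nonneg fun n => by positivity, fun S => ?_⟩
  exact h.sum_le_tsum S fun n _ => by positivity

/-- the sum over a set of primes `1 mod 4` at most `z` -/
theorem yc_s14 {z : ℝ} (hz : 0 ≤ z) (T : Finset ℕ)
    (hT : ∀ p ∈ T, p.Prime ∧ (p : ℝ) ≤ z ∧ p % 4 = 1) : ∑ p ∈ T, 1 / (p : ℝ) ≤ s14 z := by
  unfold s14
  refine Finset.sum_le_sum_of_subset_of_nonneg (fun p hp => ?_) (fun p _ _ => by positivity)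
  obtain ⟨h1, h2, h3⟩ := hT p hp
  rw [Finset.mem_filter, Finset.mem_Icc]
  exact ⟨⟨h1.one_lt.le, (Nat.le_floor_iff hz).2 h2⟩, h1, h3⟩

/-- the sum over a set of primes `1 mod 4` in `(P, Y]` -/
theorem yc_s14' {P Y : ℝ} (hP : 0 ≤ P) (hPY : P ≤ Y) (T : Finset ℕ)
    (hT : ∀ p ∈ T, p.Prime ∧ (p : ℝ) ≤ Y ∧ p % 4 = 1 ∧ P < (p : ℝ)) :
    ∑ p ∈ T, 1 / (p : ℝ) ≤ s14 Y - s14 P := by
  set U := (Finset.Icc 1 ⌊P⌋₊).filter (fun p => p.Prime ∧ p % 4 = 1) with hU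
  have hdis : Disjoint T U := by
    rw [Finset.disjoint_left]
    intro p hp hpU
    rw [hU, Finset.mem_filter, Finset.mem_Icc] at hpU
    have := (Nat.le_floor_iff hP).1 hpU.1.2
    exact absurd (hT p hp).2.2.2 (not_lt.2 this)
  have h1 : ∑ p ∈ T ∪ U, 1 / (p : ℝ) ≤ s14 Y := by
    apply yc_s14 (hP.trans hPY)
    intro p hp
    rcases Finset.mem_union.1 hp with h | h
    · exact ⟨(hT p h).1, (hT p h).2.1, (hT p h).2.2.1⟩
    · rw [hU, Finset.mem_filter, Finset.mem_Icc] at h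
      exact ⟨h.2.1, ((Nat.le_floor_iff hP).1 h.1.2).trans hPY, h.2.2⟩
  rw [Finset.sum_union hdis] at h1
  have h2 : ∑ p ∈ U, 1 / (p : ℝ) = s14 P := rfl
  linarith

theorem prod_ge2_pr (a b C K : ℝ) (ha : 0 ≤ a) (hb : 0 ≤ b) (hC : 0 ≤ C) (hK : 1 ≤ K) :
    ∃ c : ℝ, 0 < c ∧ ∀ (P Y : ℝ) (S : Finset ℕ) (g : ℕ → ℝ), 2 ≤ P → P ≤ Y →
    (∀ p ∈ S, p.Prime ∧ p % 4 = 1 ∧ (p : ℝ) ≤ Y) →
    (∀ p ∈ S, 0 ≤ g p ∧ g p ≤ 1 - 1 / K ∧
      g p ≤ (if (p : ℝ) ≤ P then a else b) / (p : ℝ) + C / (p : ℝ) ^ 2) →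
    c * Real.log P ^ ((b - a) / 2) * Real.log Y ^ (-b / 2) ≤ ∏ p ∈ S, (1 - g p) := by
  obtain ⟨C1, hC10, hC1⟩ := mertens_s14_pr
  obtain ⟨D, hD0, hD⟩ := yc_sq
  have hK0 : 0 < K := by linarith
  refine ⟨Real.exp (-((C + K * (a + b + C) ^ 2) * D + (a + 2 * b) * C1)), Real.exp_pos _, ?_⟩
  intro P Y S g hP hPY hS hg
  have hY : 2 ≤ Y := hP.trans hPY
  have hlP : 0 < Real.log P := Real.log_pos (by linarith)
  have hlY : 0 < Real.log Y := Real.log_pos (by linarith)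
  have hprod : Real.exp (-∑ p ∈ S, (g p + K * g p ^ 2)) ≤ ∏ p ∈ S, (1 - g p) := by
    rw [← Finset.sum_neg_distrib, Real.exp_sum]
    exact Finset.prod_le_prod (fun _ _ => (Real.exp_pos _).le)
      (fun p hp => yc_exp hK (hg p hp).2.1)
  have hterm : ∀ p ∈ S, g p + K * g p ^ 2 ≤
      (C + K * (a + b + C) ^ 2) * (1 / (p : ℝ) ^ 2) +
      (a * (if (p : ℝ) ≤ P then 1 / (p : ℝ) else 0) +
        b * (if P < (p : ℝ) then 1 / (p : ℝ) else 0)) := by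
    intro p hp
    obtain ⟨h1, _, h3⟩ := hg p hp
    have hp1 : (1 : ℝ) ≤ p := by exact_mod_cast (hS p hp).1.one_lt.le
    have hpp : (0 : ℝ) < p := by linarith
    have hinv : 1 / (p : ℝ) ^ 2 ≤ 1 / (p : ℝ) := by
      apply one_div_le_one_div_of_le hpp
      nlinarith
    have hw : (if (p : ℝ) ≤ P then a else b) / (p : ℝ) =
        a * (if (p : ℝ) ≤ P then 1 / (p : ℝ) else 0) +
          b * (if P < (p : ℝ) then 1 / (p : ℝ) else 0) := by
      by_cases h : (p : ℝ) ≤ P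
      · rw [if_pos h, if_pos h, if_neg (not_lt.2 h)]; ring
      · rw [if_neg h, if_neg h, if_pos (not_le.1 h)]; ring
    have hg1 : g p ≤ (a + b + C) * (1 / (p : ℝ)) := by
      have h5 : (if (p : ℝ) ≤ P then a else b) / (p : ℝ) ≤ (a + b) * (1 / (p : ℝ)) := by
        rw [div_eq_mul_one_div]
        apply mul_le_mul_of_nonneg_right _ (by positivity)
        split_ifs <;> linarith
      have h6 : C / (p : ℝ) ^ 2 ≤ C * (1 / (p : ℝ)) := by
        rw [div_eq_mul_one_div]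
        exact mul_le_mul_of_nonneg_left hinv hC
      linarith
    have hsq : g p ^ 2 ≤ (a + b + C) ^ 2 * (1 / (p : ℝ) ^ 2) := by
      calc g p ^ 2 ≤ ((a + b + C) * (1 / (p : ℝ))) ^ 2 := pow_le_pow_left₀ h1 hg1 2
        _ = (a + b + C) ^ 2 * (1 / (p : ℝ) ^ 2) := by rw [mul_pow, div_pow, one_pow]
    have h7 := mul_le_mul_of_nonneg_left hsq hK0.le
    rw [hw] at h3
    have h8 : C / (p : ℝ) ^ 2 = C * (1 / (p : ℝ) ^ 2) := by rw [div_eq_mul_one_div]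
    nlinarith [h3, h7, h8]
  have hsum : ∑ p ∈ S, (g p + K * g p ^ 2) ≤ (C + K * (a + b + C) ^ 2) * D +
      (a * s14 P + b * (s14 Y - s14 P)) := by
    refine (Finset.sum_le_sum hterm).trans ?_
    rw [Finset.sum_add_distrib, Finset.sum_add_distrib, ← Finset.mul_sum, ← Finset.mul_sum,
      ← Finset.mul_sum, ← Finset.sum_filter, ← Finset.sum_filter]
    have e1 := mul_le_mul_of_nonneg_left (hD S)
      (show 0 ≤ C + K * (a + b + C) ^ 2 by positivity)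
    have e2 : ∑ p ∈ S.filter (fun p : ℕ => (p : ℝ) ≤ P), 1 / (p : ℝ) ≤ s14 P :=
      yc_s14 (by linarith) _ (fun p hp => by
        rw [Finset.mem_filter] at hp
        exact ⟨(hS p hp.1).1, hp.2, (hS p hp.1).2.1⟩)
    have e3 : ∑ p ∈ S.filter (fun p : ℕ => P < (p : ℝ)), 1 / (p : ℝ) ≤ s14 Y - s14 P :=
      yc_s14' (by linarith) hPY _ (fun p hp => by
        rw [Finset.mem_filter] at hp
        exact ⟨(hS p hp.1).1, (hS p hp.1).2.2, (hS p hp.1).2.1, hp.2⟩)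
    have e4 := mul_le_mul_of_nonneg_left e2 ha
    have e5 := mul_le_mul_of_nonneg_left e3 hb
    linarith
  have hY1 := (abs_le.1 (hC1 Y hY)).2
  have hP1 := (abs_le.1 (hC1 P hP)).2
  have hP2 := (abs_le.1 (hC1 P hP)).1
  have hfin : ∑ p ∈ S, (g p + K * g p ^ 2) ≤
      (C + K * (a + b + C) ^ 2) * D + (a + 2 * b) * C1 +
        ((a - b) / 2 * Real.log (Real.log P) + b / 2 * Real.log (Real.log Y)) := by
    have e4 : a * s14 P ≤ a * (1 / 2 * Real.log (Real.log P) + C1) :=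
      mul_le_mul_of_nonneg_left (by linarith) ha
    have e5 : b * (s14 Y - s14 P) ≤
        b * (1 / 2 * Real.log (Real.log Y) - 1 / 2 * Real.log (Real.log P) + 2 * C1) :=
      mul_le_mul_of_nonneg_left (by linarith) hb
    refine hsum.trans ?_
    linarith
  refine le_trans ?_ hprod
  rw [Real.rpow_def_of_pos hlP, Real.rpow_def_of_pos hlY, ← Real.exp_add, ← Real.exp_add]
  refine Real.exp_le_exp.2 ?_
  linarith [hfin]

theorem prod_ge2 : type_of% @prod_ge2_pr := @prod_ge2_pr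

end Pool.Agent.PENT
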