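import Pool.Agent.Lib_helper8.PENT.YDefs
import Pool.Agent.Lib_helper8.PENT.ZDefs

set_option autoImplicit false

namespace Pool.Agent.PENT

open Finset

theorem cm_eq_pr (g : ℕ → ℝ) (S : Finset ℕ) (hS : ∀ p ∈ S, p.Prime) (m : ℕ) (hm : m ≠ 0)
    (h : ∀ p : ℕ, p.Prime → p ∣ m → g p = 1 ∨ (p ∈ S ∧ ¬ p ^ 2 ∣ m)) :
    cm g m = ∏ p ∈ S, if p ∣ m then g p else 1 := by
  classical
  rw [← Finset.prod_filter]
  unfold cm
  rw [Finsupp.prod]
  symm
  have hsub : S.filter (fun p => p ∣ m) ⊆ m.factorization.support := by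
    intro p hp
    rw [Finset.mem_filter] at hp
    rw [Nat.support_factorization, Nat.mem_primeFactors]
    exact ⟨hS p hp.1, hp.2, hm⟩
  rw [← Finset.prod_subset hsub (f := fun p => g p ^ m.factorization p)]
  · apply Finset.prod_congr rfl
    intro p hp
    rw [Finset.mem_filter] at hp
    have hpp := hS p hp.1
    rcases h p hpp hp.2 with h1 | ⟨_, h2⟩
    · rw [h1, one_pow]
    · have h3 : m.factorization p = 1 := by
        have h4 : m.factorization p < 2 := by
          by_contra hc
          push Not at hc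
          exact h2 ((hpp.pow_dvd_iff_le_factorization hm).2 hc)
        have h5 : 1 ≤ m.factorization p :=
          (hpp.dvd_iff_one_le_factorization hm).1 hp.2
        omega
      rw [h3, pow_one]
  · intro p hp hp2
    rw [Nat.support_factorization, Nat.mem_primeFactors] at hp
    rcases h p hp.1 hp.2.1 with h1 | ⟨h1, _⟩
    · rw [h1, one_pow]
    · exfalso
      apply hp2
      rw [Finset.mem_filter]
      exact ⟨h1, hp.2.1⟩

theorem cm_eq : type_of% @cm_eq_pr := @cm_eq_pr

end Pool.Agent.PENT
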