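import Pool.Agent.Lib_helper8.PENT.YDefs
import Pool.Agent.Lib_helper8.PENT.ZDefs

set_option autoImplicit false

namespace Pool.Agent.PENT

open Finset

theorem ye_V3_ne {m : ℕ} (hm : 0 < m) : 0 < (EQ.V3 m).card := by
  rw [Finset.card_pos]
  rcases Nat.eq_or_lt_of_le (Nat.succ_le_of_lt hm) with h | h
  · refine ⟨(0, 0, 0), ?_⟩
    have : m = 1 := by omega
    subst this
    simp [EQ.V3]
  · refine ⟨(1, 0, 1), ?_⟩
    simp only [EQ.V3, Finset.mem_filter, Finset.mem_product, Finset.mem_Ico]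
    refine ⟨⟨⟨by norm_num, by exact_mod_cast h⟩, ⟨by norm_num, by exact_mod_cast hm⟩,
      ⟨by norm_num, by exact_mod_cast h⟩⟩, ?_⟩
    norm_num

theorem MV_mono_pr {m : ℕ} {h h' : ℤ × ℤ × ℤ → ℝ} (hh : ∀ v ∈ EQ.V3 m, h v ≤ h' v) :
    EQ.MV m h ≤ EQ.MV m h' := by
  unfold EQ.MV
  exact div_le_div_of_nonneg_right (Finset.sum_le_sum hh) (Nat.cast_nonneg _)

theorem MV_const_pr {m : ℕ} (hm : 0 < m) (c : ℝ) : EQ.MV m (fun _ => c) = c := by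
  unfold EQ.MV
  have h1 : ((EQ.V3 m).card : ℝ) ≠ 0 := by exact_mod_cast (ye_V3_ne hm).ne'
  rw [Finset.sum_const, nsmul_eq_mul]
  field_simp

theorem MV_add_pr {m : ℕ} (h h' : ℤ × ℤ × ℤ → ℝ) :
    EQ.MV m (fun v => h v + h' v) = EQ.MV m h + EQ.MV m h' := by
  unfold EQ.MV
  rw [Finset.sum_add_distrib, add_div]

theorem MV_smul_pr {m : ℕ} (c : ℝ) (h : ℤ × ℤ × ℤ → ℝ) :
    EQ.MV m (fun v => c * h v) = c * EQ.MV m h := by
  unfold EQ.MV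
  rw [← Finset.mul_sum, mul_div_assoc]

theorem MV_sum_pr {m : ℕ} {ι : Type} (s : Finset ι) (h : ι → ℤ × ℤ × ℤ → ℝ) :
    EQ.MV m (fun v => ∑ i ∈ s, h i v) = ∑ i ∈ s, EQ.MV m (h i) := by
  unfold EQ.MV
  rw [Finset.sum_comm, Finset.sum_div]

theorem ye_dvd_iff (a b d : ℤ) (h : d ∣ a - b) : d ∣ a ↔ d ∣ b := by
  constructor
  · intro h1
    have := dvd_sub h1 h
    simpa using this
  · intro h1
    have := dvd_add h h1
    simpa using this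

theorem per_qv_pr (p k : ℕ) (u : ℤ × ℤ) (v w : ℤ × ℤ × ℤ) (h1 : ((p ^ k : ℕ) : ℤ) ∣ v.1 - w.1)
    (h2 : ((p ^ k : ℕ) : ℤ) ∣ v.2.1 - w.2.1) (h3 : ((p ^ k : ℕ) : ℤ) ∣ v.2.2 - w.2.2) (i : ℕ)
    (hi : i ≤ k) : (p : ℤ) ^ i ∣ qv v u ↔ (p : ℤ) ^ i ∣ qv w u := by
  apply ye_dvd_iff
  have h0 : (p : ℤ) ^ i ∣ ((p ^ k : ℕ) : ℤ) := by
    rw [Nat.cast_pow]
    exact pow_dvd_pow _ hi
  have e : qv v u - qv w u = (v.1 - w.1) * u.1 ^ 2 + (v.2.1 - w.2.1) * (2 * u.1 * u.2) +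
      (v.2.2 - w.2.2) * u.2 ^ 2 := by
    unfold qv qf
    ring
  rw [e]
  exact dvd_add (dvd_add (Dvd.dvd.mul_right (h0.trans h1) _) (Dvd.dvd.mul_right (h0.trans h2) _))
    (Dvd.dvd.mul_right (h0.trans h3) _)

theorem ye_two (u : ℤ × ℤ) (p : ℕ) (v w : ℤ × ℤ × ℤ) (h1 : ((p ^ 2 : ℕ) : ℤ) ∣ v.1 - w.1)
    (h2 : ((p ^ 2 : ℕ) : ℤ) ∣ v.2.1 - w.2.1) (h3 : ((p ^ 2 : ℕ) : ℤ) ∣ v.2.2 - w.2.2) :
    ((p : ℤ) ^ 2 ∣ qv v u ↔ (p : ℤ) ^ 2 ∣ qv w u) ∧ ((p : ℤ) ∣ qv v u ↔ (p : ℤ) ∣ qv w u) := by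
  refine ⟨per_qv_pr p 2 u v w h1 h2 h3 2 le_rfl, ?_⟩
  have := per_qv_pr p 2 u v w h1 h2 h3 1 (by norm_num)
  simpa using this

theorem per_xv_pr (b : ℝ) (u : Fin 5 → ℤ × ℤ) (p : ℕ) : EQ.Per3 (p ^ 2) (xv b u p) := by
  intro v w h1 h2 h3
  have key := fun j => ye_two (u j) p v w h1 h2 h3
  have k1 : (∃ j, ((p : ℤ) ^ 2) ∣ qv v (u j)) ↔ (∃ j, ((p : ℤ) ^ 2) ∣ qv w (u j)) :=
    exists_congr (fun j => (key j).1)
  have k2 : ∀ j, (if (p : ℤ) ∣ qv v (u j) then b else 1) =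
      (if (p : ℤ) ∣ qv w (u j) then b else 1) := by
    intro j
    by_cases hj : (p : ℤ) ∣ qv v (u j)
    · rw [if_pos hj, if_pos ((key j).2.1 hj)]
    · rw [if_neg hj, if_neg (fun hc => hj ((key j).2.2 hc))]
  unfold xv
  by_cases hc : ∃ j, ((p : ℤ) ^ 2) ∣ qv v (u j)
  · rw [if_pos hc, if_pos (k1.1 hc)]
  · rw [if_neg hc, if_neg (fun h => hc (k1.2 h))]
    congr 1
    apply Finset.prod_congr rfl
    intro j _
    have := k2 j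
    convert this using 2

theorem per_iov_pr (u : Fin 5 → ℤ × ℤ) (i : Fin 5) (p : ℕ) : EQ.Per3 (p ^ 2) (iov u i p) := by
  intro v w h1 h2 h3
  have key := fun j => ye_two (u j) p v w h1 h2 h3
  have k1 : okv u i p v ↔ okv u i p w := by
    unfold okv
    rw [(key i).1, (key i).2, (key (i + 1)).1]
    have : (∀ j, j ≠ i → j ≠ i + 1 → ¬ (p : ℤ) ∣ qv v (u j)) ↔
        (∀ j, j ≠ i → j ≠ i + 1 → ¬ (p : ℤ) ∣ qv w (u j)) :=
      forall_congr' (fun j => forall_congr' (fun _ => forall_congr' (fun _ =>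
        not_congr (key j).2)))
    rw [this]
  unfold iov
  by_cases hc : okv u i p v
  · rw [if_pos hc, if_pos (k1.1 hc)]
  · rw [if_neg hc, if_neg (fun h => hc (k1.2 h))]

theorem MV_mono : type_of% @MV_mono_pr := @MV_mono_pr

theorem MV_const : type_of% @MV_const_pr := @MV_const_pr

theorem MV_add : type_of% @MV_add_pr := @MV_add_pr

theorem MV_smul : type_of% @MV_smul_pr := @MV_smul_pr

theorem MV_sum : type_of% @MV_sum_pr := @MV_sum_pr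

theorem per_qv : type_of% @per_qv_pr := @per_qv_pr

theorem per_xv : type_of% @per_xv_pr := @per_xv_pr

theorem per_iov : type_of% @per_iov_pr := @per_iov_pr

end Pool.Agent.PENT
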