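import Pool.Agent.Lib_helper8.PENT.YDefs
import Pool.Agent.Lib_helper8.PENT.ZDefs
import Pool.Agent.Lib_helper18.PENKF.PA4
import Pool.Agent.Lib_helper8.PENT.B.yb

set_option autoImplicit false

namespace Pool.Agent.PENT

open Finset

theorem yf_odd {p : ℕ} (h4 : p % 4 = 1) : Odd (p ^ 2) := by
  have : Odd p := by
    rw [Nat.odd_iff]; omega
  exact this.pow

theorem yf_two {p : ℕ} (hp : p.Prime) (h4 : p % 4 = 1) : 2 < p := by
  have := hp.two_le
  rcases Nat.lt_or_ge 2 p with h | h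
  · exact h
  · exfalso
    have : p = 2 := by omega
    subst this
    omega

theorem yf_per {p : ℕ} (u : ℤ × ℤ) (v w : ℤ × ℤ × ℤ) (h1 : (p : ℤ) ∣ v.1 - w.1)
    (h2 : (p : ℤ) ∣ v.2.1 - w.2.1) (h3 : (p : ℤ) ∣ v.2.2 - w.2.2) :
    (p : ℤ) ∣ qv v u ↔ (p : ℤ) ∣ qv w u := by
  have h : (p : ℤ) ∣ qv v u - qv w u := by
    have e : qv v u - qv w u = (v.1 - w.1) * u.1 ^ 2 + 2 * ((v.2.1 - w.2.1) * (u.1 * u.2)) +
        (v.2.2 - w.2.2) * u.2 ^ 2 := by
      simp only [qv, qf]; ring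
    rw [e]
    exact dvd_add (dvd_add (Dvd.dvd.mul_right h1 _) (Dvd.dvd.mul_left (Dvd.dvd.mul_right h2 _) _))
      (Dvd.dvd.mul_right h3 _)
  constructor
  · intro hv
    have := dvd_sub hv h
    simpa using this
  · intro hw
    have := dvd_add h hw
    simpa using this

/-- block `yf`: the probability that `p` divides `Q(u)`, and `Q(u), Q(v)` for two different lines. -/
theorem MV_one_pr {p : ℕ} (hp : p.Prime) (h4 : p % 4 = 1) (u : ℤ × ℤ)
    (hu : ¬ ((p : ℤ) ∣ u.1 ∧ (p : ℤ) ∣ u.2)) :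
    EQ.MV (p ^ 2) (fun v => if (p : ℤ) ∣ qv v u then 1 else 0) = 2 / ((p : ℝ) + 1) := by
  rw [MV_dvd p (p ^ 2) (yf_odd h4) (dvd_pow_self p two_ne_zero)]
  · have h := PENK.mV_one hp (yf_two hp h4) u hu
    rw [if_pos h4] at h
    rw [← h]
    simp only [EQ.MV, PENK.mV, PENK.ich, EQ.V3, PENK.VV, qv, PENK.Rf]
    congr 1
    apply Finset.sum_congr rfl
    intro v _
    by_cases hv : (p : ℤ) ∣ qf v.1 v.2.1 v.2.2 u
    · exact (if_pos hv).trans (if_pos hv).symm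
    · exact (if_neg hv).trans (if_neg hv).symm
  · intro v w h1 h2 h3
    simp only [yf_per u v w h1 h2 h3]

/-- block `yf` -/
theorem MV_two_pr {p : ℕ} (hp : p.Prime) (h4 : p % 4 = 1) (u v : ℤ × ℤ)
    (huv : ¬ (p : ℤ) ∣ dt u v) :
    EQ.MV (p ^ 2) (fun w => if (p : ℤ) ∣ qv w u ∧ (p : ℤ) ∣ qv w v then 1 else 0) =
      2 / ((p : ℝ) * (p + 1)) := by
  rw [MV_dvd p (p ^ 2) (yf_odd h4) (dvd_pow_self p two_ne_zero)]
  · have h := PENK.mV_two hp (yf_two hp h4) u v huv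
    rw [if_pos h4] at h
    rw [← h]
    simp only [EQ.MV, PENK.mV, PENK.ich, EQ.V3, PENK.VV, qv, PENK.Rf]
    congr 1
    apply Finset.sum_congr rfl
    intro w _
    by_cases hv : (p : ℤ) ∣ qf w.1 w.2.1 w.2.2 u ∧ (p : ℤ) ∣ qf w.1 w.2.1 w.2.2 v
    · exact (if_pos hv).trans (if_pos hv).symm
    · exact (if_neg hv).trans (if_neg hv).symm
  · intro a b h1 h2 h3
    simp only [yf_per u a b h1 h2 h3, yf_per v a b h1 h2 h3]

theorem MV_one : type_of% @MV_one_pr := @MV_one_pr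

theorem MV_two : type_of% @MV_two_pr := @MV_two_pr

end Pool.Agent.PENT
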