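import Pool.Agent.Lib_helper8.PENT.YDefs
import Pool.Agent.Lib_helper8.PENT.ZDefs
import Pool.Agent.Lib_helper8.PENT.B.ya
import Pool.Agent.Lib_helper8.PENT.B.ye
import Pool.Agent.Lib_helper8.PENT.B.yf

/-! Block `yg` (project PENT, part YS), helper42. -/

set_option autoImplicit false

namespace Pool.Agent.PENT

open Finset

theorem yg_three (i : Fin 5) :
    (univ.filter (fun j : Fin 5 => j ≠ i ∧ j ≠ i + 1)).card = 3 := by
  revert i; decide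

open Classical in
theorem yg_point {p : ℕ} (u : Fin 5 → ℤ × ℤ) (i : Fin 5) (v : ℤ × ℤ × ℤ) :
    (if (p : ℤ) ∣ qv v (u i) then (1 : ℝ) else 0) ≤
      iov u i p v + ((if ((p : ℤ) ^ 2) ∣ qv v (u i) then (1 : ℝ) else 0) +
        ((if ((p : ℤ) ^ 2) ∣ qv v (u (i + 1)) then (1 : ℝ) else 0) +
          ∑ j ∈ univ.filter (fun j : Fin 5 => j ≠ i ∧ j ≠ i + 1),
            (if (p : ℤ) ∣ qv v (u i) ∧ (p : ℤ) ∣ qv v (u j) then (1 : ℝ) else 0))) := by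
  have hS : (0 : ℝ) ≤ ∑ j ∈ univ.filter (fun j : Fin 5 => j ≠ i ∧ j ≠ i + 1),
      (if (p : ℤ) ∣ qv v (u i) ∧ (p : ℤ) ∣ qv v (u j) then (1 : ℝ) else 0) := by
    refine Finset.sum_nonneg fun j _ => ?_
    split_ifs <;> norm_num
  have hA : (0 : ℝ) ≤ (if ((p : ℤ) ^ 2) ∣ qv v (u i) then (1 : ℝ) else 0) := by
    split_ifs <;> norm_num
  have hB : (0 : ℝ) ≤ (if ((p : ℤ) ^ 2) ∣ qv v (u (i + 1)) then (1 : ℝ) else 0) := by
    split_ifs <;> norm_num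
  have hI : (0 : ℝ) ≤ iov u i p v := by
    unfold iov
    split_ifs <;> norm_num
  by_cases h1 : (p : ℤ) ∣ qv v (u i)
  · rw [if_pos h1]
    by_cases hok : okv u i p v
    · have : iov u i p v = 1 := by
        unfold iov
        rw [if_pos hok]
      rw [this]
      linarith
    · by_cases h2 : ((p : ℤ) ^ 2) ∣ qv v (u i)
      · rw [if_pos h2]
        linarith
      · by_cases h3 : ((p : ℤ) ^ 2) ∣ qv v (u (i + 1))
        · rw [if_pos h3]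
          linarith
        · have h4 : ∃ j, j ≠ i ∧ j ≠ i + 1 ∧ (p : ℤ) ∣ qv v (u j) := by
            by_contra hcon
            push Not at hcon
            exact hok ⟨h1, h2, h3, hcon⟩
          obtain ⟨j, hj1, hj2, hj3⟩ := h4
          have hle : (1 : ℝ) ≤ ∑ j ∈ univ.filter (fun j : Fin 5 => j ≠ i ∧ j ≠ i + 1),
              (if (p : ℤ) ∣ qv v (u i) ∧ (p : ℤ) ∣ qv v (u j) then (1 : ℝ) else 0) := by
            have hj : j ∈ univ.filter (fun j : Fin 5 => j ≠ i ∧ j ≠ i + 1) := by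
              simp [hj1, hj2]
            have := Finset.single_le_sum (f := fun j =>
              (if (p : ℤ) ∣ qv v (u i) ∧ (p : ℤ) ∣ qv v (u j) then (1 : ℝ) else 0))
              (s := univ.filter (fun j : Fin 5 => j ≠ i ∧ j ≠ i + 1))
              (fun k _ => by split_ifs <;> norm_num) hj
            simpa [h1, hj3] using this
          linarith
  · rw [if_neg h1]
    linarith

theorem MV_ok_pr {p : ℕ} (hp : p.Prime) (h4 : p % 4 = 1) (u : Fin 5 → ℤ × ℤ) (i : Fin 5)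
    (hu : ∀ j, ¬ ((p : ℤ) ∣ (u j).1 ∧ (p : ℤ) ∣ (u j).2))
    (hne : ∀ j, j ≠ i → j ≠ i + 1 → ¬ (p : ℤ) ∣ dt (u i) (u j)) :
    2 / (p : ℝ) - 20 / (p : ℝ) ^ 2 ≤ EQ.MV (p ^ 2) (iov u i p) := by
  classical
  have hp0 : (0 : ℝ) < p := by exact_mod_cast hp.pos
  have key := MV_mono (m := p ^ 2) (h := fun v => if (p : ℤ) ∣ qv v (u i) then (1 : ℝ) else 0)
    (h' := fun v => iov u i p v + ((if ((p : ℤ) ^ 2) ∣ qv v (u i) then (1 : ℝ) else 0) +
        ((if ((p : ℤ) ^ 2) ∣ qv v (u (i + 1)) then (1 : ℝ) else 0) +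
          ∑ j ∈ univ.filter (fun j : Fin 5 => j ≠ i ∧ j ≠ i + 1),
            (if (p : ℤ) ∣ qv v (u i) ∧ (p : ℤ) ∣ qv v (u j) then (1 : ℝ) else 0))))
    (fun v _ => yg_point u i v)
  rw [MV_add, MV_add, MV_add, MV_sum] at key
  have e1 := MV_one hp h4 (u i) (hu i)
  have e2 := MV_sq hp h4 (u i) (hu i)
  have e3 := MV_sq hp h4 (u (i + 1)) (hu (i + 1))
  have e4 : ∑ j ∈ univ.filter (fun j : Fin 5 => j ≠ i ∧ j ≠ i + 1),
      EQ.MV (p ^ 2) (fun v => if (p : ℤ) ∣ qv v (u i) ∧ (p : ℤ) ∣ qv v (u j) then (1 : ℝ) else 0) =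
      3 * (2 / ((p : ℝ) * (p + 1))) := by
    rw [Finset.sum_congr rfl (g := fun _ => 2 / ((p : ℝ) * (p + 1)))]
    · rw [Finset.sum_const, yg_three, nsmul_eq_mul]
      norm_num
    · intro j hj
      rw [Finset.mem_filter] at hj
      exact MV_two hp h4 (u i) (u j) (hne j hj.2.1 hj.2.2)
  rw [e4] at key
  have key' : 2 / ((p : ℝ) + 1) ≤ EQ.MV (p ^ 2) (iov u i p) + (4 / (p : ℝ) ^ 2 +
      (4 / (p : ℝ) ^ 2 + 3 * (2 / ((p : ℝ) * (p + 1))))) := by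
    have h5 : EQ.MV (p ^ 2) (fun v => if (p : ℤ) ∣ qv v (u i) then (1 : ℝ) else 0) =
      2 / ((p : ℝ) + 1) := e1
    have h6 : EQ.MV (p ^ 2) (fun v => if ((p : ℤ) ^ 2) ∣ qv v (u i) then (1 : ℝ) else 0) ≤
      4 / (p : ℝ) ^ 2 := e2
    have h7 : EQ.MV (p ^ 2) (fun v => if ((p : ℤ) ^ 2) ∣ qv v (u (i + 1)) then (1 : ℝ) else 0) ≤
      4 / (p : ℝ) ^ 2 := e3
    have h8 : EQ.MV (p ^ 2) (fun v => iov u i p v) = EQ.MV (p ^ 2) (iov u i p) := rfl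
    linarith
  have a1 : 2 / ((p : ℝ) + 1) = 2 / (p : ℝ) - 2 / ((p : ℝ) * (p + 1)) := by
    field_simp
    ring
  have a2 : 2 / ((p : ℝ) * (p + 1)) ≤ 2 / (p : ℝ) ^ 2 := by
    apply div_le_div_of_nonneg_left (by norm_num) (by positivity)
    nlinarith
  have a3 : 20 / (p : ℝ) ^ 2 = 5 * (4 / (p : ℝ) ^ 2) := by ring
  have a4 : 2 / (p : ℝ) ^ 2 = (1 / 2) * (4 / (p : ℝ) ^ 2) := by ring
  have a5 : 0 < 4 / (p : ℝ) ^ 2 := by positivity
  rw [a1] at key'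
  rw [a3]
  rw [a4] at a2
  linarith

theorem MV_ok : type_of% @MV_ok_pr := @MV_ok_pr

end Pool.Agent.PENT
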