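import Pool.Agent.Lib_helper8.PENT.YDefs
import Pool.Agent.Lib_helper8.PENT.ZDefs
import Pool.Agent.Lib_helper8.PENT.B.ya
import Pool.Agent.Lib_helper8.PENT.B.ye
import Pool.Agent.Lib_helper8.PENT.B.yf

/-! Block `yh` (project PENT, part YS) -/

set_option autoImplicit false

namespace Pool.Agent.PENT

open Finset

theorem yh_weier {ι : Type} [DecidableEq ι] (s : Finset ι) (c : ι → ℝ)
    (h : ∀ j, 0 ≤ c j ∧ c j ≤ 1) : 1 - ∏ j ∈ s, c j ≤ ∑ j ∈ s, (1 - c j) := by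
  induction s using Finset.induction_on with
  | empty => simp
  | insert a s ha ih =>
    rw [Finset.prod_insert ha, Finset.sum_insert ha]
    have h1 : 0 ≤ ∏ j ∈ s, c j := Finset.prod_nonneg fun j _ => (h j).1
    have h2 : ∏ j ∈ s, c j ≤ 1 := Finset.prod_le_one (fun j _ => (h j).1) (fun j _ => (h j).2)
    have h3 := (h a).2
    have h4 : (1 - c a) * (∏ j ∈ s, c j) ≤ (1 - c a) * 1 :=
      mul_le_mul_of_nonneg_left h2 (by linarith)
    have e : c a * ∏ j ∈ s, c j = ∏ j ∈ s, c j - (1 - c a) * ∏ j ∈ s, c j := by ring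
    rw [e]
    linarith

theorem MV_xv_pr {p : ℕ} (hp : p.Prime) (h4 : p % 4 = 1) (b : ℝ) (hb : 1 / 4 ≤ b) (hb1 : b ≤ 1)
    (u : Fin 5 → ℤ × ℤ) (hu : ∀ j, ¬ ((p : ℤ) ∣ (u j).1 ∧ (p : ℤ) ∣ (u j).2)) :
    0 ≤ EQ.MV (p ^ 2) (xv b u p) ∧ EQ.MV (p ^ 2) (xv b u p) ≤ 1 - 1 / 5120 ∧
      EQ.MV (p ^ 2) (xv b u p) ≤ 10 * (1 - b) / (p : ℝ) + 20 / (p : ℝ) ^ 2 := by
  have hp5 : 5 ≤ p := by
    have := hp.two_le
    by_contra hc
    have hc' : p < 5 := not_le.1 hc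
    interval_cases p <;> omega
  have hp5R : (5 : ℝ) ≤ p := by exact_mod_cast hp5
  have hp0 : (0 : ℝ) < p := by linarith
  have hm : 0 < p ^ 2 := by positivity
  have hfac : ∀ v : ℤ × ℤ × ℤ, ∀ j : Fin 5, 0 ≤ (if (p : ℤ) ∣ qv v (u j) then b else 1) ∧
      (if (p : ℤ) ∣ qv v (u j) then b else 1) ≤ 1 ∧
      b ≤ (if (p : ℤ) ∣ qv v (u j) then b else 1) := by
    intro v j
    split_ifs
    · exact ⟨by linarith, hb1, le_rfl⟩
    · exact ⟨by norm_num, le_rfl, hb1⟩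
  have hAnn : ∀ v : ℤ × ℤ × ℤ, ∀ j : Fin 5,
      (0 : ℝ) ≤ (if ((p : ℤ) ^ 2) ∣ qv v (u j) then 1 else 0) := by
    intro v j
    split_ifs <;> norm_num
  have hBnn : ∀ v : ℤ × ℤ × ℤ, ∀ j : Fin 5,
      (0 : ℝ) ≤ (if (p : ℤ) ∣ qv v (u j) then 1 else 0) := by
    intro v j
    split_ifs <;> norm_num
  have hx0 : ∀ v ∈ EQ.V3 (p ^ 2), 0 ≤ xv b u p v := by
    intro v _
    unfold xv
    split_ifs
    · norm_num
    · have h1 : (∏ j, if (p : ℤ) ∣ qv v (u j) then b else 1) ≤ 1 :=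
        Finset.prod_le_one (fun j _ => (hfac v j).1) (fun j _ => (hfac v j).2.1)
      linarith
  have hsumA : ∀ v : ℤ × ℤ × ℤ, (∃ j, ((p : ℤ) ^ 2) ∣ qv v (u j)) →
      (1 : ℝ) ≤ ∑ j : Fin 5, (if ((p : ℤ) ^ 2) ∣ qv v (u j) then (1 : ℝ) else 0) := by
    rintro v ⟨j, hj⟩
    have h1 := Finset.single_le_sum
      (f := fun j : Fin 5 => (if ((p : ℤ) ^ 2) ∣ qv v (u j) then (1 : ℝ) else 0))
      (fun i _ => hAnn v i) (mem_univ j)
    simp only [if_pos hj] at h1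
    exact h1
  have hx2 : ∀ v ∈ EQ.V3 (p ^ 2), xv b u p v ≤ (1 - b ^ 5) +
      b ^ 5 * ∑ j : Fin 5, (if ((p : ℤ) ^ 2) ∣ qv v (u j) then (1 : ℝ) else 0) := by
    intro v _
    have hb5 : 0 ≤ b ^ 5 := by positivity
    unfold xv
    split_ifs with h
    · have h1 := mul_le_mul_of_nonneg_left (hsumA v h) hb5
      linarith
    · have h1 : b ^ 5 ≤ ∏ j : Fin 5, if (p : ℤ) ∣ qv v (u j) then b else 1 := by
        calc b ^ 5 = ∏ _j : Fin 5, b := by
              rw [Finset.prod_const]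
              simp
          _ ≤ ∏ j : Fin 5, if (p : ℤ) ∣ qv v (u j) then b else 1 :=
            Finset.prod_le_prod (fun j _ => by linarith) (fun j _ => (hfac v j).2.2)
      have h2 : 0 ≤ b ^ 5 * ∑ j : Fin 5, (if ((p : ℤ) ^ 2) ∣ qv v (u j) then (1 : ℝ) else 0) :=
        mul_nonneg hb5 (Finset.sum_nonneg fun j _ => hAnn v j)
      linarith
  have hx3 : ∀ v ∈ EQ.V3 (p ^ 2), xv b u p v ≤
      (∑ j : Fin 5, (if ((p : ℤ) ^ 2) ∣ qv v (u j) then (1 : ℝ) else 0)) +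
      (1 - b) * ∑ j : Fin 5, (if (p : ℤ) ∣ qv v (u j) then (1 : ℝ) else 0) := by
    intro v _
    have hB : 0 ≤ (1 - b) * ∑ j : Fin 5, (if (p : ℤ) ∣ qv v (u j) then (1 : ℝ) else 0) :=
      mul_nonneg (by linarith) (Finset.sum_nonneg fun j _ => hBnn v j)
    unfold xv
    split_ifs with h
    · have h1 := hsumA v h
      linarith
    · have h1 := yh_weier (univ : Finset (Fin 5))
        (fun j => if (p : ℤ) ∣ qv v (u j) then b else 1)
        (fun j => ⟨(hfac v j).1, (hfac v j).2.1⟩)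
      have h2 : ∑ j : Fin 5, (1 - (if (p : ℤ) ∣ qv v (u j) then b else 1)) =
          (1 - b) * ∑ j : Fin 5, (if (p : ℤ) ∣ qv v (u j) then (1 : ℝ) else 0) := by
        rw [Finset.mul_sum]
        refine Finset.sum_congr rfl fun j _ => ?_
        split_ifs <;> ring
      have h3 : 0 ≤ ∑ j : Fin 5, (if ((p : ℤ) ^ 2) ∣ qv v (u j) then (1 : ℝ) else 0) :=
        Finset.sum_nonneg fun j _ => hAnn v j
      rw [h2] at h1
      linarith
  have mA : ∑ j : Fin 5, EQ.MV (p ^ 2) (fun v => if ((p : ℤ) ^ 2) ∣ qv v (u j) then 1 else 0) ≤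
      20 / (p : ℝ) ^ 2 := by
    calc ∑ j : Fin 5, EQ.MV (p ^ 2) (fun v => if ((p : ℤ) ^ 2) ∣ qv v (u j) then 1 else 0)
        ≤ ∑ _j : Fin 5, 4 / (p : ℝ) ^ 2 := Finset.sum_le_sum fun j _ => MV_sq hp h4 (u j) (hu j)
      _ = 20 / (p : ℝ) ^ 2 := by
        rw [Finset.sum_const, nsmul_eq_mul]
        simp
        ring
  have mB : ∑ j : Fin 5, EQ.MV (p ^ 2) (fun v => if (p : ℤ) ∣ qv v (u j) then 1 else 0) ≤
      10 / (p : ℝ) := by
    calc ∑ j : Fin 5, EQ.MV (p ^ 2) (fun v => if (p : ℤ) ∣ qv v (u j) then 1 else 0)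
        = ∑ _j : Fin 5, 2 / ((p : ℝ) + 1) :=
          Finset.sum_congr rfl fun j _ => MV_one hp h4 (u j) (hu j)
      _ = 10 / ((p : ℝ) + 1) := by
        rw [Finset.sum_const, nsmul_eq_mul]
        simp
        ring
      _ ≤ 10 / (p : ℝ) := by
        apply div_le_div_of_nonneg_left (by norm_num) hp0
        linarith
  refine ⟨?_, ?_, ?_⟩
  · have h1 := MV_mono hx0
    rw [MV_const hm] at h1
    exact h1
  · have h1 := MV_mono hx2
    rw [MV_add, MV_const hm, MV_smul, MV_sum] at h1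
    have hb5 : 0 ≤ b ^ 5 := by positivity
    have hb5' : (1 / 4 : ℝ) ^ 5 ≤ b ^ 5 := pow_le_pow_left₀ (by norm_num) hb 5
    have h2 := mul_le_mul_of_nonneg_left mA hb5
    have h3 : 20 / (p : ℝ) ^ 2 ≤ 4 / 5 := by
      rw [div_le_div_iff₀ (by positivity) (by norm_num)]
      nlinarith
    have h4 := mul_le_mul_of_nonneg_left h3 hb5
    have h5 : (1 / 4 : ℝ) ^ 5 = 1 / 1024 := by norm_num
    rw [h5] at hb5'
    linarith
  · have h1 := MV_mono hx3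
    rw [MV_add, MV_smul, MV_sum, MV_sum] at h1
    have h2 := mul_le_mul_of_nonneg_left mB (by linarith : (0 : ℝ) ≤ 1 - b)
    have h3 : (1 - b) * (10 / (p : ℝ)) = 10 * (1 - b) / (p : ℝ) := by ring
    rw [h3] at h2
    linarith

theorem MV_xv : type_of% @MV_xv_pr := @MV_xv_pr

end Pool.Agent.PENT
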